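import Mathlib

/-!
The pointwise inequality for the truncated super-invariant density.
-/

namespace Pool.Agent.Lib.MP_3dc428_gt

noncomputable def hh (e T : ℝ) (a b : ℝ) : ℝ := a ^ e * min (1 / (b * (a - b))) (T / a ^ 2)

lemma rpow_bern {e a a' s : ℝ} (he0 : 0 ≤ e) (he1 : e ≤ 1) (ha : 0 < a) (ha' : 0 < a')
    (hs : a' ≤ a * (1 + s)) : a' ^ e ≤ a ^ e * (1 + e * s) := by
  have h1 : 0 < 1 + s := by
    by_contra h
    nlinarith
  calc a' ^ e ≤ (a * (1 + s)) ^ e := Real.rpow_le_rpow ha'.le hs he0
    _ = a ^ e * (1 + s) ^ e := Real.mul_rpow ha.le h1.le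
    _ ≤ a ^ e * (1 + e * s) := by
        apply mul_le_mul_of_nonneg_left _ (Real.rpow_nonneg ha.le e)
        exact rpow_one_add_le_one_add_mul_self (by linarith) he0 he1

lemma hh_nonneg {e T a b : ℝ} (hT : 0 ≤ T) (hb : 0 < b) (hab : b < a) : 0 ≤ hh e T a b := by
  have ha : 0 < a := hb.trans hab
  have : 0 < a - b := by linarith
  unfold hh
  apply mul_nonneg (Real.rpow_nonneg ha.le e)
  apply le_min <;> positivity

lemma hh_le_left {e T a b : ℝ} (ha : 0 < a) : hh e T a b ≤ a ^ e * (1 / (b * (a - b))) :=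
  mul_le_mul_of_nonneg_left (min_le_left _ _) (Real.rpow_nonneg ha.le e)

lemma hh_le_right {e T a b : ℝ} (ha : 0 < a) : hh e T a b ≤ a ^ e * (T / a ^ 2) :=
  mul_le_mul_of_nonneg_left (min_le_right _ _) (Real.rpow_nonneg ha.le e)

section
variable {e T a b c d : ℝ} (he : 0 < e) (hb : 0 < b) (hab : b < a)
  (hc : 2 * e * c ≤ c - 2) (hc2 : 2 < c) (hd : 2 * e * d ≤ d - 2) (hd2 : 2 < d)
include he hb hab

section
include hc hc2

lemma e_le_one : e ≤ 1 := by nlinarith

lemma term1 : hh e T (c * a - b) a ≤ a ^ e * ((1 + e * (c - 1)) / (a * ((c - 1) * a - b))) := by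
  have ha : 0 < a := hb.trans hab
  have hA : 0 < (c - 1) * a - b := by nlinarith
  have h0 : 0 < c * a - b := by nlinarith
  have h1 : (c * a - b) ^ e ≤ a ^ e * (1 + e * (c - 1)) :=
    rpow_bern he.le (e_le_one he hb hab hc hc2) ha h0 (by nlinarith)
  calc hh e T (c * a - b) a ≤ (c * a - b) ^ e * (1 / (a * (c * a - b - a))) := hh_le_left h0
    _ ≤ a ^ e * (1 + e * (c - 1)) * (1 / (a * (c * a - b - a))) := by
        apply mul_le_mul_of_nonneg_right h1
        have : 0 < c * a - b - a := by nlinarith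
        positivity
    _ = _ := by
        have : c * a - b - a = (c - 1) * a - b := by ring
        rw [this]; ring

lemma u1 : (1 + e * (c - 1)) / (a * ((c - 1) * a - b)) + e / a ^ 2 ≤ 1 / (a * (a - b)) := by
  have ha : 0 < a := hb.trans hab
  have hA : 0 < (c - 1) * a - b := by nlinarith
  have hB : 0 < a - b := by linarith
  rw [div_add_div _ _ (by positivity) (by positivity), div_le_div_iff₀ (by positivity)
    (by positivity)]
  have h1 : e * (c - 1) * (a - b) * a ≤ e * (c - 1) * a * a := by
    have : 0 < e * (c - 1) := by nlinarith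
    nlinarith [mul_pos this (mul_pos hb ha)]
  have h2 : e * (((c - 1) * a - b) * (a - b)) ≤ e * ((c - 1) * a * a) := by
    apply mul_le_mul_of_nonneg_left _ he.le
    apply mul_le_mul (by linarith) (by linarith) hB.le
    nlinarith
  have h3 : 2 * e * (c - 1) * (a * a) ≤ (c - 2) * (a * a) := by
    apply mul_le_mul_of_nonneg_right _ (by positivity)
    nlinarith
  have h4 : (1 + e * (c - 1)) * (a - b) * a + e * (((c - 1) * a - b) * (a - b))
      ≤ ((c - 1) * a - b) * a := by nlinarith
  have h5 : 0 < a * a := by positivity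
  nlinarith [mul_le_mul_of_nonneg_left h4 h5.le]

lemma v1 : (1 + e * (c - 1)) / (a * ((c - 1) * a - b)) ≤ (1 / (2 * e)) / a ^ 2 := by
  have ha : 0 < a := hb.trans hab
  have hA : 0 < (c - 1) * a - b := by nlinarith
  have he1 := e_le_one he hb hab hc hc2
  rw [div_div, div_le_div_iff₀ (by positivity) (by positivity)]
  have h1 : 1 + e * (c - 1) ≤ c := by nlinarith
  have h2 : (1 + e * (c - 1)) * (2 * e) ≤ c - 2 := by nlinarith
  have h3 : (c - 2) * a ≤ (c - 1) * a - b := by nlinarith
  have h5 : 0 < a * a := by positivity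
  nlinarith [mul_le_mul_of_nonneg_right h2 h5.le, mul_le_mul_of_nonneg_left h3 ha.le]

end

section
include hd hd2

lemma term2 :
    hh e T (a + d * b) b ≤ a ^ e * ((1 + e * (d * b / a)) / (b * (a + (d - 1) * b))) := by
  have ha : 0 < a := hb.trans hab
  have h0 : 0 < a + d * b := by positivity
  have h1 : (a + d * b) ^ e ≤ a ^ e * (1 + e * (d * b / a)) :=
    rpow_bern he.le (e_le_one he hb hab hd hd2) ha h0 (by field_simp; exact le_rfl)
  calc hh e T (a + d * b) b ≤ (a + d * b) ^ e * (1 / (b * (a + d * b - b))) := hh_le_left h0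
    _ ≤ a ^ e * (1 + e * (d * b / a)) * (1 / (b * (a + d * b - b))) := by
        apply mul_le_mul_of_nonneg_right h1
        have : 0 < a + d * b - b := by nlinarith
        positivity
    _ = _ := by
        have : a + d * b - b = a + (d - 1) * b := by ring
        rw [this]; ring

lemma term2' (hT : 0 ≤ T) : hh e T (a + d * b) b ≤ a ^ e * (T / a ^ 2) := by
  have ha : 0 < a := hb.trans hab
  have h0 : 0 < a + d * b := by positivity
  have he1 := e_le_one he hb hab hd hd2
  have hs : 0 ≤ d * b / a := by positivity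
  have h1 : (a + d * b) ^ e ≤ a ^ e * (1 + e * (d * b / a)) :=
    rpow_bern he.le he1 ha h0 (by field_simp; exact le_rfl)
  have h2 : a + d * b = a * (1 + d * b / a) := by field_simp
  set s := d * b / a with hsdef
  calc hh e T (a + d * b) b ≤ (a + d * b) ^ e * (T / (a + d * b) ^ 2) := hh_le_right h0
    _ ≤ a ^ e * (1 + e * s) * (T / (a + d * b) ^ 2) :=
        mul_le_mul_of_nonneg_right h1 (by positivity)
    _ = a ^ e * (T / a ^ 2) * ((1 + e * s) / (1 + s) ^ 2) := by
        rw [h2]; field_simp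
    _ ≤ a ^ e * (T / a ^ 2) * 1 := by
        apply mul_le_mul_of_nonneg_left _ (by positivity)
        rw [div_le_one (by positivity)]
        nlinarith
    _ = _ := mul_one _

lemma term3 : hh e T (b + d * a) a ≤ a ^ e * ((1 + e * d) / (a * (b + (d - 1) * a))) := by
  have ha : 0 < a := hb.trans hab
  have h0 : 0 < b + d * a := by positivity
  have h1 : (b + d * a) ^ e ≤ a ^ e * (1 + e * d) :=
    rpow_bern he.le (e_le_one he hb hab hd hd2) ha h0 (by nlinarith)
  calc hh e T (b + d * a) a ≤ (b + d * a) ^ e * (1 / (a * (b + d * a - a))) := hh_le_left h0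
    _ ≤ a ^ e * (1 + e * d) * (1 / (a * (b + d * a - a))) := by
        apply mul_le_mul_of_nonneg_right h1
        have : 0 < b + d * a - a := by nlinarith
        positivity
    _ = _ := by
        have : b + d * a - a = b + (d - 1) * a := by ring
        rw [this]; ring

lemma u2 : (1 + e * (d * b / a)) / (b * (a + (d - 1) * b)) + (1 + e * d) / (a * (b + (d - 1) * a))
    ≤ 1 / (a * b) := by
  have ha : 0 < a := hb.trans hab
  have hP : 0 < a + (d - 1) * b := by nlinarith
  have hR : 0 < b + (d - 1) * a := by nlinarith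
  have h0 : (1 + e * (d * b / a)) / (b * (a + (d - 1) * b))
      = (a + e * d * b) / (a * b * (a + (d - 1) * b)) := by field_simp
  have h0' : (1 + e * d) / (a * (b + (d - 1) * a))
      = ((1 + e * d) * b) / (a * b * (b + (d - 1) * a)) := by field_simp
  have h1 : e * d * b * (d * (a + b)) ≤ d * (d - 2) * (a * b) := by
    have h2 : e * d * b * (d * (a + b)) ≤ e * d * b * (d * (2 * a)) := by
      apply mul_le_mul_of_nonneg_left _ (by positivity)
      nlinarith
    have h3 : 2 * e * d * (d * (a * b)) ≤ (d - 2) * (d * (a * b)) :=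
      mul_le_mul_of_nonneg_right hd (by positivity)
    nlinarith
  have h4 : (a + e * d * b) * (b + (d - 1) * a) + (1 + e * d) * b * (a + (d - 1) * b)
      ≤ (a + (d - 1) * b) * (b + (d - 1) * a) := by nlinarith
  have h5 : (a + e * d * b) / (a + (d - 1) * b) + ((1 + e * d) * b) / (b + (d - 1) * a) ≤ 1 := by
    rw [div_add_div _ _ hP.ne' hR.ne', div_le_one (by positivity)]
    nlinarith
  rw [h0, h0']
  calc (a + e * d * b) / (a * b * (a + (d - 1) * b))
        + ((1 + e * d) * b) / (a * b * (b + (d - 1) * a))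
      = 1 / (a * b) * ((a + e * d * b) / (a + (d - 1) * b)
          + ((1 + e * d) * b) / (b + (d - 1) * a)) := by field_simp
    _ ≤ 1 / (a * b) * 1 := mul_le_mul_of_nonneg_left h5 (by positivity)
    _ = _ := mul_one _

lemma v3 : (1 + e * d) / (a * (b + (d - 1) * a)) ≤ 3 / a ^ 2 := by
  have ha : 0 < a := hb.trans hab
  have hR : 0 < b + (d - 1) * a := by nlinarith
  have he1 := e_le_one he hb hab hd hd2
  rw [div_le_div_iff₀ (by positivity) (by positivity)]
  have h1 : 1 + e * d ≤ 3 * (d - 1) := by nlinarith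
  have h5 : 0 < a * a := by positivity
  nlinarith [mul_le_mul_of_nonneg_right h1 h5.le, mul_pos ha hb]

end

include hc hc2 hd hd2

/-- In the region where the truncation is inactive the density is strictly super-invariant. -/
lemma ineq_good (h : 1 / (b * (a - b)) ≤ T / a ^ 2) :
    hh e T (c * a - b) a + hh e T (a + d * b) b + hh e T (b + d * a) a + e * (a ^ e / a ^ 2)
      ≤ hh e T a b := by
  have ha : 0 < a := hb.trans hab
  have hB : 0 < a - b := by linarith
  have h1 := term1 (T := T) he hb hab hc hc2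
  have h2 := term2 (T := T) he hb hab hd hd2
  have h3 := term3 (T := T) he hb hab hd hd2
  have h4 := u1 he hb hab hc hc2
  have h5 := u2 he hb hab hd hd2
  have h6 : 1 / (b * (a - b)) = 1 / (a * b) + 1 / (a * (a - b)) := by field_simp; ring
  have h7 : hh e T a b = a ^ e * (1 / (a * b) + 1 / (a * (a - b))) := by
    unfold hh; rw [min_eq_left h, h6]
  have hp : 0 ≤ a ^ e := Real.rpow_nonneg ha.le e
  have h8 := mul_le_mul_of_nonneg_left h4 hp
  have h9 := mul_le_mul_of_nonneg_left h5 hp
  have h10 : e * (a ^ e / a ^ 2) = a ^ e * (e / a ^ 2) := by ring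
  rw [h7, h10]
  nlinarith

/-- In the region where the truncation is active the loss is controlled. -/
lemma ineq_bad (hT : 0 ≤ T) (h : T / a ^ 2 ≤ 1 / (b * (a - b))) :
    hh e T (c * a - b) a + hh e T (a + d * b) b + hh e T (b + d * a) a + e * (a ^ e / a ^ 2)
      ≤ hh e T a b + (1 / (2 * e) + 3 + e) * (a ^ e / a ^ 2) := by
  have ha : 0 < a := hb.trans hab
  have h1 := term1 (T := T) he hb hab hc hc2
  have h2 := term2' he hb hab hd hd2 hT
  have h3 := term3 (T := T) he hb hab hd hd2
  have h4 := v1 he hb hab hc hc2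
  have h5 := v3 he hb hab hd hd2
  have h7 : hh e T a b = a ^ e * (T / a ^ 2) := by
    unfold hh; rw [min_eq_right h]
  have hp : 0 ≤ a ^ e := Real.rpow_nonneg ha.le e
  have h8 := mul_le_mul_of_nonneg_left h4 hp
  have h9 := mul_le_mul_of_nonneg_left h5 hp
  have h10 : (1 / (2 * e) + 3 + e) * (a ^ e / a ^ 2)
      = a ^ e * (1 / (2 * e) / a ^ 2) + a ^ e * (3 / a ^ 2) + e * (a ^ e / a ^ 2) := by ring
  rw [h7, h10]
  linarith

end

end Pool.Agent.Lib.MP_3dc428_gt
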