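import Pool.Agent.Lib.MP_3dc428_gt.Graph
import Pool.Agent.Lib.MP_3dc428_gt.Ineq

/-!
The core measure-theoretic statement: a measurable subset of the plane invariant under the Vieta
involution, the swap and a sign change, on which the real trace stays at least `l > 2`, is null.
-/

namespace Pool.Agent.Lib.MP_3dc428_gt

open MeasureTheory Set Filter Topology
open scoped ENNReal

/-- The weight `a ^ (e - 2)`. -/
noncomputable def EE (e : ℝ) (p : ℝ × ℝ) : ℝ≥0∞ := ENNReal.ofReal (p.1 ^ e / p.1 ^ 2)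

lemma measurable_EE (e : ℝ) : Measurable (EE e) := by
  unfold EE
  fun_prop

def tri (R : ℝ) : Set (ℝ × ℝ) := {p | 0 < p.2 ∧ p.2 < p.1 ∧ p.1 ≤ R}

lemma measurableSet_tri (R : ℝ) : MeasurableSet (tri R) := by
  unfold tri
  refine (measurableSet_lt measurable_const measurable_snd).inter
    ((measurableSet_lt measurable_snd measurable_fst).inter
      (measurableSet_le measurable_fst measurable_const))

lemma lintegral_EE_lt_top {e : ℝ} (he : 0 < e) (R : ℝ) :
    ∫⁻ p in tri R, EE e p < ∞ := by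
  rw [← lintegral_indicator (measurableSet_tri R), Measure.volume_eq_prod,
    lintegral_prod _ ((measurable_EE e).indicator (measurableSet_tri R)).aemeasurable]
  have h1 : ∀ a : ℝ, ∫⁻ b, (tri R).indicator (EE e) (a, b)
      ≤ (Ioc 0 R).indicator (fun a => ENNReal.ofReal (a ^ (e - 1))) a := by
    intro a
    by_cases ha : a ∈ Ioc 0 R
    · rw [indicator_of_mem ha]
      have : ∀ b : ℝ, (tri R).indicator (EE e) (a, b)
          = (Ioo 0 a).indicator (fun _ => ENNReal.ofReal (a ^ e / a ^ 2)) b := by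
        intro b
        by_cases hb : b ∈ Ioo 0 a
        · rw [indicator_of_mem hb, indicator_of_mem (show (a, b) ∈ tri R from ⟨hb.1, hb.2, ha.2⟩)]
          rfl
        · rw [indicator_of_notMem hb, indicator_of_notMem]
          exact fun h => hb ⟨h.1, h.2.1⟩
      simp_rw [this]
      rw [lintegral_indicator measurableSet_Ioo, setLIntegral_const, Real.volume_Ioo,
        ← ENNReal.ofReal_mul (by have := ha.1; positivity)]
      apply le_of_eq
      congr 1
      have := ha.1
      rw [Real.rpow_sub_one this.ne']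
      field_simp
      ring
    · have : ∀ b : ℝ, (tri R).indicator (EE e) (a, b) = 0 := by
        intro b
        apply indicator_of_notMem
        exact fun h => ha ⟨h.1.trans h.2.1, h.2.2⟩
      simp [this]
  refine lt_of_le_of_lt (lintegral_mono h1) ?_
  rw [lintegral_indicator measurableSet_Ioc]
  have hint : IntegrableOn (fun a : ℝ => a ^ (e - 1)) (Ioc 0 R) := by
    by_cases hR : 0 ≤ R
    · exact (intervalIntegrable_iff_integrableOn_Ioc_of_le hR).1
        (intervalIntegral.intervalIntegrable_rpow' (by linarith))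
    · rw [Ioc_eq_empty (by linarith)]; exact integrableOn_empty
  exact hint.lintegral_lt_top

structure Inv (l : ℝ) (M : Set (ℝ × ℝ)) : Prop where
  meas : MeasurableSet M
  hQ : ∀ p ∈ M, QQ l p ∈ M
  hswap : ∀ p ∈ M, Prod.swap p ∈ M
  hneg : ∀ p ∈ M, neg1 p ∈ M
  hY : ∀ p ∈ M, l ≤ YY l p.1 p.2

section
variable {l : ℝ} {M : Set (ℝ × ℝ)}

/-- Every point of the truncated set is the image of a point of the truncated set under one of the
three inverse branches, unless it lies on a curve. -/
lemma cover (hl : 2 < l) (hM : Inv l M) (R : ℝ) {p : ℝ × ℝ} (hp : p ∈ M ∩ tri R) :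
    Prod.swap (QQ l p) ∈ M ∩ tri R ∨ neg1 (QQ l p) ∈ M ∩ tri R ∨
      Prod.swap (neg1 (QQ l p)) ∈ M ∩ tri R ∨ (QQ l p).1 = 0 := by
  obtain ⟨a, b⟩ := p
  obtain ⟨hpM, hb, hab, haR⟩ := hp
  simp only at hb hab haR
  have hl0 : 0 < l := by linarith
  have ha : 0 < a := hb.trans hab
  have hc := hM.hY _ hpM
  have hE := YY_eq hl0 a b
  simp only at hc
  have hQ := hM.hQ _ hpM
  set c := YY l a b with hcdef
  have hQe : QQ l (a, b) = (c * b - a, b) := rfl
  rw [hQe] at hQ ⊢
  rcases lt_trichotomy (c * b - a) 0 with h | h | h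
  · have hN := hM.hneg _ hQ
    rcases lt_trichotomy (a - c * b) b with h' | h' | h'
    · right; right; left
      refine ⟨hM.hswap _ hN, ?_, ?_, ?_⟩ <;> simp [neg1] <;> linarith
    · exfalso
      have h1 : neg1 (c * b - a, b) = (b, b) := by simp [neg1]; linarith
      rw [h1] at hN
      have h2 := hM.hY _ hN
      have h3 := YY_eq hl0 b b
      simp only at h2
      nlinarith [mul_pos hb hb]
    · right; left
      refine ⟨hN, ?_, ?_, ?_⟩ <;> simp [neg1] <;> nlinarith
  · right; right; right; exact h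
  · left
    refine ⟨hM.hswap _ hQ, ?_, ?_, ?_⟩
    · simpa using h
    · simp only [Prod.snd_swap, Prod.fst_swap]
      by_contra hcon
      push Not at hcon
      nlinarith [mul_le_mul_of_nonneg_left hcon ha.le, mul_pos hb (sub_pos.2 hab)]
    · simp only [Prod.fst_swap]; linarith

noncomputable def gg (M : Set (ℝ × ℝ)) (R e T : ℝ) : ℝ × ℝ → ℝ≥0∞ :=
  (M ∩ tri R).indicator fun p => ENNReal.ofReal (hh e T p.1 p.2)

lemma measurable_gg (hM : MeasurableSet M) (R e T : ℝ) : Measurable (gg M R e T) := by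
  unfold gg hh
  refine Measurable.indicator ?_ (hM.inter (measurableSet_tri R))
  fun_prop

lemma gg_le (R e T : ℝ) (p : ℝ × ℝ) : gg M R e T p ≤ ENNReal.ofReal (hh e T p.1 p.2) :=
  indicator_le_self _ _ p

lemma neg1_neg1 (p : ℝ × ℝ) : neg1 (neg1 p) = p := by simp [neg1]

lemma step_A (hl : 2 < l) (hM : Inv l M) (R e T : ℝ) :
    ∫⁻ p, gg M R e T p ∂(nu l) ≤ ∫⁻ q in M ∩ tri R, (gg M R e T (QQ l (Prod.swap q))
      + gg M R e T (QQ l (neg1 q)) + gg M R e T (QQ l (neg1 (Prod.swap q)))) ∂(nu l) := by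
  have hl0 : 0 < l := by linarith
  set S := M ∩ tri R with hS
  have hSm : MeasurableSet S := hM.meas.inter (measurableSet_tri R)
  set g := gg M R e T with hg
  have hgm : Measurable g := measurable_gg hM.meas R e T
  have hQ : Measurable (QQ l) := continuous_QQ.measurable
  have hN : Measurable neg1 := continuous_neg1.measurable
  set f1 : ℝ × ℝ → ℝ≥0∞ := S.indicator fun q => g (QQ l (Prod.swap q)) with hf1
  set f2 : ℝ × ℝ → ℝ≥0∞ := S.indicator fun q => g (QQ l (neg1 q)) with hf2
  set f3 : ℝ × ℝ → ℝ≥0∞ := S.indicator fun q => g (QQ l (neg1 (Prod.swap q))) with hf3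
  set Z : Set (ℝ × ℝ) := {q | q.1 = 0} with hZ
  have hZm : MeasurableSet Z := measurableSet_eq_fun measurable_fst measurable_const
  set f4 : ℝ × ℝ → ℝ≥0∞ := Z.indicator fun q => g (QQ l q) with hf4
  have m1 : Measurable f1 := (hgm.comp (hQ.comp measurable_swap)).indicator hSm
  have m2 : Measurable f2 := (hgm.comp (hQ.comp hN)).indicator hSm
  have m3 : Measurable f3 := (hgm.comp (hQ.comp (hN.comp measurable_swap))).indicator hSm
  have m4 : Measurable f4 := (hgm.comp hQ).indicator hZm
  have hpt : ∀ p, g p ≤ f1 (Prod.swap (QQ l p)) + f2 (neg1 (QQ l p))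
      + f3 (Prod.swap (neg1 (QQ l p))) + f4 (QQ l p) := by
    intro p
    by_cases hp : p ∈ S
    · rcases cover hl hM R hp with h | h | h | h
      · have : f1 (Prod.swap (QQ l p)) = g p := by
          rw [hf1, indicator_of_mem h, Prod.swap_swap, QQ_QQ hl0]
        rw [this]
        exact le_add_right (le_add_right (le_add_right le_rfl))
      · have : f2 (neg1 (QQ l p)) = g p := by
          rw [hf2, indicator_of_mem h, neg1_neg1, QQ_QQ hl0]
        rw [this]
        exact le_add_right (le_add_right (le_add_left le_rfl))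
      · have : f3 (Prod.swap (neg1 (QQ l p))) = g p := by
          rw [hf3, indicator_of_mem h, Prod.swap_swap, neg1_neg1, QQ_QQ hl0]
        rw [this]
        exact le_add_right (le_add_left le_rfl)
      · have : f4 (QQ l p) = g p := by
          rw [hf4, indicator_of_mem (show QQ l p ∈ Z from h), QQ_QQ hl0]
        rw [this]
        exact le_add_left le_rfl
    · have : g p = 0 := indicator_of_notMem hp _
      rw [this]; exact zero_le
  have hZ0 : nu l Z = 0 := by
    apply withDensity_absolutelyContinuous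
    have : Z = ({0} : Set ℝ) ×ˢ (univ : Set ℝ) := by
      ext q; simp [hZ]
    rw [this, Measure.volume_eq_prod, Measure.prod_prod]
    simp
  calc ∫⁻ p, g p ∂(nu l) ≤ ∫⁻ p, (f1 (Prod.swap (QQ l p)) + f2 (neg1 (QQ l p))
        + f3 (Prod.swap (neg1 (QQ l p))) + f4 (QQ l p)) ∂(nu l) := lintegral_mono hpt
    _ = ∫⁻ p, (f1 (Prod.swap p) + f2 (neg1 p) + f3 (Prod.swap (neg1 p)) + f4 p) ∂(nu l) :=
        lintegral_QQ hl0 (fun p => f1 (Prod.swap p) + f2 (neg1 p) + f3 (Prod.swap (neg1 p)) + f4 p)
          ((((m1.comp measurable_swap).add (m2.comp hN)).add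
            (m3.comp (measurable_swap.comp hN))).add m4)
    _ = ∫⁻ p, f1 (Prod.swap p) ∂(nu l) + ∫⁻ p, f2 (neg1 p) ∂(nu l)
        + ∫⁻ p, f3 (Prod.swap (neg1 p)) ∂(nu l) + ∫⁻ p, f4 p ∂(nu l) := by
        have m3' : Measurable fun p => f3 (Prod.swap (neg1 p)) :=
          m3.comp (measurable_swap.comp hN)
        have m2' : Measurable fun p => f2 (neg1 p) := m2.comp hN
        rw [lintegral_add_right _ m4, lintegral_add_right _ m3', lintegral_add_right _ m2']
    _ = ∫⁻ p, f1 p ∂(nu l) + ∫⁻ p, f2 p ∂(nu l) + ∫⁻ p, f3 p ∂(nu l) + 0 := by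
        rw [lintegral_swap _ m1, lintegral_neg1 _ m2,
          lintegral_neg1 (fun p => f3 (Prod.swap p)) (m3.comp measurable_swap),
          lintegral_swap _ m3, hf4, lintegral_indicator hZm, setLIntegral_measure_zero _ _ hZ0]
    _ = _ := by
        rw [add_zero, ← lintegral_add_right _ m2, ← lintegral_add_right _ m3,
          ← lintegral_indicator hSm]
        refine lintegral_congr fun p => ?_
        by_cases hp : p ∈ S
        · simp [hf1, hf2, hf3, indicator_of_mem hp]
        · simp [hf1, hf2, hf3, indicator_of_notMem hp]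

def bad (T : ℝ) : Set (ℝ × ℝ) := {p | T / p.1 ^ 2 < 1 / (p.2 * (p.1 - p.2))}

lemma measurableSet_bad (T : ℝ) : MeasurableSet (bad T) := by
  unfold bad
  apply measurableSet_lt <;> fun_prop

lemma step_B (hl : 2 < l) (hM : Inv l M) (R : ℝ) {e T : ℝ} (he : 0 < e) (hel : 2 * e * l ≤ l - 2)
    (hT : 0 ≤ T) {q : ℝ × ℝ} (hq : q ∈ M ∩ tri R) :
    gg M R e T (QQ l (Prod.swap q)) + gg M R e T (QQ l (neg1 q))
      + gg M R e T (QQ l (neg1 (Prod.swap q))) + ENNReal.ofReal e * EE e q
      ≤ gg M R e T q + ENNReal.ofReal (1 / (2 * e) + 3 + e) * (bad T).indicator (EE e) q := by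
  obtain ⟨a, b⟩ := q
  have hq' := hq
  obtain ⟨hqM, hb, hab, haR⟩ := hq'
  simp only at hb hab haR
  have ha : 0 < a := hb.trans hab
  have hc : l ≤ YY l a b := hM.hY _ hqM
  have hd : l ≤ YY l (-a) b := hM.hY _ (hM.hneg _ hqM)
  set c := YY l a b with hcdef
  set d := YY l (-a) b with hddef
  have he2 : 2 * e < 1 := by nlinarith
  have hc' : 2 * e * c ≤ c - 2 := by nlinarith
  have hd' : 2 * e * d ≤ d - 2 := by nlinarith
  have hc2 : 2 < c := by linarith
  have hd2 : 2 < d := by linarith
  have e1 : QQ l (Prod.swap (a, b)) = (c * a - b, a) := by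
    simp [QQ, YY_swap a b, hcdef]
  have e2 : QQ l (neg1 (a, b)) = (a + d * b, b) := by
    simp [QQ, neg1, hddef]; ring
  have e3 : QQ l (neg1 (Prod.swap (a, b))) = (b + d * a, a) := by
    have : YY l (-b) a = d := by
      rw [hddef, YY_neg, YY_neg, YY_swap]; ring
    simp [QQ, neg1, this]; ring
  rw [e1, e2, e3]
  have n1 : 0 ≤ hh e T (c * a - b) a := hh_nonneg hT ha (by nlinarith)
  have n2 : 0 ≤ hh e T (a + d * b) b := hh_nonneg hT hb (by nlinarith)
  have n3 : 0 ≤ hh e T (b + d * a) a := hh_nonneg hT ha (by nlinarith)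
  have n0 : 0 ≤ hh e T a b := hh_nonneg hT hb hab
  have n4 : 0 ≤ a ^ e / a ^ 2 := by positivity
  have g0 : gg M R e T (a, b) = ENNReal.ofReal (hh e T a b) := indicator_of_mem hq _
  have hle : gg M R e T (c * a - b, a) + gg M R e T (a + d * b, b) + gg M R e T (b + d * a, a)
      + ENNReal.ofReal e * EE e (a, b) ≤ ENNReal.ofReal (hh e T (c * a - b) a
        + hh e T (a + d * b) b + hh e T (b + d * a) a + e * (a ^ e / a ^ 2)) := by
    rw [ENNReal.ofReal_add (by positivity) (by positivity), ENNReal.ofReal_add (by positivity) n3,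
      ENNReal.ofReal_add n1 n2, ENNReal.ofReal_mul he.le]
    gcongr
    · exact gg_le _ _ _ _
    · exact gg_le _ _ _ _
    · exact gg_le _ _ _ _
    · exact le_rfl
  refine hle.trans ?_
  rw [g0]
  by_cases hbad : (a, b) ∈ bad T
  · rw [indicator_of_mem hbad]
    have := ineq_bad he hb hab hc' hc2 hd' hd2 hT (le_of_lt hbad)
    refine (ENNReal.ofReal_le_ofReal this).trans ?_
    rw [ENNReal.ofReal_add n0 (by positivity), ENNReal.ofReal_mul (by positivity)]
    exact le_rfl
  · have := ineq_good he hb hab hc' hc2 hd' hd2 (not_lt.1 hbad)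
    exact (ENNReal.ofReal_le_ofReal this).trans (le_add_right le_rfl)

lemma step_C (hl : 2 < l) (hM : Inv l M) (R : ℝ) {e T : ℝ} (he : 0 < e) (hel : 2 * e * l ≤ l - 2)
    (hT : 0 ≤ T) :
    ENNReal.ofReal e * ∫⁻ q in M ∩ tri R, EE e q ∂(nu l)
      ≤ ENNReal.ofReal (1 / (2 * e) + 3 + e) * ∫⁻ q in (M ∩ tri R) ∩ bad T, EE e q ∂(nu l) := by
  set S := M ∩ tri R with hS
  have hSm : MeasurableSet S := hM.meas.inter (measurableSet_tri R)
  have hgm : Measurable (gg M R e T) := measurable_gg hM.meas R e T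
  have hA := step_A hl hM R e T
  have hEfin : ∫⁻ q in S, EE e q ∂(nu l) < ∞ := by
    refine lt_of_le_of_lt ?_ (lintegral_EE_lt_top he R)
    exact lintegral_mono' (Measure.restrict_mono inter_subset_right (nu_le_volume (by linarith)))
      le_rfl
  have hgS : ∫⁻ p, gg M R e T p ∂(nu l) = ∫⁻ p in S, gg M R e T p ∂(nu l) := by
    rw [← lintegral_indicator hSm]
    refine lintegral_congr fun p => ?_
    by_cases hp : p ∈ S
    · rw [indicator_of_mem hp]
    · rw [indicator_of_notMem hp]; exact indicator_of_notMem hp _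
  have hfin : ∫⁻ p in S, gg M R e T p ∂(nu l) < ∞ := by
    have : ∫⁻ p in S, gg M R e T p ∂(nu l) ≤ ∫⁻ p in S, ENNReal.ofReal T * EE e p ∂(nu l) := by
      refine setLIntegral_mono' hSm fun p hp => ?_
      refine (gg_le _ _ _ _).trans ?_
      unfold EE
      rw [← ENNReal.ofReal_mul hT]
      apply ENNReal.ofReal_le_ofReal
      refine (hh_le_right (hp.2.1.trans hp.2.2.1)).trans (le_of_eq ?_)
      ring
    refine lt_of_le_of_lt this ?_
    rw [lintegral_const_mul _ (measurable_EE e)]
    exact ENNReal.mul_lt_top ENNReal.ofReal_lt_top hEfin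
  have hB : ∫⁻ q in S, (gg M R e T (QQ l (Prod.swap q)) + gg M R e T (QQ l (neg1 q))
      + gg M R e T (QQ l (neg1 (Prod.swap q))) + ENNReal.ofReal e * EE e q) ∂(nu l)
      ≤ ∫⁻ q in S, (gg M R e T q
        + ENNReal.ofReal (1 / (2 * e) + 3 + e) * (bad T).indicator (EE e) q) ∂(nu l) :=
    setLIntegral_mono' hSm fun q hq => step_B hl hM R he hel hT hq
  rw [lintegral_add_right _ ((measurable_EE e).const_mul _), lintegral_add_left hgm,
    lintegral_const_mul _ (measurable_EE e),
    lintegral_const_mul _ ((measurable_EE e).indicator (measurableSet_bad T)),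
    lintegral_indicator (measurableSet_bad T), Measure.restrict_restrict (measurableSet_bad T),
    inter_comm (bad T)] at hB
  rw [hgS] at hA
  have := (add_le_add_left hA _).trans hB
  exact (ENNReal.add_le_add_iff_left hfin.ne).1 this

lemma null_tri (hl : 2 < l) (hM : Inv l M) (R : ℝ) : volume (M ∩ tri R) = 0 := by
  set S := M ∩ tri R with hS
  have hSm : MeasurableSet S := hM.meas.inter (measurableSet_tri R)
  set e : ℝ := (l - 2) / (2 * l) with hedef
  have he : 0 < e := by rw [hedef]; apply div_pos <;> linarith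
  have hel : 2 * e * l ≤ l - 2 := by
    rw [hedef]; field_simp; exact le_rfl
  set μ : Measure (ℝ × ℝ) := ((nu l).withDensity (EE e)).restrict S with hμ
  have hμ1 : ∀ A, MeasurableSet A → μ A = ∫⁻ q in S ∩ A, EE e q ∂(nu l) := by
    intro A hA
    rw [hμ, Measure.restrict_apply hA, withDensity_apply _ (hA.inter hSm), inter_comm]
  have hEfin : ∫⁻ q in S, EE e q ∂(nu l) < ∞ := by
    refine lt_of_le_of_lt ?_ (lintegral_EE_lt_top he R)
    exact lintegral_mono' (Measure.restrict_mono inter_subset_right (nu_le_volume (by linarith)))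
      le_rfl
  have hanti : Antitone fun n : ℕ => bad n := by
    intro m n hmn p hp
    have hp' : (n : ℝ) / p.1 ^ 2 < 1 / (p.2 * (p.1 - p.2)) := hp
    show (m : ℝ) / p.1 ^ 2 < 1 / (p.2 * (p.1 - p.2))
    refine lt_of_le_of_lt ?_ hp'
    apply div_le_div_of_nonneg_right _ (sq_nonneg _)
    exact_mod_cast hmn
  have hlim : Tendsto (fun n : ℕ => μ (bad n)) atTop (𝓝 (μ (⋂ n : ℕ, bad n))) := by
    apply tendsto_measure_iInter_atTop (fun n => (measurableSet_bad _).nullMeasurableSet) hanti
    refine ⟨0, ?_⟩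
    rw [hμ1 _ (measurableSet_bad _)]
    exact (lt_of_le_of_lt (lintegral_mono_set inter_subset_left) hEfin).ne
  have hzero : μ (⋂ n : ℕ, bad n) = 0 := by
    rw [hμ1 _ (MeasurableSet.iInter fun n => measurableSet_bad _)]
    have : S ∩ ⋂ n : ℕ, bad n = ∅ := by
      apply eq_empty_of_forall_notMem
      rintro p ⟨hp, hp'⟩
      have ha : 0 < p.1 := hp.2.1.trans hp.2.2.1
      obtain ⟨n, hn⟩ := exists_nat_ge (p.1 ^ 2 * (1 / (p.2 * (p.1 - p.2))))
      have h1 : (n : ℝ) / p.1 ^ 2 < 1 / (p.2 * (p.1 - p.2)) := mem_iInter.1 hp' n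
      rw [div_lt_iff₀ (by positivity)] at h1
      linarith
    rw [this]; simp
  rw [hzero] at hlim
  have hlim2 := ENNReal.Tendsto.const_mul (a := ENNReal.ofReal (1 / (2 * e) + 3 + e)) hlim
    (Or.inr ENNReal.ofReal_ne_top)
  rw [mul_zero] at hlim2
  have hle : ENNReal.ofReal e * ∫⁻ q in S, EE e q ∂(nu l) ≤ 0 := by
    refine ge_of_tendsto' hlim2 fun n => ?_
    rw [hμ1 _ (measurableSet_bad _)]
    exact step_C hl hM R he hel (Nat.cast_nonneg n)
  have h0 : ∫⁻ q in S, EE e q ∂(nu l) = 0 := by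
    rcases mul_eq_zero.1 (nonpos_iff_eq_zero.1 hle) with h | h
    · exact absurd h (by simpa using he)
    · exact h
  rw [lintegral_eq_zero_iff (measurable_EE e)] at h0
  have h1 : nu l S = 0 := by
    have h2 : (nu l).restrict S S = 0 := by
      refine measure_mono_null (fun p hp => ?_) h0
      have ha : 0 < p.1 := hp.2.1.trans hp.2.2.1
      simp only [mem_compl_iff, mem_ofPred_eq, Pi.zero_apply, EE, ENNReal.ofReal_eq_zero, not_le]
      positivity
    rwa [Measure.restrict_apply_self] at h2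
  exact volume_ac_nu (by linarith) h1

theorem core (hl : 2 < l) (hM : Inv l M) : volume M = 0 := by
  have hl0 : 0 < l := by linarith
  have hN : Measurable neg1 := continuous_neg1.measurable
  set A : Set (ℝ × ℝ) := M ∩ {p | 0 < p.2 ∧ p.2 < p.1} with hA
  have hAm : MeasurableSet A := hM.meas.inter
    ((measurableSet_lt measurable_const measurable_snd).inter
      (measurableSet_lt measurable_snd measurable_fst))
  have hA0 : nu l A = 0 := by
    apply withDensity_absolutelyContinuous
    have : A ⊆ ⋃ n : ℕ, M ∩ tri n := by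
      rintro p ⟨hp, h1, h2⟩
      obtain ⟨n, hn⟩ := exists_nat_ge p.1
      exact mem_iUnion.2 ⟨n, hp, h1, h2, hn⟩
    exact measure_mono_null this (measure_iUnion_null fun n => null_tri hl hM n)
  have pre_swap : ∀ B : Set (ℝ × ℝ), MeasurableSet B → nu l B = 0 →
      nu l (Prod.swap ⁻¹' B) = 0 := by
    intro B hB h
    have := lintegral_swap (l := l) (B.indicator 1) (measurable_one.indicator hB)
    rw [lintegral_indicator_one hB, h] at this
    rw [← this, ← lintegral_indicator_one (measurable_swap hB)]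
    rfl
  have pre_neg : ∀ B : Set (ℝ × ℝ), MeasurableSet B → nu l B = 0 →
      nu l (neg1 ⁻¹' B) = 0 := by
    intro B hB h
    have := lintegral_neg1 (l := l) (B.indicator 1) (measurable_one.indicator hB)
    rw [lintegral_indicator_one hB, h] at this
    rw [← this, ← lintegral_indicator_one (hN hB)]
    rfl
  set Z : Set (ℝ × ℝ) := {q | q.1 = 0} with hZ
  have hZm : MeasurableSet Z := measurableSet_eq_fun measurable_fst measurable_const
  have hZ0 : nu l Z = 0 := by
    apply withDensity_absolutelyContinuous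
    have : Z = ({0} : Set ℝ) ×ˢ (univ : Set ℝ) := by
      ext q; simp [hZ]
    rw [this, Measure.volume_eq_prod, Measure.prod_prod]
    simp
  set B : Set (ℝ × ℝ) := A ∪ Prod.swap ⁻¹' A ∪ Z with hB
  have hBm : MeasurableSet B := (hAm.union (measurable_swap hAm)).union hZm
  have hB0 : nu l B = 0 :=
    measure_union_null (measure_union_null hA0 (pre_swap _ hAm hA0)) hZ0
  set C : Set (ℝ × ℝ) := B ∪ neg1 ⁻¹' B with hC
  have hCm : MeasurableSet C := hBm.union (hN hBm)
  have hC0 : nu l C = 0 := measure_union_null hB0 (pre_neg _ hBm hB0)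
  have hpos : ∀ p ∈ M, 0 < p.2 → p ∈ C := by
    have hpp : ∀ p ∈ M, 0 < p.2 → 0 ≤ p.1 → p ∈ B := by
      intro p hp h2 h1
      rcases h1.eq_or_lt with h1 | h1
      · right; exact h1.symm
      left
      rcases lt_trichotomy p.1 p.2 with h | h | h
      · right; exact ⟨hM.hswap _ hp, h1, h⟩
      · exfalso
        have h3 := hM.hY _ hp
        have h4 := YY_eq hl0 p.1 p.2
        rw [h] at h3 h4
        nlinarith [mul_pos h2 h2]
      · left; exact ⟨hp, h2, h⟩
    intro p hp h2
    rcases le_total 0 p.1 with h1 | h1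
    · left; exact hpp p hp h2 h1
    · right; exact hpp _ (hM.hneg _ hp) h2 (by simpa [neg1] using h1)
  have hsub : M ⊆ C ∪ Prod.swap ⁻¹' (neg1 ⁻¹' (Prod.swap ⁻¹' C)) ∪ Prod.swap ⁻¹' Z := by
    intro p hp
    rcases lt_trichotomy p.2 0 with h | h | h
    · left; right
      exact hpos _ (hM.hswap _ (hM.hneg _ (hM.hswap _ hp))) (by simpa [neg1] using h)
    · right; exact h
    · left; left; exact hpos p hp h
  apply volume_ac_nu hl0
  refine measure_mono_null hsub (measure_union_null (measure_union_null hC0 ?_) ?_)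
  · exact pre_swap _ (hN (measurable_swap hCm)) (pre_neg _ (measurable_swap hCm)
      (pre_swap _ hCm hC0))
  · exact pre_swap _ hZm hZ0

end

end Pool.Agent.Lib.MP_3dc428_gt
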