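import Mathlib

/-!
Definitions used in the statement: trace coordinates, the twisted component, the level surfaces,
the group of transformations induced by mapping classes, ergodicity and wandering domains.
-/

namespace Pool.Agent.Lib.MP_3dc428_gt

open MeasureTheory Set

/-- The peripheral element `K = X Y X⁻¹ Y⁻¹` of the free group on `X = of 0`, `Y = of 1`. -/
def periph : FreeGroup (Fin 2) :=
  FreeGroup.of 0 * FreeGroup.of 1 * (FreeGroup.of 0)⁻¹ * (FreeGroup.of 1)⁻¹

/-- The trace coordinates `(tr ρ(X), tr ρ(Y), tr ρ(XY))` of a representation. -/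
noncomputable def character (ρ : FreeGroup (Fin 2) →* Matrix.SpecialLinearGroup (Fin 2) ℂ) :
    ℂ × ℂ × ℂ :=
  ((ρ (FreeGroup.of 0)).1.trace, (ρ (FreeGroup.of 1)).1.trace,
    (ρ (FreeGroup.of 0 * FreeGroup.of 1)).1.trace)

/-- The boundary trace `κ(x,y,z) = x² + y² + z² - xyz - 2`. -/
def kappa (p : ℂ × ℂ × ℂ) : ℂ :=
  p.1 ^ 2 + p.2.1 ^ 2 + p.2.2 ^ 2 - p.1 * p.2.1 * p.2.2 - 2

/-- The component `iℝ × ℝ × iℝ`. -/
def component : Set (ℂ × ℂ × ℂ) := {p | p.1.re = 0 ∧ p.2.1.im = 0 ∧ p.2.2.re = 0}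

/-- The level surface `V_t`. -/
def level (t : ℝ) : Set (ℂ × ℂ × ℂ) := {p | p ∈ component ∧ kappa p = (t : ℂ)}

/-- The transformations of trace coordinates that are induced by precomposition with an
automorphism `φ` of the free group and preserve the component. If `oriented` holds, only
automorphisms sending `K` to a conjugate of `K` (orientation-preserving mapping classes) are
used; otherwise all automorphisms (the extended mapping class group). -/
def modGroup (oriented : Prop) : Subgroup (Equiv.Perm (ℂ × ℂ × ℂ)) where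
  carrier := {g | g '' component = component ∧ ∃ φ : MulAut (FreeGroup (Fin 2)),
    (oriented → IsConj (φ periph) periph) ∧
      ∀ ρ, g (character ρ) = character (ρ.comp φ.toMonoidHom)}
  one_mem' := ⟨by simp, 1, fun _ => IsConj.refl _, fun _ => rfl⟩
  mul_mem' := by
    rintro g h ⟨hg, φ, hφ, hφ'⟩ ⟨hh, ψ, hψ, hψ'⟩
    refine ⟨by rw [Equiv.Perm.coe_mul, image_comp, hh, hg], ψ * φ, fun o => ?_, fun ρ => ?_⟩
    · exact (ψ.toMonoidHom.map_isConj (hφ o)).trans (hψ o)
    · rw [Equiv.Perm.mul_apply, hψ', hφ']; rfl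
  inv_mem' := by
    rintro g ⟨hg, φ, hφ, hφ'⟩
    refine ⟨?_, φ⁻¹, fun o => ?_, fun ρ => ?_⟩
    · conv_lhs => rw [← hg]
      rw [← image_comp, ← Equiv.Perm.coe_mul]; simp
    · simpa using (φ⁻¹.toMonoidHom.map_isConj (hφ o)).symm
    · rw [Equiv.Perm.inv_eq_iff_eq, hφ']
      congr 1
      ext1 x
      simp

/-- Ergodicity of `G` on `S` for the class of two-dimensional Hausdorff measure (on the surface
`V_t` this is the Lebesgue measure class). -/
def IsErgodicOn (G : Subgroup (Equiv.Perm (ℂ × ℂ × ℂ))) (S : Set (ℂ × ℂ × ℂ)) : Prop :=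
  ∀ A ⊆ S, MeasurableSet A → (∀ g ∈ G, g '' A = A) → μH[2] A = 0 ∨ μH[2] (S \ A) = 0

/-- A wandering domain: a nonempty relatively open subset `U` of `V_t` that each element of `G`
preserves or moves off itself, and on which the stabilizer of `U` acts properly. -/
def IsWanderingDomain (G : Subgroup (Equiv.Perm (ℂ × ℂ × ℂ))) (t : ℝ) (U : Set (ℂ × ℂ × ℂ)) :
    Prop :=
  U.Nonempty ∧ (∃ O, IsOpen O ∧ U = O ∩ level t) ∧
    (∀ g ∈ G, g '' U = U ∨ Disjoint (g '' U) U) ∧
    ∀ K ⊆ U, IsCompact K → {g | g ∈ G ∧ g '' U = U ∧ (g '' K ∩ K).Nonempty}.Finite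

/-- The domain `W_t = {(x,y,z) ∈ V_t : y² < t + 2}`. -/
def fricke (t : ℝ) : Set (ℂ × ℂ × ℂ) := {p | p ∈ level t ∧ p.2.1.re ^ 2 < t + 2}

end Pool.Agent.Lib.MP_3dc428_gt
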