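import Mathlib

/-!
Box counting in the plane: small neighbourhoods give a bound for the Hausdorff measure.
-/

namespace Pool.Agent.Lib.MP_3dc428_gt

open MeasureTheory Set Filter Topology
open scoped ENNReal Classical

/-- A square of the grid of mesh `d`. -/
def sqr (d : ℝ) (i : ℤ × ℤ) : Set (ℝ × ℝ) := {p | ⌊p.1 / d⌋ = i.1 ∧ ⌊p.2 / d⌋ = i.2}

lemma sqr_eq {d : ℝ} (hd : 0 < d) (i : ℤ × ℤ) :
    sqr d i = Ico (i.1 * d) ((i.1 + 1) * d) ×ˢ Ico (i.2 * d) ((i.2 + 1) * d) := by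
  ext p
  simp only [sqr, mem_ofPred_eq, Int.floor_eq_iff, le_div_iff₀ hd, div_lt_iff₀ hd, mem_prod, mem_Ico]

lemma sqr_dist {d : ℝ} (hd : 0 < d) {i : ℤ × ℤ} {p q : ℝ × ℝ} (hp : p ∈ sqr d i)
    (hq : q ∈ sqr d i) : dist p q ≤ d := by
  rw [sqr_eq hd] at hp hq
  obtain ⟨⟨p1, p2⟩, p3, p4⟩ := hp
  obtain ⟨⟨q1, q2⟩, q3, q4⟩ := hq
  rw [Prod.dist_eq, Real.dist_eq, Real.dist_eq, max_le_iff, abs_le, abs_le]
  refine ⟨⟨?_, ?_⟩, ?_, ?_⟩ <;> linarith

lemma box {S : Set (ℝ × ℝ)} {s : ℝ} (hs : 0 < s) {C : ℝ≥0∞} (d : ℕ → ℝ) (hd : ∀ n, 0 < d n)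
    (hd0 : Tendsto d atTop (𝓝 0)) (U : ℕ → Set (ℝ × ℝ))
    (hU : ∀ n, ∀ q ∈ S, ∀ p, dist p q ≤ d n → p ∈ U n)
    (h : ∀ n, ENNReal.ofReal (d n ^ (s - 2)) * volume (U n) ≤ C) : μH[s] S ≤ C := by
  set t : ℕ → ℤ × ℤ → Set (ℝ × ℝ) := fun n i =>
    if (sqr (d n) i ∩ S).Nonempty then sqr (d n) i else ∅ with ht
  have hsub : ∀ n i, t n i ⊆ sqr (d n) i := fun n i => by
    simp only [ht]
    split_ifs <;> simp
  have hdiam : ∀ n i, Metric.ediam (t n i) ≤ ENNReal.ofReal (d n) := fun n i =>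
    Metric.ediam_le_of_forall_dist_le fun p hp q hq => sqr_dist (hd n) (hsub n i hp) (hsub n i hq)
  have h1 := Measure.hausdorffMeasure_le_liminf_tsum s S (l := atTop)
    (fun n => ENNReal.ofReal (d n)) (by simpa using ENNReal.tendsto_ofReal hd0) t
    (Eventually.of_forall hdiam) (Eventually.of_forall fun n q hq =>
      mem_iUnion.2 ⟨(⌊q.1 / d n⌋, ⌊q.2 / d n⌋), by
        simp only [ht]
        rw [if_pos ⟨q, ⟨rfl, rfl⟩, hq⟩]
        exact ⟨rfl, rfl⟩⟩)
  refine h1.trans (liminf_le_of_frequently_le' (Frequently.of_forall fun n => le_trans ?_ (h n)))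
  have hm : ∀ i, MeasurableSet (t n i) := fun i => by
    simp only [ht]
    split_ifs
    · rw [sqr_eq (hd n)]
      exact measurableSet_Ico.prod measurableSet_Ico
    · exact MeasurableSet.empty
  have h2 : ∀ i, Metric.ediam (t n i) ^ s ≤ ENNReal.ofReal (d n ^ (s - 2)) * volume (t n i) := by
    intro i
    by_cases hi : (sqr (d n) i ∩ S).Nonempty
    · refine (ENNReal.rpow_le_rpow (hdiam n i) hs.le).trans (le_of_eq ?_)
      simp only [ht]
      rw [if_pos hi, sqr_eq (hd n), Measure.volume_eq_prod, Measure.prod_prod, Real.volume_Ico,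
        Real.volume_Ico, ENNReal.ofReal_rpow_of_pos (hd n), add_one_mul, add_one_mul,
        add_sub_cancel_left, add_sub_cancel_left, ← ENNReal.ofReal_mul (hd n).le,
        ← ENNReal.ofReal_mul (Real.rpow_nonneg (hd n).le _), Real.rpow_sub (hd n), Real.rpow_two]
      congr 1
      have := (hd n).ne'
      field_simp
    · simp [ht, hi, hs]
  refine (ENNReal.tsum_le_tsum h2).trans ?_
  rw [ENNReal.tsum_mul_left, ← measure_iUnion (fun i j hij => disjoint_left.2 fun p hp hp' =>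
    hij (Prod.ext ((hsub n i hp).1.symm.trans (hsub n j hp').1)
      ((hsub n i hp).2.symm.trans (hsub n j hp').2))) hm]
  refine mul_le_mul_right (measure_mono (iUnion_subset fun i p hp => ?_)) _
  simp only [ht] at hp
  split_ifs at hp with hi
  · obtain ⟨q, hq, hq'⟩ := hi
    exact hU n q hq' p (sqr_dist (hd n) hp hq)
  · exact absurd hp (notMem_empty p)

end Pool.Agent.Lib.MP_3dc428_gt
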