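import Pool.Agent.Lib.MP_3dc428_gt.DimStep

/-!
The set of shadowing points has small area.
-/

namespace Pool.Agent.Lib.MP_3dc428_gt

open MeasureTheory Set
open scoped ENNReal

variable {l : ℝ}

lemma cover_int (hl : 0 < l) {S F : Set (ℝ × ℝ)} (hS : MeasurableSet S) (hF : MeasurableSet F)
    {g : ℝ × ℝ → ℝ≥0∞} (hg : Measurable g) (hg0 : ∀ p, p ∉ S → g p = 0)
    (hc : ∀ p ∈ S, p ∈ F ∨ Prod.swap (QQ l p) ∈ S ∨ neg1 (QQ l p) ∈ S ∨
      Prod.swap (neg1 (QQ l p)) ∈ S) :
    ∫⁻ p, g p ∂(nu l) ≤ ∫⁻ q in S, (g (QQ l (Prod.swap q)) + g (QQ l (neg1 q))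
      + g (QQ l (neg1 (Prod.swap q)))) ∂(nu l) + ∫⁻ p in F, g p ∂(nu l) := by
  have hQ : Measurable (QQ l) := continuous_QQ.measurable
  have hN : Measurable neg1 := continuous_neg1.measurable
  set f1 : ℝ × ℝ → ℝ≥0∞ := S.indicator fun q => g (QQ l (Prod.swap q)) with hf1
  set f2 : ℝ × ℝ → ℝ≥0∞ := S.indicator fun q => g (QQ l (neg1 q)) with hf2
  set f3 : ℝ × ℝ → ℝ≥0∞ := S.indicator fun q => g (QQ l (neg1 (Prod.swap q))) with hf3
  have m1 : Measurable f1 := (hg.comp (hQ.comp measurable_swap)).indicator hS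
  have m2 : Measurable f2 := (hg.comp (hQ.comp hN)).indicator hS
  have m3 : Measurable f3 := (hg.comp (hQ.comp (hN.comp measurable_swap))).indicator hS
  have m3' : Measurable fun p => f3 (Prod.swap (neg1 p)) := m3.comp (measurable_swap.comp hN)
  have m2' : Measurable fun p => f2 (neg1 p) := m2.comp hN
  have hpt : ∀ p, g p ≤ f1 (Prod.swap (QQ l p)) + f2 (neg1 (QQ l p))
      + f3 (Prod.swap (neg1 (QQ l p))) + F.indicator g p := by
    intro p
    by_cases hp : p ∈ S
    · rcases hc p hp with h | h | h | h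
      · rw [indicator_of_mem h]
        exact le_add_left le_rfl
      · rw [hf1, indicator_of_mem h, Prod.swap_swap, QQ_QQ hl]
        exact le_add_right (le_add_right (le_add_right le_rfl))
      · rw [hf2, indicator_of_mem h, neg1_neg1, QQ_QQ hl]
        exact le_add_right (le_add_right (le_add_left le_rfl))
      · rw [hf3, indicator_of_mem h, Prod.swap_swap, neg1_neg1, QQ_QQ hl]
        exact le_add_right (le_add_left le_rfl)
    · rw [hg0 p hp]; exact zero_le
  refine (lintegral_mono hpt).trans (le_of_eq ?_)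
  rw [lintegral_add_right _ (hg.indicator hF), lintegral_indicator hF,
    lintegral_QQ hl (fun p => f1 (Prod.swap p) + f2 (neg1 p) + f3 (Prod.swap (neg1 p)))
      (((m1.comp measurable_swap).add m2').add m3'),
    lintegral_add_right _ m3', lintegral_add_right _ m2', lintegral_swap _ m1, lintegral_neg1 _ m2,
    lintegral_neg1 (fun p => f3 (Prod.swap p)) (m3.comp measurable_swap), lintegral_swap _ m3,
    ← lintegral_add_right _ m2, ← lintegral_add_right _ m3, ← lintegral_indicator hS]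
  congr 1
  refine lintegral_congr fun p => ?_
  by_cases hp : p ∈ S
  · simp [hf1, hf2, hf3, indicator_of_mem hp]
  · simp [hf1, hf2, hf3, indicator_of_notMem hp]

lemma strip (hl : 1 ≤ l) {e r : ℝ} (he0 : 0 ≤ e) (he : e < 1) (hr : 0 < r) :
    ∫⁻ p in {p : ℝ × ℝ | |(QQ l p).1| ≤ 2 * r ∧ r / 2 ≤ p.2}, ENNReal.ofReal (p.2 ^ (e - 2)) ∂(nu l)
      ≤ ENNReal.ofReal (8 / (1 - e) * r ^ e) := by
  have hA : MeasurableSet (Icc (-(2 * r)) (2 * r) ×ˢ Ici (r / 2)) :=
    measurableSet_Icc.prod measurableSet_Ici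
  have hm : Measurable fun p : ℝ × ℝ => ENNReal.ofReal (p.2 ^ (e - 2)) := by fun_prop
  have h1 := lintegral_QQ (by linarith : 0 < l) _ (hm.indicator hA)
  have h2 : {p : ℝ × ℝ | |(QQ l p).1| ≤ 2 * r ∧ r / 2 ≤ p.2}
      = QQ l ⁻¹' (Icc (-(2 * r)) (2 * r) ×ˢ Ici (r / 2)) := by
    ext p
    simp only [mem_ofPred_eq, abs_le, mem_preimage, mem_prod, mem_Icc, mem_Ici]
    rfl
  rw [h2, ← lintegral_indicator (continuous_QQ.measurable hA)]
  refine (le_of_eq (Eq.trans (lintegral_congr fun p => ?_) h1)).trans ?_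
  · by_cases hp : QQ l p ∈ Icc (-(2 * r)) (2 * r) ×ˢ Ici (r / 2)
    · rw [indicator_of_mem hp, indicator_of_mem (mem_preimage.2 hp)]
      rfl
    · rw [indicator_of_notMem hp, indicator_of_notMem (mt mem_preimage.1 hp)]
  refine (lintegral_mono' (nu_le_volume hl) le_rfl).trans ?_
  rw [lintegral_indicator hA, Measure.volume_eq_prod, ← Measure.prod_restrict,
    lintegral_prod _ hm.aemeasurable]
  simp only [lintegral_const, Measure.restrict_apply_univ, Real.volume_Icc]
  have hr2 : 0 < r / 2 := by positivity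
  rw [← setLIntegral_congr Ioi_ae_eq_Ici, ← ofReal_integral_eq_lintegral_ofReal
    (integrableOn_Ioi_rpow_of_lt (by linarith) hr2)
    ((ae_restrict_iff' measurableSet_Ioi).2 (Filter.Eventually.of_forall fun x hx =>
      Real.rpow_nonneg (hr2.trans hx).le _)), integral_Ioi_rpow_of_lt (by linarith) hr2,
    ← ENNReal.ofReal_mul' (by linarith)]
  refine ENNReal.ofReal_le_ofReal ?_
  have h3 : (r / 2) ^ (e - 2 + 1) = (r / 2) ^ e / (r / 2) := by
    rw [← Real.rpow_sub_one hr2.ne']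
    congr 1
    ring
  have h4 : 0 < 1 - e := by linarith
  have h5 : -(r / 2) ^ (e - 2 + 1) / (e - 2 + 1) * (2 * r - -(2 * r)) = 8 / (1 - e) * (r / 2) ^ e := by
    have : e - 2 + 1 ≠ 0 := by linarith
    rw [h3]
    field_simp
    ring
  rw [h5]
  exact mul_le_mul_of_nonneg_left (Real.rpow_le_rpow hr2.le (by linarith) he0) (by positivity)

lemma mass (hl : 2 < l) {S : Set (ℝ × ℝ)} (hS : MeasurableSet S) {e r θ : ℝ} (he : 0 < e)
    (hel : 2 * e * (l + 2) ≤ l - 2) (hr : 0 < r) (hθ : 0 < θ)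
    (hg : ∀ p ∈ S, r / 2 ≤ p.2 ∧ θ * p.2 ≤ p.1 - p.2 ∧ p.1 ≤ 2 ∧ (l + 2) / 2 ≤ YY l p.1 p.2 ∧
      YY l p.1 p.2 ≤ l + 2)
    (hc : ∀ p ∈ S, |(QQ l p).1| ≤ 2 * r ∨ Prod.swap (QQ l p) ∈ S ∨ neg1 (QQ l p) ∈ S ∨
      Prod.swap (neg1 (QQ l p)) ∈ S) :
    ENNReal.ofReal (e / (4 * (2 * l + 7))) * volume S
      ≤ ENNReal.ofReal ((l + 6) / θ * (8 / (1 - e) * r ^ e)) := by
  have hl0 : 0 < l := by linarith
  have he2 : 2 * e < 1 := by nlinarith
  have hb : ∀ p ∈ S, 0 < p.2 := fun p hp => by linarith [(hg p hp).1]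
  have hab : ∀ p ∈ S, p.2 < p.1 := fun p hp => by
    linarith [(hg p hp).2.1, mul_pos hθ (hb p hp)]
  obtain ⟨T, hT⟩ : ∃ T, T = 16 / (θ * r ^ 2) := ⟨_, rfl⟩
  have hT0 : 0 ≤ T := by rw [hT]; positivity
  have hSt : S ∩ tri 2 = S := inter_eq_left.2 fun p hp => ⟨hb p hp, hab p hp, (hg p hp).2.2.1⟩
  have hgm := measurable_gg hS 2 e T
  set F := {p : ℝ × ℝ | |(QQ l p).1| ≤ 2 * r ∧ r / 2 ≤ p.2} with hF
  have hFm : MeasurableSet F := by
    exact (measurableSet_le (continuous_QQ (l := l)).fst.abs.measurable measurable_const).inter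
      (measurableSet_le measurable_const measurable_snd)
  have h0 : ∀ p, p ∉ S → gg S 2 e T p = 0 := fun p hp => indicator_of_notMem (fun h => hp h.1) _
  have h1 := cover_int hl0 hS hFm hgm h0 fun p hp => (hc p hp).imp_left fun h => ⟨h, (hg p hp).1⟩
  have hgS : ∫⁻ p, gg S 2 e T p ∂(nu l) = ∫⁻ p in S, gg S 2 e T p ∂(nu l) := by
    rw [← lintegral_indicator hS]
    refine lintegral_congr fun p => ?_
    by_cases hp : p ∈ S
    · rw [indicator_of_mem hp]
    · rw [indicator_of_notMem hp, h0 p hp]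
  have hfin : ∫⁻ p in S, gg S 2 e T p ∂(nu l) < ∞ := by
    have : ∫⁻ p in S, gg S 2 e T p ∂(nu l) ≤ ∫⁻ p in S, ENNReal.ofReal T * EE e p ∂(nu l) := by
      refine setLIntegral_mono' hS fun p hp => (gg_le _ _ _ _).trans ?_
      unfold EE
      rw [← ENNReal.ofReal_mul hT0]
      refine ENNReal.ofReal_le_ofReal ((hh_le_right ((hb p hp).trans (hab p hp))).trans
        (le_of_eq ?_))
      ring
    refine lt_of_le_of_lt this ?_
    rw [lintegral_const_mul _ (measurable_EE e)]
    refine ENNReal.mul_lt_top ENNReal.ofReal_lt_top (lt_of_le_of_lt ?_ (lintegral_EE_lt_top he 2))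
    exact lintegral_mono' (Measure.restrict_mono (hSt ▸ inter_subset_right)
      (nu_le_volume (by linarith))) le_rfl
  have hB : ∫⁻ q in S, (gg S 2 e T (QQ l (Prod.swap q)) + gg S 2 e T (QQ l (neg1 q))
      + gg S 2 e T (QQ l (neg1 (Prod.swap q))) + ENNReal.ofReal (e / 4)) ∂(nu l)
      ≤ ∫⁻ q in S, gg S 2 e T q ∂(nu l) := by
    refine setLIntegral_mono' hS fun q hq => ?_
    obtain ⟨g1, g2, g3, g4, -⟩ := hg q hq
    have hb := hb q hq
    have hab := hab q hq
    obtain ⟨a, b⟩ := q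
    simp only at g1 g2 g3 g4 hb hab
    have ha : 0 < a := hb.trans hab
    have hd := YY_neg (l := l) a b
    have e1 : QQ l (Prod.swap (a, b)) = (YY l a b * a - b, a) := by simp [QQ, YY_swap a b]
    have e2 : QQ l (neg1 (a, b)) = (a + YY l (-a) b * b, b) := by simp [QQ, neg1]; ring
    have e3 : QQ l (neg1 (Prod.swap (a, b))) = (b + YY l (-a) b * a, a) := by
      have : YY l (-b) a = YY l (-a) b := by rw [YY_neg, YY_neg, YY_swap]; ring
      simp [QQ, neg1, this]; ring
    rw [e1, e2, e3]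
    generalize YY l (-a) b = d at *
    generalize YY l a b = c at *
    have hcd : c ≤ d := by linarith [mul_pos ha hb]
    have hc2 : 2 < c := by linarith
    have hd2 : 2 < d := by linarith
    have hc' : 2 * e * c ≤ c - 2 := by nlinarith
    have hd' : 2 * e * d ≤ d - 2 := by nlinarith
    have n1 : 0 ≤ hh e T (c * a - b) a := hh_nonneg hT0 ha (by nlinarith)
    have n2 : 0 ≤ hh e T (a + d * b) b := hh_nonneg hT0 hb (by nlinarith)
    have n3 : 0 ≤ hh e T (b + d * a) a := hh_nonneg hT0 ha (by nlinarith)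
    have n4 : 1 / 4 ≤ a ^ e / a ^ 2 := by
      rw [← Real.rpow_two, ← Real.rpow_sub ha]
      refine le_trans ?_ (Real.rpow_le_rpow_of_nonpos ha g3 (by linarith))
      refine le_trans (le_of_eq ?_) (Real.rpow_le_rpow_of_exponent_le one_le_two
        (by linarith : -2 ≤ e - 2))
      norm_num
    have n5 : 1 / (b * (a - b)) ≤ T / a ^ 2 := by
      have k1 : θ * (r / 2) ^ 2 ≤ b * (a - b) := by
        have := mul_le_mul_of_nonneg_left (pow_le_pow_left₀ (by positivity) g1 2) hθ.le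
        nlinarith [mul_le_mul_of_nonneg_left g2 hb.le]
      calc _ ≤ 1 / (θ * (r / 2) ^ 2) := one_div_le_one_div_of_le (by positivity) k1
        _ = T / 2 ^ 2 := by rw [hT]; field_simp; norm_num
        _ ≤ _ := div_le_div_of_nonneg_left hT0 (by positivity) (pow_le_pow_left₀ ha.le g3 2)
    have n6 := ineq_good he hb hab hc' hc2 hd' hd2 n5
    rw [show gg S 2 e T (a, b) = ENNReal.ofReal (hh e T a b) from
      indicator_of_mem (hSt.symm ▸ hq) _]
    refine le_trans ?_ (ENNReal.ofReal_le_ofReal n6)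
    rw [ENNReal.ofReal_add (by positivity) (by positivity), ENNReal.ofReal_add (by positivity) n3,
      ENNReal.ofReal_add n1 n2]
    gcongr
    · exact gg_le _ _ _ _
    · exact gg_le _ _ _ _
    · exact gg_le _ _ _ _
    · linarith [mul_le_mul_of_nonneg_left n4 he.le]
  rw [lintegral_add_right _ measurable_const, setLIntegral_const] at hB
  rw [hgS] at h1
  have h2 : ENNReal.ofReal (e / 4) * nu l S ≤ ∫⁻ p in F, gg S 2 e T p ∂(nu l) := by
    have h3 := (add_le_add_left hB (∫⁻ p in F, gg S 2 e T p ∂(nu l)))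
    have h4 := add_le_add_left h1 (ENNReal.ofReal (e / 4) * nu l S)
    rw [add_right_comm] at h4
    exact (ENNReal.add_le_add_iff_left hfin.ne).1 (h4.trans h3)
  have h3 : ENNReal.ofReal (1 / (2 * l + 7)) * volume S ≤ nu l S := by
    rw [nu, withDensity_apply _ hS, ← setLIntegral_const]
    refine setLIntegral_mono' hS fun p hp => ENNReal.ofReal_le_ofReal
      (one_div_le_one_div_of_le (DD_pos hl0 _ _) (Real.sqrt_le_iff.2 ⟨by linarith, ?_⟩))
    have k1 := pow_le_pow_left₀ ((hb p hp).trans (hab p hp)).le (hg p hp).2.2.1 2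
    have k2 := pow_le_pow_left₀ (hb p hp).le ((hab p hp).le.trans (hg p hp).2.2.1) 2
    nlinarith [mul_le_mul k1 k2 (sq_nonneg _) (by norm_num)]
  have h4 : ∫⁻ p in F, gg S 2 e T p ∂(nu l) ≤ ∫⁻ p in F, ENNReal.ofReal ((l + 6) / θ)
      * ENNReal.ofReal (p.2 ^ (e - 2)) ∂(nu l) := by
    refine setLIntegral_mono' hFm fun p hp => ?_
    by_cases hpS : p ∈ S
    swap
    · rw [h0 p hpS]; exact zero_le
    obtain ⟨g1, g2, -, -, g5⟩ := hg p hpS
    have hb := hb p hpS
    have ha := hb.trans (hab p hpS)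
    rw [← ENNReal.ofReal_mul (by positivity)]
    refine (gg_le _ _ _ _).trans (ENNReal.ofReal_le_ofReal ((hh_le_left ha).trans ?_))
    have k1 : p.1 ≤ (l + 6) * p.2 := by
      have := (abs_le.1 hp.1).1
      simp only [QQ] at this
      linarith [mul_le_mul_of_nonneg_right g5 hb.le]
    have k2 : p.1 ^ e ≤ (l + 6) * p.2 ^ e := by
      refine (Real.rpow_le_rpow ha.le k1 he.le).trans ?_
      rw [Real.mul_rpow (by linarith) hb.le]
      exact mul_le_mul_of_nonneg_right (Real.rpow_le_self_of_one_le (by linarith) (by linarith))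
        (by positivity)
    have k3 : 1 / (p.2 * (p.1 - p.2)) ≤ 1 / (p.2 * (θ * p.2)) :=
      one_div_le_one_div_of_le (by positivity) (mul_le_mul_of_nonneg_left g2 hb.le)
    refine (mul_le_mul k2 k3 (by have := hab p hpS; positivity) (by positivity)).trans (le_of_eq ?_)
    rw [Real.rpow_sub hb, Real.rpow_two]
    field_simp
  rw [lintegral_const_mul _ (by fun_prop)] at h4
  calc _ = ENNReal.ofReal (e / 4) * (ENNReal.ofReal (1 / (2 * l + 7)) * volume S) := by
        rw [← mul_assoc, ← ENNReal.ofReal_mul (by positivity)]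
        congr 2
        field_simp
    _ ≤ _ := mul_le_mul_right h3 _
    _ ≤ _ := h2.trans h4
    _ ≤ _ := mul_le_mul_right (strip (by linarith) he.le (by linarith) hr) _
    _ = _ := (ENNReal.ofReal_mul (by positivity)).symm

end Pool.Agent.Lib.MP_3dc428_gt
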