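import Pool.Agent.Lib.MP_3dc428_gt.Main
import Pool.Agent.Lib.MP_3dc428_gt.DimMass
import Pool.Agent.Lib.MP_3dc428_gt.DimBox

/-!
The exceptional set has Hausdorff dimension less than two.
-/

namespace Pool.Agent.Lib.MP_3dc428_gt

open MeasureTheory Set Filter Topology
open scoped ENNReal NNReal

variable {l : ℝ} {M : Set (ℝ × ℝ)}

lemma dim_piece (hl : 2 < l) (hM : Inv l M) : ∃ s : ℝ≥0, 1 ≤ s ∧ s < 2 ∧
    ∀ ρ : ℝ, 0 < ρ → dimH (M ∩ tri 1 ∩ {q | ρ ≤ q.2}) ≤ s := by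
  obtain ⟨K₀, hK₀⟩ := pow_unbounded_of_one_lt (15 + 2 * l) (by linarith : 1 < l - 1)
  obtain ⟨K, hK3, hK⟩ : ∃ K : ℕ, 3 ≤ K ∧ 15 + 2 * l ≤ (l - 1) ^ K :=
    ⟨K₀ + 3, by omega, hK₀.le.trans (pow_le_pow_right₀ (by linarith) (by omega))⟩
  obtain ⟨e, he, hel⟩ : ∃ e : ℝ, 0 < e ∧ 2 * e * (l + 2) ≤ l - 2 := by
    refine ⟨(l - 2) / (2 * (l + 2)), div_pos (by linarith) (by linarith), le_of_eq ?_⟩
    have : l + 2 ≠ 0 := by linarith
    field_simp
  have he2 : 2 * e < 1 := by nlinarith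
  obtain ⟨θ, hθ, hθ1, hθ2⟩ : ∃ θ : ℝ, 0 < θ ∧ 4 * θ ≤ l - 2 ∧ θ * (l + 4) ≤ 1 :=
    ⟨min ((l - 2) / 4) (1 / (l + 4)), lt_min (by linarith) (by positivity),
      by linarith [min_le_left ((l - 2) / 4) (1 / (l + 4))],
      (le_div_iff₀ (by linarith)).1 (min_le_right _ _)⟩
  have hθ3 : θ ≤ 1 := by nlinarith
  have hK2 : (1 : ℝ) ≤ (K + 2 : ℕ) := by exact_mod_cast (by omega : 1 ≤ K + 2)
  have hη : 0 < e / (K + 2 : ℕ) := by positivity
  have hη1 : e / (K + 2 : ℕ) ≤ 1 := (div_le_one (by linarith)).2 (by linarith)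
  obtain ⟨s, hs⟩ : ∃ s : ℝ≥0, (s : ℝ) = 2 - e / (K + 2 : ℕ) :=
    ⟨NNReal.mk (2 - e / (K + 2 : ℕ)) (by linarith), rfl⟩
  refine ⟨s, by rw [← NNReal.coe_le_coe, hs, NNReal.coe_one]; linarith,
    by rw [← NNReal.coe_lt_coe, hs, NNReal.coe_two]; linarith, fun ρ hρ => ?_⟩
  obtain ⟨r, hr0, hr1, hrρ, hr⟩ : ∃ r : ℕ → ℝ, (∀ n, 0 < r n) ∧ (∀ n, r n ≤ 1) ∧ (∀ n, r n ≤ ρ) ∧
      Tendsto r atTop (𝓝 0) := by
    have h0 : 0 < min 1 ρ := lt_min one_pos hρ
    have h1 : ∀ n : ℕ, min 1 ρ * (1 / 2) ^ n ≤ min 1 ρ := fun n =>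
      mul_le_of_le_one_right h0.le (pow_le_one₀ (by norm_num) (by norm_num))
    refine ⟨fun n => min 1 ρ * (1 / 2) ^ n, fun n => by positivity,
      fun n => (h1 n).trans (min_le_left _ _), fun n => (h1 n).trans (min_le_right _ _), ?_⟩
    simpa using (tendsto_pow_atTop_nhds_zero_of_lt_one (by norm_num : (0 : ℝ) ≤ 1 / 2)
      (by norm_num)).const_mul (min 1 ρ)
  obtain ⟨c, hc⟩ : ∃ c, c = e / (4 * (2 * l + 7)) := ⟨_, rfl⟩
  have hc0 : 0 < c := by rw [hc]; positivity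
  have h1e : 0 < 1 - e := by linarith
  refine dimH_le_of_hausdorffMeasure_ne_top (ne_top_of_le_ne_top ENNReal.ofReal_ne_top
    (box (C := ENNReal.ofReal ((θ / 12) ^ (-(e / (K + 2 : ℕ))) * ((l + 6) / θ * (8 / (1 - e)) / c)))
      (by linarith) (fun n => θ / 12 * r n ^ (K + 2))
      (fun n => by have := hr0 n; positivity) (by simpa using (hr.pow (K + 2)).const_mul (θ / 12))
      (fun n => Sh l M K (r n) θ) (fun n q hq p hp => ?_) fun n => ?_))
  · have h0 := hr0 n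
    refine near_Sh hl hM h0 (by linarith) (by positivity) ?_ hq.1 ((hrρ n).trans hq.2) hp
    have := pow_le_of_le_one h0.le (hr1 n) (by omega : K + 2 ≠ 0)
    nlinarith [pow_pos h0 (K + 2)]
  · have h0 := hr0 n
    have h1 := mass hl (isOpen_Sh (l := l) (M := M) K (r n) θ).measurableSet he hel h0 hθ
      (fun p hp => Sh_good hl hM h0 hθ hθ1 hθ2 hp) fun p hp => Sh_cover hl hM hK3 hK h0 hθ hθ2 hp
    rw [← hc] at h1
    have h2 : volume (Sh l M K (r n) θ)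
        ≤ ENNReal.ofReal ((l + 6) / θ * (8 / (1 - e) * r n ^ e) / c) := by
      rw [ENNReal.ofReal_div_of_pos hc0, ENNReal.le_div_iff_mul_le (Or.inl (by simpa using hc0))
        (Or.inl ENNReal.ofReal_ne_top), mul_comm]
      exact h1
    refine (mul_le_mul_right h2 _).trans (le_of_eq ?_)
    rw [← ENNReal.ofReal_mul (by positivity)]
    congr 1
    rw [hs, show 2 - e / (K + 2 : ℕ) - 2 = -(e / (K + 2 : ℕ)) by ring,
      Real.mul_rpow (by positivity) (by positivity), ← Real.rpow_natCast, ← Real.rpow_mul h0.le,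
      show ((K + 2 : ℕ) : ℝ) * -(e / (K + 2 : ℕ)) = -e by field_simp, Real.rpow_neg h0.le]
    have := (Real.rpow_pos_of_pos h0 e).ne'
    field_simp

lemma contDiff_QQ (hl : 0 < l) : ContDiff ℝ 1 (QQ l) := by
  have h1 : ContDiff ℝ 1 fun q : ℝ × ℝ => DD l q.1 q.2 := by
    unfold DD
    exact ContDiff.sqrt (by fun_prop) fun q => (DD_arg_pos hl _ _).ne'
  unfold QQ YY
  fun_prop

/-- The sets obtained from `A` by at most `n` rounds of the symmetries. -/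
def sat (l : ℝ) (A : Set (ℝ × ℝ)) : ℕ → Set (ℝ × ℝ)
  | 0 => A
  | n + 1 => QQ l '' sat l A n ∪ Prod.swap '' sat l A n ∪ neg1 '' sat l A n

lemma dim_sat (hl : 0 < l) (A : Set (ℝ × ℝ)) (n : ℕ) : dimH (sat l A n) ≤ dimH A := by
  induction n with
  | zero => exact le_rfl
  | succ n ih =>
    have h : ∀ f : ℝ × ℝ → ℝ × ℝ, ContDiff ℝ 1 f → dimH (f '' sat l A n) ≤ dimH A := fun f hf =>
      (hf.contDiffOn.dimH_image_le convex_univ (subset_univ _)).trans ih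
    rw [sat, dimH_union, dimH_union]
    exact max_le (max_le (h _ (contDiff_QQ hl)) (h _ (contDiff_snd.prodMk contDiff_fst)))
      (h _ (by unfold neg1; fun_prop))

theorem dim_lt (hl : 2 < l) (hM : Inv l M) : dimH M < 2 := by
  have hl0 : 0 < l := by linarith
  obtain ⟨s, hs1, hs2, hs⟩ := dim_piece hl hM
  set A : Set (ℝ × ℝ) := M ∩ tri 1 ∪ range fun y : ℝ => (0, y) with hA
  have hdA : dimH A ≤ s := by
    rw [hA, dimH_union]
    refine max_le ?_ ((ContDiff.dimH_range_le (by fun_prop)).trans (by simpa using hs1))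
    have : M ∩ tri 1 ⊆ ⋃ n : ℕ, M ∩ tri 1 ∩ {q | 1 / ((n : ℝ) + 1) ≤ q.2} := fun q hq => by
      obtain ⟨n, hn⟩ := exists_nat_one_div_lt hq.2.1
      exact mem_iUnion.2 ⟨n, hq, hn.le⟩
    refine (dimH_mono this).trans ?_
    rw [dimH_iUnion]
    exact iSup_le fun n => hs _ (by positivity)
  set Z := ⋃ n, sat l A n with hZ
  have zQ : ∀ p, QQ l p ∈ Z → p ∈ Z := fun p hp => by
    obtain ⟨n, hn⟩ := mem_iUnion.1 hp
    exact mem_iUnion.2 ⟨n + 1, Or.inl (Or.inl ⟨_, hn, QQ_QQ hl0 p⟩)⟩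
  have zS : ∀ p, Prod.swap p ∈ Z → p ∈ Z := fun p hp => by
    obtain ⟨n, hn⟩ := mem_iUnion.1 hp
    exact mem_iUnion.2 ⟨n + 1, Or.inl (Or.inr ⟨_, hn, Prod.swap_swap p⟩)⟩
  have zN : ∀ p, neg1 p ∈ Z → p ∈ Z := fun p hp => by
    obtain ⟨n, hn⟩ := mem_iUnion.1 hp
    exact mem_iUnion.2 ⟨n + 1, Or.inr ⟨_, hn, neg1_neg1 p⟩⟩
  have z0 : ∀ p : ℝ × ℝ, p.1 = 0 → p ∈ Z := fun p hp =>
    mem_iUnion.2 ⟨0, Or.inr ⟨p.2, Prod.ext hp.symm rfl⟩⟩
  have h1 : ∀ n : ℕ, ∀ p ∈ M ∩ tri ((l - 1) ^ n), p ∈ Z := by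
    intro n
    induction n with
    | zero => exact fun p hp => mem_iUnion.2 ⟨0, Or.inl (by simpa using hp)⟩
    | succ n ih =>
      have h2 : ∀ m : ℕ, ∀ p ∈ M ∩ tri ((l - 1) ^ (n + 1)), p.1 ≤ m * p.2 → p ∈ Z := by
        intro m
        induction m with
        | zero => exact fun p hp h => absurd (hp.2.1.trans hp.2.2.1) (by simpa using h)
        | succ m ihm =>
          intro p hp h
          obtain ⟨c1, c2, -⟩ := bounds hl hM hp
          have h3 : p.2 ≤ (l - 1) ^ n := by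
            have := c2.trans hp.2.2.2
            rw [pow_succ'] at this
            exact le_of_mul_le_mul_left this (by linarith)
          refine zQ p ?_
          rcases cover hl hM _ hp with h4 | h4 | h4 | h4
          · exact zS _ (ih _ ⟨h4.1, h4.2.1, h4.2.2.1, h3⟩)
          · refine zN _ (ihm _ h4 ?_)
            have := mul_le_mul_of_nonneg_right c1 hp.2.1.le
            have := mul_le_mul_of_nonneg_right hl.le hp.2.1.le
            simp only [neg1, QQ]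
            push_cast at h
            linarith [hp.2.1]
          · exact zN _ (zS _ (ih _ ⟨h4.1, h4.2.1, h4.2.2.1, h3⟩))
          · exact z0 _ h4
      intro p hp
      obtain ⟨m, hm⟩ := exists_nat_ge (p.1 / p.2)
      exact h2 m p hp ((div_le_iff₀ hp.2.1).1 hm)
  have h2 : ∀ p ∈ M, 0 < p.2 → p.2 < p.1 → p ∈ Z := fun p hp p1 p2 => by
    obtain ⟨n, hn⟩ := pow_unbounded_of_one_lt p.1 (by linarith : 1 < l - 1)
    exact h1 n p ⟨hp, p1, p2, hn.le⟩
  have h3 : ∀ p ∈ M, 0 < p.1 → 0 < p.2 → p ∈ Z := fun p hp p1 p2 => by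
    rcases lt_trichotomy p.1 p.2 with h | h | h
    · exact zS _ (h2 _ (hM.hswap _ hp) p1 h)
    · exfalso
      have h3 := hM.hY _ hp
      have h4 := YY_eq hl0 p.1 p.2
      rw [h] at h3 h4
      nlinarith [mul_pos p2 p2]
    · exact h2 p hp p2 h
  have h4 : ∀ p ∈ M, 0 < p.2 → p ∈ Z := fun p hp p2 => by
    rcases lt_trichotomy p.1 0 with h | h | h
    · exact zN _ (h3 _ (hM.hneg _ hp) (by simpa [neg1] using h) p2)
    · exact z0 p h
    · exact h3 p hp h p2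
  have h5 : M ⊆ Z := fun p hp => by
    rcases lt_trichotomy p.2 0 with h | h | h
    · exact zS _ (zN _ (zS _ (h4 _ (hM.hswap _ (hM.hneg _ (hM.hswap _ hp)))
        (by simpa [neg1] using h))))
    · exact zS _ (z0 _ h)
    · exact h4 p hp h
  refine lt_of_le_of_lt ((dimH_mono h5).trans ?_) (show (s : ℝ≥0∞) < 2 by exact_mod_cast hs2)
  rw [hZ, dimH_iUnion]
  exact iSup_le fun n => (dim_sat hl0 A n).trans hdA

theorem dim_complement {t : ℝ} (hl : 2 < l) (hlt : l ^ 2 = t + 2) (o : Prop) :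
    dimH (level t \ ⋃ g ∈ modGroup o, g '' fricke t) < 2 := by
  have hl0 : 0 < l := by linarith
  have h : ∀ σ : ℝ, dimH ((emb ∘ gr l σ) '' MM l) < 2 := fun σ => by
    have h1 : ContDiff ℝ 1 fun q : ℝ × ℝ => DD l (σ * q.1) q.2 := by
      unfold DD
      exact ContDiff.sqrt (by fun_prop) fun q => (DD_arg_pos hl0 _ _).ne'
    have h2 : ContDiff ℝ 1 (gr l σ) := by
      unfold gr YY
      fun_prop
    have h3 : ContDiff ℝ 1 emb := by
      have h4 : ContDiff ℝ 1 (fun x : ℝ => (x : ℂ)) := Complex.ofRealCLM.contDiff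
      unfold emb
      fun_prop
    exact ((h3.comp h2).contDiffOn.dimH_image_le convex_univ (subset_univ _)).trans_lt
      (dim_lt hl (inv_MM hl))
  refine lt_of_le_of_lt (dimH_mono (t := (emb ∘ gr l 1) '' MM l ∪ (emb ∘ gr l (-1)) '' MM l) ?_) ?_
  · rintro p ⟨hp, hp'⟩
    obtain ⟨r, hr, rfl⟩ := exists_emb hlt hp
    rw [omega_iff hlt hr, not_not] at hp'
    rcases NR_subset hl ⟨hr, hp'⟩ with ⟨q, hq, rfl⟩ | ⟨q, hq, rfl⟩
    · left; exact ⟨q, hq, rfl⟩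
    · right; exact ⟨q, hq, rfl⟩
  · rw [dimH_union]
    exact max_lt (h 1) (h (-1))

end Pool.Agent.Lib.MP_3dc428_gt
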