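import Pool.Agent.Lib.MP_3dc428_gt.Core

/-!
Points close to the exceptional set follow its descent.
-/

namespace Pool.Agent.Lib.MP_3dc428_gt

open Set

/-- A weighted distance from `q` to `p`. -/
noncomputable def NN (l : ℝ) (q p : ℝ × ℝ) : ℝ :=
  q.2 * (|p.1 - q.1| + |YY l p.1 p.2 - YY l q.1 q.2|) + 4 * q.1 * |p.2 - q.2|

variable {l : ℝ} {M : Set (ℝ × ℝ)}

lemma bounds (hl : 2 < l) (hM : Inv l M) {R : ℝ} {q : ℝ × ℝ} (hq : q ∈ M ∩ tri R) :
    l ≤ YY l q.1 q.2 ∧ (l - 1) * q.2 ≤ q.1 ∧ (R ≤ 1 → YY l q.1 q.2 ≤ l + 1) := by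
  obtain ⟨hqM, hb, hab, ha⟩ := hq
  have h1 := hM.hY _ hqM
  have h2 := YY_eq (by linarith : 0 < l) q.1 q.2
  have h3 : 0 < q.1 * q.2 := mul_pos (hb.trans hab) hb
  refine ⟨h1, ?_, fun hR => ?_⟩
  · by_contra h
    nlinarith [mul_le_mul_of_nonneg_left h1 h3.le, mul_pos (sub_pos.2 (not_le.1 h)) (hb.trans hab),
      mul_pos hb (sub_pos.2 hab)]
  · by_contra h
    nlinarith [mul_pos h3 (by linarith : 0 < YY l q.1 q.2)]

lemma step (hl : 2 < l) (hM : Inv l M) {K : ℕ} (hK3 : 3 ≤ K) (hK : 15 + 2 * l ≤ (l - 1) ^ K)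
    {q p : ℝ × ℝ} (hq : q ∈ M ∩ tri 1) (hβ : |p.2 - q.2| ≤ q.2) :
    (QQ l q).1 = 0 ∨ ∃ S : ℝ × ℝ → ℝ × ℝ, (S = Prod.swap ∨ S = neg1 ∨ S = Prod.swap ∘ neg1) ∧
      S (QQ l q) ∈ M ∩ tri 1 ∧ ((S (QQ l q)).2 = q.2 ∨ (S (QQ l q)).2 = |(QQ l q).1|) ∧
      NN l (S (QQ l q)) (S (QQ l p)) * (S (QQ l q)).1 ^ K ≤ NN l q p * q.1 ^ K := by
  have hl0 : 0 < l := by linarith
  obtain ⟨c1, c2, c3⟩ := bounds hl hM hq
  replace c3 := c3 le_rfl
  have hcov := cover hl hM 1 hq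
  obtain ⟨a, b⟩ := q
  obtain ⟨a', b'⟩ := p
  obtain ⟨-, hb, hab, ha⟩ := hq
  have e1 := YY_vieta hl0 a b
  have e2 := YY_vieta hl0 a' b'
  simp only [QQ, NN] at *
  generalize hc : YY l a b = c at *
  generalize hc' : YY l a' b' = c' at *
  have hX := abs_nonneg (a' - a)
  have hY := abs_nonneg (b' - b)
  have hZ := abs_nonneg (c' - c)
  have hb' : |b'| ≤ 2 * b := by
    rw [abs_le] at hβ ⊢
    constructor <;> linarith [hβ.1, hβ.2]
  have hW : |c' * b' - a' - (c * b - a)| ≤ |a' - a| + c * |b' - b| + 2 * b * |c' - c| := by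
    rw [show c' * b' - a' - (c * b - a) = -(a' - a) + c * (b' - b) + b' * (c' - c) by ring]
    refine (abs_add_three _ _ _).trans ?_
    rw [abs_neg, abs_mul, abs_mul, abs_of_nonneg (by linarith : 0 ≤ c)]
    linarith [mul_le_mul_of_nonneg_right hb' hZ]
  have hV : |c' + (c' * b' - a') * b' - (c + (c * b - a) * b)| ≤ |c' - c|
      + |c * b - a| * |b' - b| + 2 * b * |c' * b' - a' - (c * b - a)| := by
    rw [show c' + (c' * b' - a') * b' - (c + (c * b - a) * b) = (c' - c) + (c * b - a) * (b' - b)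
      + b' * (c' * b' - a' - (c * b - a)) by ring]
    refine (abs_add_three _ _ _).trans ?_
    rw [abs_mul, abs_mul]
    linarith [mul_le_mul_of_nonneg_right hb' (abs_nonneg (c' * b' - a' - (c * b - a)))]
  have hN0 : 0 ≤ b * (|a' - a| + |c' - c|) + 4 * a * |b' - b| := by
    have := hb.trans hab
    positivity
  have fin : ∀ {N' : ℝ}, N' ≤ (15 + 2 * l) * (b * (|a' - a| + |c' - c|) + 4 * a * |b' - b|) →
      N' * b ^ K ≤ (b * (|a' - a| + |c' - c|) + 4 * a * |b' - b|) * a ^ K := fun h => by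
    have h1 := pow_le_pow_left₀ (mul_pos (by linarith) hb).le c2 K
    rw [mul_pow] at h1
    have h2 := mul_le_mul_of_nonneg_right hK (pow_pos hb K).le
    refine (mul_le_mul_of_nonneg_right h (pow_pos hb K).le).trans ?_
    rw [mul_comm (15 + 2 * l), mul_assoc]
    exact mul_le_mul_of_nonneg_left (h2.trans h1) hN0
  have k1 := mul_nonneg hb.le hX
  have k2 := mul_nonneg hb.le hY
  have k3 := mul_nonneg hb.le hZ
  have k4 := mul_le_mul_of_nonneg_right hab.le hY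
  have k5 := mul_le_mul_of_nonneg_left hW hb.le
  have k6 : b * (b * |c' - c|) ≤ b * |c' - c| := mul_le_of_le_one_left k3 (by linarith)
  have k7 : c * (b * |b' - b|) ≤ (l + 1) * (a * |b' - b|) :=
    mul_le_mul c3 k4 k2 (by linarith)
  have k8 := mul_nonneg hl0.le k1
  have k9 := mul_nonneg hl0.le k3
  have k10 := mul_nonneg hl0.le (k2.trans k4)
  rcases hcov with h | h | h | h
  · refine Or.inr ⟨_, Or.inl rfl, h, Or.inr (abs_of_pos h.2.1).symm, ?_⟩
    obtain ⟨-, p1, p2, -⟩ := h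
    simp only [Prod.swap_prod_mk] at p1 p2 ⊢
    rw [YY_swap _ b, YY_swap _ b', e1, e2]
    refine fin ?_
    have := mul_le_mul_of_nonneg_right p2.le (add_nonneg hY hZ)
    linarith
  · refine Or.inr ⟨_, Or.inr (Or.inl rfl), h, Or.inl rfl, ?_⟩
    obtain ⟨-, -, p2, -⟩ := h
    simp only [neg1] at p2 ⊢
    rw [YY_neg, YY_neg, e1, e2, neg_sub_neg, abs_sub_comm (c * b - a)]
    rw [abs_of_neg (by linarith : c * b - a < 0)] at hV
    have hcb : 2 * b ≤ c * b := mul_le_mul_of_nonneg_right (by linarith) hb.le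
    have h1 := one_add_mul_le_pow (a := c * b / -(c * b - a))
      (le_trans (by norm_num) (div_nonneg (by linarith) (by linarith))) K
    have h0 : 0 < -(c * b - a) := by linarith
    have h2 : a = (1 + c * b / -(c * b - a)) * -(c * b - a) := by
      rw [add_mul, div_mul_cancel₀ _ h0.ne']; ring
    have h3 : 2 * b ≤ c * b / -(c * b - a) := by
      rw [le_div_iff₀ h0]
      nlinarith
    have h4 : (3 : ℝ) ≤ K := by exact_mod_cast hK3
    have h5 : (1 + 6 * b) * (-(c * b - a)) ^ K ≤ a ^ K := by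
      conv_rhs => rw [h2, mul_pow]
      refine mul_le_mul_of_nonneg_right (le_trans ?_ h1) (pow_pos h0 K).le
      nlinarith
    refine le_trans (mul_le_mul_of_nonneg_right (?_ : _ ≤
      (b * (|a' - a| + |c' - c|) + 4 * a * |b' - b|) * (1 + 6 * b)) (pow_pos h0 K).le) ?_
    · generalize |c' + (c' * b' - a') * b' - (c + (c * b - a) * b)| = V at *
      generalize |c' * b' - a' - (c * b - a)| = W at *
      generalize |a' - a| = X at *
      generalize |b' - b| = Y at *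
      generalize |c' - c| = Z at *
      have m1 := mul_le_mul_of_nonneg_left hV hb.le
      have m2 := mul_le_mul_of_nonneg_left k5 hb.le
      have m3 := mul_le_mul_of_nonneg_left k6 hb.le
      have m4 : b * (c * (b * Y)) ≤ c * (b * Y) :=
        mul_le_of_le_one_left (mul_nonneg (by linarith) k2) (by linarith)
      have m5 : -(c * b - a) * (b * Y) ≤ c * (b * Y) :=
        mul_le_mul_of_nonneg_right (by linarith) k2
      have m6 := mul_nonneg hb.le k1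
      have m7 := mul_nonneg hb.le (k2.trans k4)
      have m8 := mul_nonneg hb.le k3
      linarith
    · rw [mul_assoc]
      exact mul_le_mul_of_nonneg_left h5 hN0
  · refine Or.inr ⟨_, Or.inr (Or.inr rfl), h, Or.inr ?_, ?_⟩
    · have p1 := h.2.1
      simp only [neg1, Prod.swap_prod_mk, Function.comp] at p1 ⊢
      exact (abs_of_neg (by linarith)).symm
    obtain ⟨-, p1, p2, -⟩ := h
    simp only [neg1, Prod.swap_prod_mk, Function.comp] at p1 p2 ⊢
    rw [YY_swap _ b, YY_swap _ b', YY_neg, YY_neg, e1, e2, neg_sub_neg, abs_sub_comm (c * b - a)]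
    rw [abs_of_neg (by linarith : c * b - a < 0)] at hV
    refine fin ?_
    generalize |c' + (c' * b' - a') * b' - (c + (c * b - a) * b)| = V at *
    have hW0 := abs_nonneg (c' * b' - a' - (c * b - a))
    generalize |c' * b' - a' - (c * b - a)| = W at *
    have m0 : -(c * b - a) * |b' - b| ≤ |b' - b| := mul_le_of_le_one_left hY (by linarith)
    have m1 : b * W ≤ W := mul_le_of_le_one_left hW0 (by linarith)
    have m2 : |b' - b| + V ≤ 2 * |b' - b| + |c' - c| + 2 * W := by linarith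
    have m3 := mul_le_mul_of_nonneg_left m2 p1.le
    have m4 := mul_le_mul_of_nonneg_right p2.le
      (by positivity : 0 ≤ 2 * |b' - b| + |c' - c| + 2 * W)
    linarith
  · exact Or.inl h

/-- The points that shadow a point of `M`. -/
def Sh (l : ℝ) (M : Set (ℝ × ℝ)) (K : ℕ) (r θ : ℝ) : Set (ℝ × ℝ) :=
  {p | ∃ q ∈ M ∩ tri 1, r ≤ q.2 ∧ NN l q p * q.1 ^ K < θ * r ^ (K + 2)}

lemma isOpen_Sh (K : ℕ) (r θ : ℝ) : IsOpen (Sh l M K r θ) := by
  have : Sh l M K r θ = ⋃ q ∈ {q ∈ M ∩ tri 1 | r ≤ q.2},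
      {p | NN l q p * q.1 ^ K < θ * r ^ (K + 2)} := by
    ext p
    simp only [Sh, mem_ofPred_eq, mem_iUnion, exists_prop, and_assoc]
  rw [this]
  refine isOpen_biUnion fun q _ => isOpen_lt ?_ continuous_const
  have := continuous_YY (l := l)
  unfold NN
  fun_prop

lemma errs {K : ℕ} {r θ : ℝ} (hr : 0 < r) {q p : ℝ × ℝ} (hq : q ∈ tri 1) (h1 : r ≤ q.2)
    (h : NN l q p * q.1 ^ K < θ * r ^ (K + 2)) :
    |p.1 - q.1| ≤ θ * r ∧ |p.2 - q.2| ≤ θ * r ∧ |YY l p.1 p.2 - YY l q.1 q.2| ≤ θ * r := by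
  obtain ⟨hb, hab, -⟩ := hq
  have ha := hb.trans hab
  have h0 : 0 ≤ NN l q p := by unfold NN; positivity
  have h2 := (mul_le_mul_of_nonneg_left (pow_le_pow_left₀ hr.le (h1.trans hab.le) K) h0).trans_lt h
  rw [pow_add, mul_comm (r ^ K) (r ^ 2), ← mul_assoc] at h2
  have h3 := lt_of_mul_lt_mul_right h2 (pow_pos hr K).le
  unfold NN at h3
  have hX := abs_nonneg (p.1 - q.1)
  have hY := abs_nonneg (p.2 - q.2)
  have hZ := abs_nonneg (YY l p.1 p.2 - YY l q.1 q.2)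
  have k1 := mul_le_mul_of_nonneg_right h1 hX
  have k2 := mul_le_mul_of_nonneg_right (h1.trans hab.le) hY
  have k3 := mul_le_mul_of_nonneg_right h1 hZ
  have k4 := mul_nonneg hr.le hX
  have k5 := mul_nonneg hr.le hY
  have k6 := mul_nonneg hr.le hZ
  refine ⟨?_, ?_, ?_⟩ <;> refine le_of_mul_le_mul_left ?_ hr <;> linarith

lemma Sh_good (hl : 2 < l) (hM : Inv l M) {K : ℕ} {r θ : ℝ} (hr : 0 < r) (hθ : 0 < θ)
    (hθ1 : 4 * θ ≤ l - 2) (hθ2 : θ * (l + 4) ≤ 1) {p : ℝ × ℝ} (hp : p ∈ Sh l M K r θ) :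
    r / 2 ≤ p.2 ∧ θ * p.2 ≤ p.1 - p.2 ∧ p.1 ≤ 2 ∧ (l + 2) / 2 ≤ YY l p.1 p.2 ∧
      YY l p.1 p.2 ≤ l + 2 := by
  obtain ⟨q, hq, h1, h2⟩ := hp
  obtain ⟨e1, e2, e3⟩ := errs hr hq.2 h1 h2
  obtain ⟨c1, c2, c3⟩ := bounds hl hM hq
  replace c3 := c3 le_rfl
  obtain ⟨-, hb, hab, ha⟩ := hq
  rw [abs_le] at e1 e2 e3
  have h3 : θ ≤ 1 / 6 := by nlinarith
  have h4 : θ * r ≤ 1 / 6 * r := mul_le_mul_of_nonneg_right h3 hr.le
  have h5 : θ * r ≤ θ * q.2 := mul_le_mul_of_nonneg_left h1 hθ.le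
  have h6 : θ * q.2 ≤ θ := mul_le_of_le_one_right hθ.le (by linarith)
  have h7 : 4 * θ * q.2 ≤ (l - 2) * q.2 := mul_le_mul_of_nonneg_right hθ1 hb.le
  have h8 : θ * p.2 ≤ θ * (2 * q.2) := mul_le_mul_of_nonneg_left (by linarith [e2.2]) hθ.le
  refine ⟨?_, ?_, ?_, ?_, ?_⟩ <;> linarith [e1.1, e1.2, e2.1, e2.2, e3.1, e3.2]

lemma Sh_cover (hl : 2 < l) (hM : Inv l M) {K : ℕ} (hK3 : 3 ≤ K) (hK : 15 + 2 * l ≤ (l - 1) ^ K)
    {r θ : ℝ} (hr : 0 < r) (hθ : 0 < θ) (hθ2 : θ * (l + 4) ≤ 1) {p : ℝ × ℝ}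
    (hp : p ∈ Sh l M K r θ) : |(QQ l p).1| ≤ 2 * r ∨ Prod.swap (QQ l p) ∈ Sh l M K r θ ∨
      neg1 (QQ l p) ∈ Sh l M K r θ ∨ Prod.swap (neg1 (QQ l p)) ∈ Sh l M K r θ := by
  obtain ⟨q, hq, h1, h2⟩ := hp
  obtain ⟨e1, e2, e3⟩ := errs hr hq.2 h1 h2
  obtain ⟨c1, -, c3⟩ := bounds hl hM hq
  replace c3 := c3 le_rfl
  have h3 : θ ≤ 1 / 6 := by nlinarith
  have h4 : θ * r ≤ 1 / 6 * r := mul_le_mul_of_nonneg_right h3 hr.le
  by_cases h : |(QQ l q).1| < r
  · left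
    obtain ⟨-, hb, hab, ha⟩ := hq
    have hb' : |p.2| ≤ 2 := by
      rw [abs_le] at e2 ⊢
      constructor <;> linarith [e2.1, e2.2]
    rw [show (QQ l p).1 = (QQ l q).1 + (-(p.1 - q.1) + YY l q.1 q.2 * (p.2 - q.2)
      + p.2 * (YY l p.1 p.2 - YY l q.1 q.2)) by simp only [QQ]; ring]
    refine (abs_add_le _ _).trans ((add_le_add h.le (abs_add_three _ _ _)).trans ?_)
    rw [abs_neg, abs_mul, abs_mul, abs_of_nonneg (by linarith : 0 ≤ YY l q.1 q.2)]
    have k1 := mul_le_mul c3 e2 (abs_nonneg _) (by linarith)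
    have k2 := mul_le_mul hb' e3 (abs_nonneg _) (by norm_num)
    have k3 := mul_le_mul_of_nonneg_right hθ2 hr.le
    linarith
  right
  rcases step hl hM hK3 hK hq (p := p) (by linarith) with h0 | ⟨S, hS, p1, p2, p3⟩
  · exact absurd (by rwa [h0, abs_zero]) h
  have : S (QQ l p) ∈ Sh l M K r θ := ⟨_, p1, by rcases p2 with p2 | p2 <;> linarith, p3.trans_lt h2⟩
  rcases hS with rfl | rfl | rfl
  exacts [Or.inl this, Or.inr (Or.inl this), Or.inr (Or.inr this)]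

lemma near_Sh (hl : 2 < l) (hM : Inv l M) {K : ℕ} {r θ d : ℝ} (hr : 0 < r)
    (hd : 12 * d ≤ θ * r ^ (K + 2)) (hd0 : 0 < d) (hdr : d ≤ r) {q p : ℝ × ℝ}
    (hq : q ∈ M ∩ tri 1) (h1 : r ≤ q.2) (h : dist p q ≤ d) : p ∈ Sh l M K r θ := by
  refine ⟨q, hq, h1, ?_⟩
  have c1 := (bounds hl hM hq).1
  obtain ⟨-, hb, hab, ha⟩ := hq
  rw [Prod.dist_eq, Real.dist_eq, Real.dist_eq, max_le_iff] at h
  obtain ⟨e1, e2⟩ := h
  have q1 := YY_eq (by linarith : 0 < l) q.1 q.2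
  have q2 := YY_eq (by linarith : 0 < l) p.1 p.2
  have q3 := YY_pos (by linarith : 0 < l) p.1 p.2
  have hX := abs_le.1 e1
  have hY := abs_le.1 e2
  have e3 : |YY l p.1 p.2 - YY l q.1 q.2| ≤ 6 * d := by
    generalize YY l p.1 p.2 = c' at *
    generalize YY l q.1 q.2 = c at *
    have p1 : 0 ≤ p.1 := by linarith [hX.1]
    have p2 : 0 ≤ p.2 := by linarith [hY.1]
    have h2 : (c' - c) * (c' + c + p.1 * p.2) = -c * ((p.1 - q.1) * p.2 + q.1 * (p.2 - q.2))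
        + (p.1 - q.1) * (p.1 + q.1) + (p.2 - q.2) * (p.2 + q.2) := by linear_combination q2 - q1
    have h3 := congrArg abs h2
    rw [abs_mul, abs_of_nonneg (by linarith [mul_nonneg p1 p2] : 0 ≤ c' + c + p.1 * p.2)] at h3
    have h4 := h3.trans_le (abs_add_three _ _ _)
    rw [abs_mul, abs_mul, abs_mul, abs_neg, abs_of_nonneg (by linarith : 0 ≤ c),
      abs_of_nonneg (by linarith : 0 ≤ p.1 + q.1), abs_of_nonneg (by linarith : 0 ≤ p.2 + q.2)] at h4
    have h5 : |(p.1 - q.1) * p.2 + q.1 * (p.2 - q.2)| ≤ 3 * d := by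
      refine (abs_add_le _ _).trans ?_
      rw [abs_mul, abs_mul, abs_of_nonneg p2, abs_of_nonneg (by linarith : 0 ≤ q.1)]
      linarith [mul_le_mul e1 (by linarith [hY.2] : p.2 ≤ 2) p2 hd0.le,
        mul_le_mul ha e2 (abs_nonneg _) zero_le_one]
    have h6 := mul_le_mul e1 (by linarith [hX.2] : p.1 + q.1 ≤ 3) (by linarith) hd0.le
    have h7 := mul_le_mul e2 (by linarith [hY.2] : p.2 + q.2 ≤ 3) (by linarith) hd0.le
    have h8 := mul_le_mul_of_nonneg_left h5 (by linarith : 0 ≤ c)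
    have h9 := mul_le_mul_of_nonneg_left (by linarith [mul_nonneg p1 p2] : c ≤ c' + c + p.1 * p.2)
      (abs_nonneg (c' - c))
    have h10 := mul_le_mul_of_nonneg_right (by linarith : 2 ≤ c) hd0.le
    refine le_of_mul_le_mul_right ?_ (by linarith : 0 < c)
    linarith
  have h2 : NN l q p ≤ 11 * d := by
    unfold NN
    have k1 := mul_le_mul (by linarith : q.2 ≤ 1) (add_le_add e1 e3) (by positivity) zero_le_one
    have k2 := mul_le_mul ha e2 (abs_nonneg _) zero_le_one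
    linarith
  have h3 := mul_le_mul h2 (pow_le_one₀ (by linarith) ha (n := K)) (pow_nonneg (by linarith) K)
    (by linarith)
  linarith

end Pool.Agent.Lib.MP_3dc428_gt
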