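import Mathlib

/-!
The positive sheet of the level surface as a graph over the plane of the two imaginary traces,
and invariance of the area form under the Vieta involution.
-/

namespace Pool.Agent.Lib.MP_3dc428_gt

open MeasureTheory Set
open scoped ENNReal

noncomputable def DD (l x z : ℝ) : ℝ := Real.sqrt (x ^ 2 * z ^ 2 + 4 * (x ^ 2 + z ^ 2 + l ^ 2))

noncomputable def YY (l x z : ℝ) : ℝ := (-(x * z) + DD l x z) / 2

noncomputable def QQ (l : ℝ) (p : ℝ × ℝ) : ℝ × ℝ := (YY l p.1 p.2 * p.2 - p.1, p.2)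

def neg1 (p : ℝ × ℝ) : ℝ × ℝ := (-p.1, p.2)

variable {l : ℝ}

lemma DD_arg_pos (hl : 0 < l) (x z : ℝ) : 0 < x ^ 2 * z ^ 2 + 4 * (x ^ 2 + z ^ 2 + l ^ 2) := by
  positivity

lemma DD_pos (hl : 0 < l) (x z : ℝ) : 0 < DD l x z := Real.sqrt_pos.2 (DD_arg_pos hl x z)

lemma DD_sq (hl : 0 < l) (x z : ℝ) :
    DD l x z ^ 2 = x ^ 2 * z ^ 2 + 4 * (x ^ 2 + z ^ 2 + l ^ 2) :=
  Real.sq_sqrt (DD_arg_pos hl x z).le

lemma DD_ge (x z : ℝ) : 2 * l ≤ DD l x z := by
  apply Real.le_sqrt_of_sq_le
  nlinarith [sq_nonneg x, sq_nonneg z, mul_nonneg (sq_nonneg x) (sq_nonneg z)]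

lemma DD_swap (x z : ℝ) : DD l z x = DD l x z := by
  unfold DD; congr 1; ring

lemma DD_neg (x z : ℝ) : DD l (-x) z = DD l x z := by
  unfold DD; congr 1; ring

lemma YY_swap (x z : ℝ) : YY l z x = YY l x z := by
  unfold YY; rw [DD_swap]; ring

lemma YY_neg (x z : ℝ) : YY l (-x) z = YY l x z + x * z := by
  unfold YY; rw [DD_neg]; ring

lemma YY_neg_neg (x z : ℝ) : YY l (-x) (-z) = YY l x z := by
  unfold YY; rw [DD_neg, DD_swap, DD_neg, DD_swap]; ring

lemma YY_pos (hl : 0 < l) (x z : ℝ) : 0 < YY l x z := by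
  have h1 := DD_sq hl x z
  have h2 := DD_pos hl x z
  have : x * z < DD l x z := by
    apply lt_of_pow_lt_pow_left₀ 2 h2.le
    nlinarith [sq_nonneg x, sq_nonneg z, sq_pos_of_pos hl]
  unfold YY; linarith

lemma YY_eq (hl : 0 < l) (x z : ℝ) :
    YY l x z ^ 2 + x * z * YY l x z - x ^ 2 - z ^ 2 = l ^ 2 := by
  have h1 := DD_sq hl x z
  unfold YY; nlinarith

lemma DD_eq (x z : ℝ) : DD l x z = 2 * YY l x z + x * z := by
  unfold YY; ring

lemma YY_unique (hl : 0 < l) {x y z : ℝ} (hy : 0 < y)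
    (h : y ^ 2 + x * z * y - x ^ 2 - z ^ 2 = l ^ 2) : y = YY l x z := by
  have h0 : 0 < y * (y + x * z) := by nlinarith [sq_nonneg x, sq_nonneg z, sq_pos_of_pos hl]
  have h1 : 0 < y + x * z := (pos_iff_pos_of_mul_pos h0).1 hy
  have h2 : DD l x z = 2 * y + x * z := by
    unfold DD
    rw [Real.sqrt_eq_iff_mul_self_eq (DD_arg_pos hl x z).le (by linarith)]
    nlinarith
  unfold YY; linarith

lemma YY_vieta (hl : 0 < l) (x z : ℝ) : YY l (YY l x z * z - x) z = YY l x z := by
  symm
  apply YY_unique hl (YY_pos hl x z)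
  have := YY_eq hl x z
  nlinarith

lemma QQ_QQ (hl : 0 < l) (p : ℝ × ℝ) : QQ l (QQ l p) = p := by
  unfold QQ
  simp only [YY_vieta hl]
  ext <;> simp

lemma continuous_DD : Continuous fun p : ℝ × ℝ => DD l p.1 p.2 := by
  unfold DD; fun_prop

lemma continuous_YY : Continuous fun p : ℝ × ℝ => YY l p.1 p.2 := by
  unfold YY DD; fun_prop

lemma continuous_QQ : Continuous (QQ l) := by
  unfold QQ YY DD; fun_prop

lemma continuous_neg1 : Continuous neg1 := by
  unfold neg1; fun_prop

lemma hasDerivAt_DD (hl : 0 < l) (x z : ℝ) :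
    HasDerivAt (fun x => DD l x z) ((x * z ^ 2 + 4 * x) / DD l x z) x := by
  have h1 : HasDerivAt (fun x : ℝ => x ^ 2 * z ^ 2 + 4 * (x ^ 2 + z ^ 2 + l ^ 2))
      (2 * x * z ^ 2 + 8 * x) x := by
    have := ((hasDerivAt_pow 2 x).mul_const (z ^ 2)).add
      ((((hasDerivAt_pow 2 x).add_const (z ^ 2)).add_const (l ^ 2)).const_mul 4)
    refine HasDerivAt.congr_deriv this ?_
    simp; ring
  have h2 := h1.sqrt (DD_arg_pos hl x z).ne'
  refine HasDerivAt.congr_deriv h2 ?_
  have := DD_pos hl x z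
  unfold DD at *
  field_simp
  ring

lemma hasDerivAt_vieta (hl : 0 < l) (x z : ℝ) :
    HasDerivAt (fun x => YY l x z * z - x) (-(DD l (YY l x z * z - x) z / DD l x z)) x := by
  have h1 := hasDerivAt_DD hl x z
  have h2 : HasDerivAt (fun x => YY l x z * z - x)
      ((-z + (x * z ^ 2 + 4 * x) / DD l x z) / 2 * z - 1) x := by
    unfold YY
    have := ((((hasDerivAt_id x).mul_const z).neg.add h1).div_const 2).mul_const z |>.sub
      (hasDerivAt_id x)
    refine HasDerivAt.congr_deriv this ?_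
    simp
  refine HasDerivAt.congr_deriv h2 ?_
  have hD := DD_pos hl x z
  have h3 := DD_eq (l := l) (YY l x z * z - x) z
  rw [YY_vieta hl] at h3
  have h4 := DD_eq (l := l) x z
  rw [h3]
  field_simp
  rw [h4]
  ring

/-- The density of the invariant area form. -/
noncomputable def ww (l : ℝ) (p : ℝ × ℝ) : ℝ≥0∞ := ENNReal.ofReal (1 / DD l p.1 p.2)

lemma measurable_ww : Measurable (ww l) := by
  unfold ww
  exact ENNReal.measurable_ofReal.comp (measurable_const.div continuous_DD.measurable)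

noncomputable def nu (l : ℝ) : Measure (ℝ × ℝ) := volume.withDensity (ww l)

lemma lintegral_vieta (hl : 0 < l) (z : ℝ) (g : ℝ → ℝ≥0∞) :
    ∫⁻ x, ww l (x, z) * g (YY l x z * z - x) = ∫⁻ x, ww l (x, z) * g x := by
  have hinv : ∀ x, YY l (YY l x z * z - x) z * z - (YY l x z * z - x) = x := by
    intro x; rw [YY_vieta hl]; ring
  have hinj : InjOn (fun x => YY l x z * z - x) univ := by
    intro a _ b _ hab
    have ha := hinv a
    have hb := hinv b
    simp only at hab
    rw [hab] at ha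
    linarith
  have hsurj : (fun x => YY l x z * z - x) '' univ = univ := by
    apply eq_univ_of_forall
    intro x
    exact ⟨YY l x z * z - x, mem_univ _, hinv x⟩
  have key := lintegral_image_eq_lintegral_abs_deriv_mul MeasurableSet.univ
    (fun x _ => (hasDerivAt_vieta hl x z).hasDerivWithinAt) hinj (fun x => ww l (x, z) * g x)
  rw [hsurj] at key
  simp only [Measure.restrict_univ] at key
  rw [key]
  refine lintegral_congr fun x => ?_
  rw [← mul_assoc]
  congr 1
  unfold ww
  have h1 := DD_pos hl x z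
  have h2 := DD_pos hl (YY l x z * z - x) z
  rw [← ENNReal.ofReal_mul (abs_nonneg _), abs_neg, abs_of_pos (by positivity)]
  congr 1
  field_simp

lemma lintegral_nu (g : ℝ × ℝ → ℝ≥0∞) (hg : Measurable g) :
    ∫⁻ p, g p ∂(nu l) = ∫⁻ p, ww l p * g p := by
  unfold nu
  rw [lintegral_withDensity_eq_lintegral_mul _ measurable_ww hg]
  rfl

lemma lintegral_QQ (hl : 0 < l) (g : ℝ × ℝ → ℝ≥0∞) (hg : Measurable g) :
    ∫⁻ p, g (QQ l p) ∂(nu l) = ∫⁻ p, g p ∂(nu l) := by
  have hQ : Measurable (QQ l) := continuous_QQ.measurable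
  rw [lintegral_nu (fun p => g (QQ l p)) (hg.comp hQ), lintegral_nu _ hg, Measure.volume_eq_prod,
    lintegral_prod_symm (fun p => ww l p * g (QQ l p))
      (measurable_ww.mul (hg.comp hQ)).aemeasurable,
    lintegral_prod_symm (fun p => ww l p * g p) (measurable_ww.mul hg).aemeasurable]
  refine lintegral_congr fun z => ?_
  exact lintegral_vieta hl z (fun x => g (x, z))

lemma lintegral_swap (g : ℝ × ℝ → ℝ≥0∞) (hg : Measurable g) :
    ∫⁻ p, g (Prod.swap p) ∂(nu l) = ∫⁻ p, g p ∂(nu l) := by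
  rw [lintegral_nu (fun p => g (Prod.swap p)) (hg.comp measurable_swap), lintegral_nu _ hg,
    Measure.volume_eq_prod]
  have := lintegral_prod_swap (μ := (volume : Measure ℝ)) (ν := (volume : Measure ℝ))
    (fun p => ww l p * g p)
  rw [← this]
  refine lintegral_congr fun p => ?_
  simp only [Function.comp, ww, Prod.fst_swap, Prod.snd_swap, DD_swap p.1 p.2]

lemma lintegral_neg1 (g : ℝ × ℝ → ℝ≥0∞) (hg : Measurable g) :
    ∫⁻ p, g (neg1 p) ∂(nu l) = ∫⁻ p, g p ∂(nu l) := by
  have hN : Measurable neg1 := continuous_neg1.measurable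
  rw [lintegral_nu (fun p => g (neg1 p)) (hg.comp hN), lintegral_nu _ hg, Measure.volume_eq_prod,
    lintegral_prod_symm (fun p => ww l p * g (neg1 p))
      (measurable_ww.mul (hg.comp hN)).aemeasurable,
    lintegral_prod_symm (fun p => ww l p * g p) (measurable_ww.mul hg).aemeasurable]
  refine lintegral_congr fun z => ?_
  have := lintegral_neg_eq_self (μ := (volume : Measure ℝ)) (fun x => ww l (x, z) * g (x, z))
  rw [← this]
  refine lintegral_congr fun x => ?_
  simp only [Function.comp, ww, neg1, DD_neg]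

lemma nu_le_volume (hl : 1 ≤ l) : nu l ≤ volume := by
  have h : ww l ≤ fun _ => 1 := by
    intro p
    unfold ww
    have := DD_ge (l := l) p.1 p.2
    rw [ENNReal.ofReal_le_one, div_le_one (by linarith)]
    linarith
  calc nu l ≤ volume.withDensity (fun _ => 1) := withDensity_mono (Filter.Eventually.of_forall h)
    _ = volume := by simp

lemma volume_ac_nu (hl : 0 < l) : (volume : Measure (ℝ × ℝ)) ≪ nu l := by
  apply withDensity_absolutelyContinuous' measurable_ww.aemeasurable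
  refine Filter.Eventually.of_forall fun p => ?_
  unfold ww
  have := DD_pos hl p.1 p.2
  simp only [ne_eq, ENNReal.ofReal_eq_zero, not_le]
  positivity

end Pool.Agent.Lib.MP_3dc428_gt
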