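import Mathlib

/-!
Nielsen's theorem for the free group of rank two, as an induction principle for generating pairs.
-/

namespace Pool.Agent.Lib.MP_3dc428_gt

open FreeGroup

section lcp
variable {β : Type*} [DecidableEq β]

/-- Length of the longest common initial segment. -/
def lcp : List β → List β → ℕ
  | a :: s, b :: t => if a = b then lcp s t + 1 else 0
  | _, _ => 0

lemma lcp_nil_left (t : List β) : lcp [] t = 0 := by cases t <;> rfl

lemma lcp_nil_right (s : List β) : lcp s [] = 0 := by cases s <;> rfl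

lemma lcp_cons (a b : β) (s t : List β) :
    lcp (a :: s) (b :: t) = if a = b then lcp s t + 1 else 0 := rfl

lemma lcp_ultra : ∀ (r s t : List β), min (lcp r s) (lcp s t) ≤ lcp r t
  | [], _, _ => by simp [lcp_nil_left]
  | _ :: _, [], _ => by simp [lcp_nil_left]
  | _ :: _, _ :: _, [] => by simp [lcp_nil_right]
  | a :: r, b :: s, c :: t => by
    have := lcp_ultra r s t
    simp only [lcp_cons]
    by_cases h1 : a = b
    · by_cases h2 : b = c
      · subst h1 h2; simp only [if_true]; omega
      · simp [h2]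
    · simp [h1]

lemma lcp_take : ∀ (n : ℕ) (s : List β), n ≤ s.length → lcp (s.take n) s = n
  | 0, _, _ => by simp [lcp_nil_left]
  | _ + 1, [], h => by simp at h
  | n + 1, a :: s, h => by
    simp only [List.take_succ_cons, lcp_cons, if_true]
    rw [lcp_take n s (by simpa using h)]

end lcp

section gromov
variable {α : Type*} [DecidableEq α]

lemma isReduced_tail {a : α × Bool} {s : List (α × Bool)} (h : IsReduced (a :: s)) :
    IsReduced s := List.IsChain.tail h

lemma isReduced_invRev {s : List (α × Bool)} (h : IsReduced s) : IsReduced (invRev s) := by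
  rw [isReduced_iff_reduce_eq] at h ⊢
  rw [reduce_invRev, h]

lemma norm_mk_of_isReduced {s : List (α × Bool)} (h : IsReduced s) :
    norm (mk s) = s.length := by
  simp [FreeGroup.norm, h.reduce_eq]

lemma norm_lcp : ∀ (s t : List (α × Bool)), IsReduced s → IsReduced t →
    norm ((mk s)⁻¹ * mk t) + 2 * lcp s t = s.length + t.length
  | [], t, _, ht => by
    have : (mk ([] : List (α × Bool))) = 1 := rfl
    simp [this, lcp_nil_left, norm_mk_of_isReduced ht]
  | a :: s, [], hs, _ => by
    have : (mk ([] : List (α × Bool))) = 1 := rfl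
    rw [this, mul_one, norm_inv_eq, norm_mk_of_isReduced hs, lcp_nil_right]
    simp
  | a :: s, b :: t, hs, ht => by
    by_cases h : a = b
    · subst h
      have ih := norm_lcp s t (isReduced_tail hs) (isReduced_tail ht)
      have e1 : mk (a :: s) = mk [a] * mk s := by rw [mul_mk]; rfl
      have e2 : mk (a :: t) = mk [a] * mk t := by rw [mul_mk]; rfl
      have e3 : (mk (a :: s))⁻¹ * mk (a :: t) = (mk s)⁻¹ * mk t := by
        rw [e1, e2]; group
      rw [e3, lcp_cons, if_pos rfl]
      simp only [List.length_cons]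
      omega
    · rw [lcp_cons, if_neg h, inv_mk, mul_mk, norm_mk_of_isReduced]
      · simp
      · apply List.IsChain.append (isReduced_invRev hs) ht
        intro x hx y hy
        simp only [invRev, List.map_cons, List.reverse_cons, List.getLast?_append,
          List.getLast?_singleton, Option.some_or, Option.mem_def, Option.some.injEq,
          List.head?_cons] at hx hy
        subst hx hy
        intro h1
        obtain ⟨a1, a2⟩ := a
        obtain ⟨b1, b2⟩ := b
        simp only at h1 ⊢
        subst h1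
        cases a2 <;> cases b2 <;> simp_all

/-- The Gromov product at the identity. -/
def gp (g h : FreeGroup α) : ℕ := lcp g.toWord h.toWord

lemma gp_eq (g h : FreeGroup α) : norm (g⁻¹ * h) + 2 * gp g h = norm g + norm h := by
  have := norm_lcp g.toWord h.toWord isReduced_toWord isReduced_toWord
  rwa [mk_toWord, mk_toWord] at this

lemma gp_eq' (g h : FreeGroup α) : norm (g * h) + 2 * gp g⁻¹ h = norm g + norm h := by
  have := gp_eq g⁻¹ h
  rwa [inv_inv, norm_inv_eq] at this

lemma gp_symm (g h : FreeGroup α) : gp g h = gp h g := by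
  have h1 := gp_eq g h
  have h2 := gp_eq h g
  have h3 : norm (h⁻¹ * g) = norm (g⁻¹ * h) := by
    rw [← norm_inv_eq]; simp
  omega

lemma gp_ultra (g k h : FreeGroup α) : min (gp g k) (gp k h) ≤ gp g h := lcp_ultra _ _ _

lemma exists_initial (g : FreeGroup α) {n : ℕ} (hn : n ≤ norm g) :
    ∃ p : FreeGroup α, norm p = n ∧ gp p g = n := by
  have hr : IsReduced (g.toWord.take n) := List.IsChain.take isReduced_toWord n
  refine ⟨mk (g.toWord.take n), ?_, ?_⟩
  · rw [norm_mk_of_isReduced hr]
    simpa [FreeGroup.norm] using hn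
  · unfold gp
    rw [toWord_mk, hr.reduce_eq]
    exact lcp_take n _ hn

lemma norm_lt_norm_sq {g : FreeGroup α} (hg : g ≠ 1) : norm g < norm (g * g) := by
  have h1 := reduceCyclically.reduce_flatten_replicate_succ (L := g.toWord) isReduced_toWord 1
  have h0 := reduceCyclically.conj_conjugator_reduceCyclically g.toWord
  have h2 : (g * g).toWord = reduce (List.replicate (1 + 1) g.toWord).flatten := by
    rw [← toWord_pow]; congr 1; exact (pow_two g).symm
  have h3 : reduceCyclically g.toWord ≠ [] := by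
    intro h
    rw [h] at h0
    apply hg
    rw [← mk_toWord (x := g), ← h0, List.append_nil, ← mul_mk, ← inv_mk, mul_inv_cancel]
  have h4 := congrArg List.length h0
  have h5 := List.length_pos_iff.2 h3
  unfold FreeGroup.norm
  rw [h2, h1]
  simp at h4 ⊢
  omega

lemma gp_self_inv {g : FreeGroup α} (hg : g ≠ 1) : 2 * gp g⁻¹ g < norm g := by
  have := gp_eq' g g
  have := norm_lt_norm_sq hg
  omega

/-- The length reduction used when a middle letter cancels completely. -/
lemma reduce_middle {m v : FreeGroup α} {k : ℕ} (hk : norm m = 2 * k) (hk0 : 0 < k)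
    (hv : 2 * k ≤ norm v) (h1 : gp v⁻¹ m = k) (h2 : gp m⁻¹ v = k) :
    ∃ q : FreeGroup α, norm (q⁻¹ * m * q) + norm (q⁻¹ * (v * m) * q) < norm m + norm v := by
  obtain ⟨q, hq1, hq2⟩ := exists_initial m⁻¹ (n := k) (by rw [norm_inv_eq]; omega)
  refine ⟨q, ?_⟩
  have a1 := gp_eq' m q
  rw [gp_symm, hq2] at a1
  have a2 := gp_eq m (m * q)
  rw [inv_mul_cancel_left] at a2
  have a3 := gp_ultra v⁻¹ m (m * q)
  have a4 := gp_eq' v (m * q)
  have a5 := gp_eq v (v * (m * q))
  rw [inv_mul_cancel_left] at a5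
  have a6 : norm v ≤ norm (v * (m * q)) + norm (m * q) := by
    have := norm_mul_le (v * (m * q)) (m * q)⁻¹
    rwa [mul_inv_cancel_right, norm_inv_eq] at this
  have a7 := gp_ultra q m⁻¹ v
  have a8 := gp_ultra q v (v * (m * q))
  have a9 := gp_eq q (v * (m * q))
  have a10 := norm_mul_le q⁻¹ (m * q)
  rw [norm_inv_eq] at a10
  have e1 : q⁻¹ * m * q = q⁻¹ * (m * q) := by group
  have e2 : q⁻¹ * (v * m) * q = q⁻¹ * (v * (m * q)) := by group
  rw [e1, e2]
  omega

/-- Products of Nielsen-reduced letters are at least as long as each letter. -/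
lemma reduced_words {β : Type*} (φ : FreeGroup β →* FreeGroup α)
    (N1 : ∀ x y : β × Bool, (x.1 = y.1 → x.2 = y.2) →
      2 * gp (φ (mk [x]))⁻¹ (φ (mk [y])) ≤ norm (φ (mk [x])) ∧
      2 * gp (φ (mk [x]))⁻¹ (φ (mk [y])) ≤ norm (φ (mk [y])))
    (N2 : ∀ x y z : β × Bool, (x.1 = y.1 → x.2 = y.2) → (y.1 = z.1 → y.2 = z.2) →
      gp (φ (mk [x]))⁻¹ (φ (mk [y])) + gp (φ (mk [y]))⁻¹ (φ (mk [z])) < norm (φ (mk [y]))) :
    ∀ (x : β × Bool) (L : List (β × Bool)), IsReduced (x :: L) →
      (∀ x0 : β × Bool, (x0.1 = x.1 → x0.2 = x.2) →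
        gp (φ (mk [x0]))⁻¹ (φ (mk (x :: L))) = gp (φ (mk [x0]))⁻¹ (φ (mk [x]))) ∧
      ∀ y ∈ x :: L, norm (φ (mk [y])) ≤ norm (φ (mk (x :: L))) := by
  intro x L
  induction L generalizing x with
  | nil =>
    intro _
    refine ⟨fun _ _ => rfl, fun y hy => ?_⟩
    rw [List.mem_singleton.1 hy]
  | cons y L ih =>
    intro h
    have hxy : x.1 = y.1 → x.2 = y.2 := (List.isChain_cons_cons.1 h).1
    obtain ⟨ih1, ih2⟩ := ih y (List.isChain_cons_cons.1 h).2
    have e1 : φ (mk (x :: y :: L)) = φ (mk [x]) * φ (mk (y :: L)) := by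
      rw [← _root_.map_mul, mul_mk]; rfl
    have a1 := gp_eq' (φ (mk [x])) (φ (mk (y :: L)))
    rw [ih1 x hxy, ← e1] at a1
    have a2 := N1 x y hxy
    have a3 := ih2 y (List.mem_cons_self)
    have a4 := gp_eq (φ (mk [x])) (φ (mk (x :: y :: L)))
    rw [e1, inv_mul_cancel_left, ← e1] at a4
    constructor
    · intro x0 h0
      have b1 := N2 x0 x y h0 hxy
      have b2 := gp_ultra (φ (mk [x0]))⁻¹ (φ (mk [x])) (φ (mk (x :: y :: L)))
      have b3 := gp_ultra (φ (mk [x0]))⁻¹ (φ (mk (x :: y :: L))) (φ (mk [x]))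
      rw [gp_symm (φ (mk (x :: y :: L)))] at b3
      omega
    · intro z hz
      rcases List.mem_cons.1 hz with rfl | hz
      · omega
      · have := ih2 z hz
        omega

end gromov

abbrev F2 := FreeGroup (Fin 2)

def Gen (u v : F2) : Prop := Subgroup.closure ({u, v} : Set F2) = ⊤

lemma Gen.mono {u v u' v' : F2} (h : Gen u v) (hu : u ∈ Subgroup.closure ({u', v'} : Set F2))
    (hv : v ∈ Subgroup.closure ({u', v'} : Set F2)) : Gen u' v' := by
  unfold Gen at *
  rw [eq_top_iff, ← h, Subgroup.closure_le]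
  rintro g (rfl | rfl) <;> assumption

lemma mem_l (u v : F2) : u ∈ Subgroup.closure ({u, v} : Set F2) :=
  Subgroup.subset_closure (by simp)

lemma mem_r (u v : F2) : v ∈ Subgroup.closure ({u, v} : Set F2) :=
  Subgroup.subset_closure (by simp)

lemma Gen.swap {u v : F2} (h : Gen u v) : Gen v u := h.mono (mem_r _ _) (mem_l _ _)

lemma Gen.inv {u v : F2} (h : Gen u v) : Gen u⁻¹ v :=
  h.mono (by simpa using inv_mem (mem_l u⁻¹ v)) (mem_r _ _)

lemma Gen.mul {u v : F2} (h : Gen u v) : Gen u (u * v) :=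
  h.mono (mem_l _ _) (by simpa using mul_mem (inv_mem (mem_l u (u * v))) (mem_r u (u * v)))

lemma Gen.mul' {u v : F2} (h : Gen u v) : Gen u (v * u) :=
  h.mono (mem_l _ _) (by simpa using mul_mem (mem_r u (v * u)) (inv_mem (mem_l u (v * u))))

lemma Gen.conj {u v : F2} (h : Gen u v) (q : F2) : Gen (q⁻¹ * u * q) (q⁻¹ * v * q) := by
  unfold Gen at *
  have := congrArg (Subgroup.map (MulAut.conj q⁻¹).toMonoidHom) h
  rw [MonoidHom.map_closure, Subgroup.map_top_of_surjective _ (MulAut.conj q⁻¹).surjective] at this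
  rw [← this]
  congr 1
  simp [Set.image_pair]

lemma not_commute : ¬ Commute (of 0 : F2) (of 1) := by
  intro h
  have := congrArg toWord h.eq
  revert this
  decide

lemma not_cyclic (g : F2) (h0 : of 0 ∈ Subgroup.zpowers g) (h1 : of 1 ∈ Subgroup.zpowers g) :
    False := by
  obtain ⟨m, hm⟩ := h0
  obtain ⟨n, hn⟩ := h1
  apply not_commute
  rw [← hm, ← hn]
  exact (Commute.refl g).zpow_zpow m n

lemma Gen.not_sub {u v : F2} (h : Gen u v) (g : F2) (hu : u ∈ Subgroup.zpowers g)
    (hv : v ∈ Subgroup.zpowers g) : False := by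
  have : (⊤ : Subgroup F2) ≤ Subgroup.zpowers g := by
    rw [← h, Subgroup.closure_le]
    rintro g (rfl | rfl) <;> assumption
  exact not_cyclic g (this trivial) (this trivial)

theorem nielsen (S : F2 → F2 → Prop) (h0 : S (of 0) (of 1))
    (hswap : ∀ u v, S u v → S v u) (hinv : ∀ u v, S u v → S u⁻¹ v)
    (hmul : ∀ u v, S u v → S u (u * v))
    (hconj : ∀ u v q, S (q⁻¹ * u * q) (q⁻¹ * v * q) → S u v) :
    ∀ u v, Gen u v → S u v := by
  have hinv' : ∀ u v, S u⁻¹ v → S u v := fun u v h => by simpa using hinv _ _ h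
  have hinv2 : ∀ u v, S u v → S u v⁻¹ := fun u v h => hswap _ _ (hinv _ _ (hswap _ _ h))
  have hinv2' : ∀ u v, S u v⁻¹ → S u v := fun u v h => by simpa using hinv2 _ _ h
  have hmul' : ∀ u v, S u (u * v) → S u v := fun u v h => by
    simpa using hinv' _ _ (hmul _ _ (hinv _ _ h))
  have hmul2' : ∀ u v, S u (v * u) → S u v := fun u v h => by
    have := hmul _ _ (hinv2 _ _ h)
    apply hinv2'
    simpa using this
  intro u v
  induction hn : norm u + norm v using Nat.strong_induction_on generalizing u v with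
  | _ n ih =>
  intro hG
  by_contra hS
  obtain ⟨e, he0, he1⟩ : ∃ e : Fin 2 → F2, e 0 = u ∧ e 1 = v := ⟨![u, v], rfl, rfl⟩
  obtain ⟨φ, hφ⟩ : ∃ φ : F2 →* F2, φ = lift e := ⟨_, rfl⟩
  have evt : ∀ i : Fin 2, φ (mk [(i, true)]) = e i := by
    intro i
    rw [hφ]
    exact lift_apply_of
  have evf : ∀ i : Fin 2, φ (mk [(i, false)]) = (e i)⁻¹ := by
    intro i
    rw [← evt, ← _root_.map_inv]
    rfl
  have two : ∀ i : Fin 2, i = 0 ∨ i = 1 := by decide
  have hu1 : u ≠ 1 := by
    rintro rfl
    exact hG.not_sub v (one_mem _) (Subgroup.mem_zpowers v)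
  have hv1 : v ≠ 1 := by
    rintro rfl
    exact hG.not_sub u (Subgroup.mem_zpowers u) (one_mem _)
  have hne : ∀ x : Fin 2 × Bool, φ (mk [x]) ≠ 1 := by
    rintro ⟨i, b⟩
    rcases two i with rfl | rfl <;> cases b <;> simp only [evt, evf, he0, he1, ne_eq, inv_eq_one]
      <;> assumption
  have hpair : ∀ x y : Fin 2 × Bool, x.1 ≠ y.1 → Gen (φ (mk [x])) (φ (mk [y])) ∧
      norm (φ (mk [x])) + norm (φ (mk [y])) = n ∧ ¬ S (φ (mk [x])) (φ (mk [y])) := by
    rintro ⟨i, b⟩ ⟨j, c⟩ hij
    rcases two i with rfl | rfl <;> rcases two j with rfl | rfl <;>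
      simp only [ne_eq, not_true_eq_false] at hij <;>
      cases b <;> cases c <;> simp only [evt, evf, he0, he1, norm_inv_eq]
    · exact ⟨hG.inv.swap.inv.swap, hn, fun h => hS (hinv' _ _ (hinv2' _ _ h))⟩
    · exact ⟨hG.inv, hn, fun h => hS (hinv' _ _ h)⟩
    · exact ⟨hG.swap.inv.swap, hn, fun h => hS (hinv2' _ _ h)⟩
    · exact ⟨hG, hn, hS⟩
    · exact ⟨hG.inv.swap.inv, by omega, fun h => hS (hswap _ _ (hinv' _ _ (hinv2' _ _ h)))⟩
    · exact ⟨hG.swap.inv, by omega, fun h => hS (hswap _ _ (hinv' _ _ h))⟩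
    · exact ⟨hG.inv.swap, by omega, fun h => hS (hswap _ _ (hinv2' _ _ h))⟩
    · exact ⟨hG.swap, by omega, fun h => hS (hswap _ _ h)⟩
  have N1 : ∀ x y : Fin 2 × Bool, (x.1 = y.1 → x.2 = y.2) →
      2 * gp (φ (mk [x]))⁻¹ (φ (mk [y])) ≤ norm (φ (mk [x])) ∧
      2 * gp (φ (mk [x]))⁻¹ (φ (mk [y])) ≤ norm (φ (mk [y])) := by
    intro x y hxy
    by_cases h : x.1 = y.1
    · have : x = y := Prod.ext h (hxy h)
      subst this
      have := gp_self_inv (hne x)
      omega
    · obtain ⟨g1, g2, g3⟩ := hpair x y h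
      have a1 := gp_eq' (φ (mk [x])) (φ (mk [y]))
      constructor
      · by_contra hc
        exact g3 (hmul' _ _ (ih _ (by omega) _ _ rfl g1.mul))
      · by_contra hc
        exact g3 (hswap _ _ (hmul2' _ _ (ih _ (by omega) _ _ rfl g1.swap.mul')))
  have N2 : ∀ x y z : Fin 2 × Bool, (x.1 = y.1 → x.2 = y.2) → (y.1 = z.1 → y.2 = z.2) →
      gp (φ (mk [x]))⁻¹ (φ (mk [y])) + gp (φ (mk [y]))⁻¹ (φ (mk [z])) < norm (φ (mk [y])) := by
    intro x y z hxy hyz
    have a1 := N1 x y hxy
    have a2 := N1 y z hyz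
    have a3 := gp_self_inv (hne y)
    by_contra hc
    by_cases h1 : x.1 = y.1
    · have : x = y := Prod.ext h1 (hxy h1)
      subst this
      omega
    by_cases h2 : y.1 = z.1
    · have : y = z := Prod.ext h2 (hyz h2)
      subst this
      omega
    have h3 : x.1 = z.1 := by omega
    by_cases h4 : x.2 = z.2
    · have : x = z := Prod.ext h3 h4
      subst this
      obtain ⟨g1, g2, g3⟩ := hpair y x h2
      have hpos : 0 < norm (φ (mk [y])) := Nat.pos_of_ne_zero fun h => hne y (norm_eq_zero.1 h)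
      obtain ⟨q, hq⟩ := reduce_middle (m := φ (mk [y])) (v := φ (mk [x]))
        (k := gp (φ (mk [x]))⁻¹ (φ (mk [y]))) (by omega) (by omega) (by omega) rfl (by omega)
      exact g3 (hmul2' _ _ (hconj _ _ q (ih _ (by omega) _ _ rfl (g1.mul'.conj q))))
    · have : φ (mk [z]) = (φ (mk [x]))⁻¹ := by
        obtain ⟨i, b⟩ := x
        obtain ⟨j, c⟩ := z
        simp only at h3 h4
        subst h3
        cases b <;> cases c
        · exact absurd rfl h4
        · rw [evt, evf, inv_inv]
        · rw [evt, evf]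
        · exact absurd rfl h4
      rw [this] at hc a2
      have b1 := gp_ultra (φ (mk [y]))⁻¹ (φ (mk [x]))⁻¹ (φ (mk [y]))
      omega
  have key := reduced_words φ N1 N2
  have hsurj : ∀ g : F2, ∃ w, φ w = g := by
    intro g
    have : φ.range = ⊤ := by
      rw [hφ, range_lift_eq_closure, ← hG]
      congr 1
      ext g
      constructor
      · rintro ⟨i, rfl⟩
        rcases two i with rfl | rfl
        · exact Or.inl he0
        · exact Or.inr he1
      · rintro (rfl | rfl)
        · exact ⟨0, he0⟩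
        · exact ⟨1, he1⟩
    exact (this ▸ Subgroup.mem_top g : g ∈ φ.range)
  have hlen : ∀ (i j : Fin 2), i ≠ j → norm (e i) ≤ 1 := by
    intro i j hij
    by_contra hc
    have hz : ∀ k : Fin 2, (of k : F2) ∈ Subgroup.zpowers (e j) := by
      intro k
      obtain ⟨w, hw⟩ := hsurj (of k)
      have hall : ∀ y ∈ w.toWord, y.1 = j := by
        intro y hy
        by_contra hyj
        have hyi : y.1 = i := by omega
        cases hL : w.toWord with
        | nil => rw [hL] at hy; simp at hy
        | cons x L =>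
          have hr : IsReduced (x :: L) := hL ▸ isReduced_toWord
          have := (key x L hr).2 y (hL ▸ hy)
          rw [← hL, mk_toWord, hw, norm_of] at this
          obtain ⟨y1, y2⟩ := y
          simp only at hyi
          subst hyi
          cases y2
          · rw [evf, norm_inv_eq] at this
            exact hc this
          · rw [evt] at this
            exact hc this
      rw [← hw, ← mk_toWord (x := w), hφ, lift_mk]
      apply list_prod_mem
      intro g hg
      obtain ⟨y, hy, rfl⟩ := List.mem_map.1 hg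
      rw [hall y hy]
      cases y.2
      · exact inv_mem (Subgroup.mem_zpowers _)
      · exact Subgroup.mem_zpowers _
    exact not_cyclic _ (hz 0) (hz 1)
  have hletter : ∀ g : F2, g ≠ 1 → norm g ≤ 1 → ∃ i : Fin 2, g = of i ∨ g = (of i)⁻¹ := by
    intro g hg1 hg
    have h1 : g.toWord.length = 1 := by
      have : norm g ≠ 0 := fun h => hg1 (norm_eq_zero.1 h)
      unfold FreeGroup.norm at *
      omega
    obtain ⟨⟨i, b⟩, hx⟩ := List.length_eq_one_iff.1 h1
    refine ⟨i, ?_⟩
    rw [← mk_toWord (x := g), hx]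
    cases b
    · right; rfl
    · left; rfl
  obtain ⟨i, hi⟩ := hletter u hu1 (he0 ▸ hlen 0 1 (by decide))
  obtain ⟨j, hj⟩ := hletter v hv1 (he1 ▸ hlen 1 0 (by decide))
  have hij : i ≠ j := by
    rintro rfl
    apply hG.not_sub (of i)
    · rcases hi with h | h <;> rw [h]
      · exact Subgroup.mem_zpowers _
      · exact inv_mem (Subgroup.mem_zpowers _)
    · rcases hj with h | h <;> rw [h]
      · exact Subgroup.mem_zpowers _
      · exact inv_mem (Subgroup.mem_zpowers _)
  have hb : S (of i) (of j) := by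
    rcases two i with rfl | rfl <;> rcases two j with rfl | rfl
    · exact absurd rfl hij
    · exact h0
    · exact hswap _ _ h0
    · exact absurd rfl hij
  apply hS
  rcases hi with h | h <;> rcases hj with h' | h' <;> rw [h, h']
  · exact hb
  · exact hinv2 _ _ hb
  · exact hinv _ _ hb
  · exact hinv _ _ (hinv2 _ _ hb)

lemma gen_of_aut (φ : MulAut F2) : Gen (φ (of 0)) (φ (of 1)) := by
  unfold Gen
  have h := congrArg (Subgroup.map φ.toMonoidHom) (closure_range_of (Fin 2))
  rw [MonoidHom.map_closure, Subgroup.map_top_of_surjective _ φ.surjective] at h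
  rw [← h]
  congr 1
  ext g
  simp [eq_comm]

end Pool.Agent.Lib.MP_3dc428_gt
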