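import Pool.Agent.Lib.MP_3dc428_gt.Defs
import Pool.Agent.Lib.MP_3dc428_gt.Nielsen

/-!
Normal form of the transformations induced by mapping classes: words in the three Vieta
involutions, possibly preceded by the swap of the two imaginary traces.
-/

namespace Pool.Agent.Lib.MP_3dc428_gt

open Set FreeGroup Matrix

abbrev C3 := ℂ × ℂ × ℂ

/-- The Vieta involutions. -/
def vv : Fin 3 → C3 → C3
  | 0, p => (p.2.1 * p.2.2 - p.1, p.2.1, p.2.2)
  | 1, p => (p.1, p.1 * p.2.2 - p.2.1, p.2.2)
  | 2, p => (p.1, p.2.1, p.1 * p.2.1 - p.2.2)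

lemma three (i : Fin 3) : i = 0 ∨ i = 1 ∨ i = 2 := by decide +revert

lemma vv_vv (i : Fin 3) (p : C3) : vv i (vv i p) = p := by
  rcases three i with rfl | rfl | rfl <;> simp [vv]

def word {X : Type*} (f : Fin 3 → X → X) : List (Fin 3) → X → X
  | [], p => p
  | i :: L, p => f i (word f L p)

lemma word_append {X : Type*} (f : Fin 3 → X → X) (L L' : List (Fin 3)) (p : X) :
    word f (L ++ L') p = word f L (word f L' p) := by
  induction L with
  | nil => rfl
  | cons i L ih => simp [word, ih]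

lemma word_reverse {X : Type*} {f : Fin 3 → X → X} (hf : ∀ i p, f i (f i p) = p)
    (L : List (Fin 3)) (p : X) : word f L.reverse (word f L p) = p := by
  induction L generalizing p with
  | nil => rfl
  | cons i L ih => simp [word, word_append, hf, ih]

lemma word_reverse' {X : Type*} {f : Fin 3 → X → X} (hf : ∀ i p, f i (f i p) = p)
    (L : List (Fin 3)) (p : X) : word f L (word f L.reverse p) = p := by
  simpa using word_reverse hf L.reverse p

lemma word_comm {X Y : Type*} {f : Fin 3 → X → X} {f' : Fin 3 → Y → Y} (s : X → Y)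
    (τ : Fin 3 → Fin 3) (h : ∀ i p, s (f i p) = f' (τ i) (s p)) (L : List (Fin 3)) (p : X) :
    s (word f L p) = word f' (L.map τ) (s p) := by
  induction L with
  | nil => rfl
  | cons i L ih => simp [word, h, ih]

lemma word_mem {X : Type*} {f : Fin 3 → X → X} {S : Set X} (h : ∀ i, ∀ p ∈ S, f i p ∈ S)
    (L : List (Fin 3)) {p : X} (hp : p ∈ S) : word f L p ∈ S := by
  induction L with
  | nil => exact hp
  | cons i L ih => exact h _ _ ih

lemma continuous_word {X : Type*} [TopologicalSpace X] {f : Fin 3 → X → X}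
    (h : ∀ i, Continuous (f i)) (L : List (Fin 3)) : Continuous (word f L) := by
  induction L with
  | nil => exact continuous_id
  | cons i L ih => exact (h i).comp ih

lemma exists_reduced {X : Type*} {f : Fin 3 → X → X} (hf : ∀ i p, f i (f i p) = p)
    (L : List (Fin 3)) : ∃ L' : List (Fin 3), L'.IsChain (· ≠ ·) ∧ word f L' = word f L := by
  induction L with
  | nil => exact ⟨[], List.isChain_nil, rfl⟩
  | cons i L ih =>
    obtain ⟨L', h1, h2⟩ := ih
    cases L' with
    | nil => exact ⟨[i], List.isChain_singleton i, by funext p; simp [word, ← h2]⟩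
    | cons j L'' =>
      by_cases hij : i = j
      · subst hij
        exact ⟨L'', h1.tail, by funext p; simp [word, ← h2, hf]⟩
      · exact ⟨i :: j :: L'', List.isChain_cons_cons.2 ⟨hij, h1⟩, by funext p; simp [word, ← h2]⟩

def sxy (p : C3) : C3 := (p.2.1, p.1, p.2.2)
def syz (p : C3) : C3 := (p.1, p.2.2, p.2.1)
def sxz (p : C3) : C3 := (p.2.2, p.2.1, p.1)
def cy1 (p : C3) : C3 := (p.2.1, p.2.2, p.1)
def cy2 (p : C3) : C3 := (p.2.2, p.1, p.2.1)

def IsP6 (f : C3 → C3) : Prop :=
  f = id ∨ f = sxz ∨ f = sxy ∨ f = syz ∨ f = cy1 ∨ f = cy2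

lemma IsP6.sxy {f : C3 → C3} (h : IsP6 f) : IsP6 (sxy ∘ f) := by
  rcases h with rfl | rfl | rfl | rfl | rfl | rfl
  · exact Or.inr (Or.inr (Or.inl rfl))
  · exact Or.inr (Or.inr (Or.inr (Or.inr (Or.inl rfl))))
  · exact Or.inl rfl
  · exact Or.inr (Or.inr (Or.inr (Or.inr (Or.inr rfl))))
  · exact Or.inr (Or.inl rfl)
  · exact Or.inr (Or.inr (Or.inr (Or.inl rfl)))

lemma IsP6.syz {f : C3 → C3} (h : IsP6 f) : IsP6 (syz ∘ f) := by
  rcases h with rfl | rfl | rfl | rfl | rfl | rfl
  · exact Or.inr (Or.inr (Or.inr (Or.inl rfl)))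
  · exact Or.inr (Or.inr (Or.inr (Or.inr (Or.inr rfl))))
  · exact Or.inr (Or.inr (Or.inr (Or.inr (Or.inl rfl))))
  · exact Or.inl rfl
  · exact Or.inr (Or.inr (Or.inl rfl))
  · exact Or.inr (Or.inl rfl)

def txy : Fin 3 → Fin 3 := ![1, 0, 2]
def tyz : Fin 3 → Fin 3 := ![0, 2, 1]
def txz : Fin 3 → Fin 3 := ![2, 1, 0]

lemma sxy_vv (i : Fin 3) (p : C3) : sxy (vv i p) = vv (txy i) (sxy p) := by
  rcases three i with rfl | rfl | rfl <;> simp [vv, sxy, txy, mul_comm]

lemma syz_vv (i : Fin 3) (p : C3) : syz (vv i p) = vv (tyz i) (syz p) := by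
  rcases three i with rfl | rfl | rfl <;> simp [vv, syz, tyz, mul_comm]

lemma sxz_vv (i : Fin 3) (p : C3) : sxz (vv i p) = vv (txz i) (sxz p) := by
  rcases three i with rfl | rfl | rfl <;> simp [vv, sxz, txz, mul_comm]

section traces

abbrev SL2 := Matrix.SpecialLinearGroup (Fin 2) ℂ

lemma tr_comm (A B : SL2) : (A * B).1.trace = (B * A).1.trace := by
  exact trace_mul_comm A.1 B.1

lemma tr_inv (A : SL2) : (A⁻¹).1.trace = A.1.trace := by
  rw [SpecialLinearGroup.SL2_inv_expl]
  simp [trace_fin_two, add_comm]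

lemma tr_inv_mul (A B : SL2) : (A⁻¹ * B).1.trace = A.1.trace * B.1.trace - (A * B).1.trace := by
  rw [SpecialLinearGroup.SL2_inv_expl]
  simp [trace_fin_two, Matrix.mul_apply, Fin.sum_univ_two]
  ring

lemma tr_conj (Q A : SL2) : (Q⁻¹ * A * Q).1.trace = A.1.trace := by
  rw [tr_comm, ← mul_assoc, mul_inv_cancel, one_mul]

lemma tr_mul_mul (A B : SL2) :
    (A * (A * B)).1.trace = A.1.trace * (A * B).1.trace - B.1.trace := by
  have := tr_inv_mul A (A * B)
  rw [inv_mul_cancel_left] at this
  rw [this]; ring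

/-- The traces of a pair of elements. -/
noncomputable def tri3 (ρ : F2 →* SL2) (u v : F2) : C3 :=
  ((ρ u).1.trace, (ρ v).1.trace, (ρ (u * v)).1.trace)

lemma tri3_swap (ρ : F2 →* SL2) (u v : F2) : tri3 ρ v u = sxy (tri3 ρ u v) := by
  simp only [tri3, sxy, _root_.map_mul, tr_comm (ρ u)]

lemma tri3_inv (ρ : F2 →* SL2) (u v : F2) : tri3 ρ u⁻¹ v = vv 2 (tri3 ρ u v) := by
  simp only [tri3, vv, _root_.map_mul, _root_.map_inv, tr_inv, tr_inv_mul]

lemma tri3_mul (ρ : F2 →* SL2) (u v : F2) : tri3 ρ u (u * v) = vv 2 (syz (tri3 ρ u v)) := by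
  simp only [tri3, vv, syz, _root_.map_mul, tr_mul_mul]

lemma tri3_conj (ρ : F2 →* SL2) (u v q : F2) :
    tri3 ρ (q⁻¹ * u * q) (q⁻¹ * v * q) = tri3 ρ u v := by
  have : q⁻¹ * u * q * (q⁻¹ * v * q) = q⁻¹ * (u * v) * q := by group
  simp only [tri3, this]
  simp only [_root_.map_mul ρ _ q, _root_.map_mul ρ q⁻¹, _root_.map_inv, tr_conj]

lemma character_comp (ρ : F2 →* SL2) (φ : F2 →* F2) :
    character (ρ.comp φ) = tri3 ρ (φ (of 0)) (φ (of 1)) := by
  simp [character, tri3]

lemma character_surjective : Function.Surjective character := by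
  rintro ⟨x, y, z⟩
  obtain ⟨s, hs⟩ := IsAlgClosed.exists_pow_nat_eq (z ^ 2 - 4) (n := 2) (by norm_num)
  let A : SL2 := ⟨!![x, -1; 1, 0], by simp [det_fin_two]⟩
  let B : SL2 := ⟨!![0, (z + s) / 2; -((z - s) / 2), y], by
    simp only [det_fin_two_of]; linear_combination (-1 / 4 : ℂ) * hs⟩
  refine ⟨lift ![A, B], ?_⟩
  simp [character, A, B, trace_fin_two, Matrix.mul_apply, Fin.sum_univ_two]
  ring

theorem normal_form_aut (φ : MulAut F2) :
    ∃ (L : List (Fin 3)) (f : C3 → C3), IsP6 f ∧
      ∀ ρ : F2 →* SL2, character (ρ.comp φ.toMonoidHom) = word vv L (f (character ρ)) := by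
  have := nielsen (fun u v => ∃ (L : List (Fin 3)) (f : C3 → C3), IsP6 f ∧
      ∀ ρ : F2 →* SL2, tri3 ρ u v = word vv L (f (character ρ)))
    ⟨[], id, Or.inl rfl, fun ρ => rfl⟩
    (by
      rintro u v ⟨L, f, hf, h⟩
      refine ⟨L.map txy, sxy ∘ f, hf.sxy, fun ρ => ?_⟩
      rw [tri3_swap, h, word_comm sxy txy sxy_vv]; rfl)
    (by
      rintro u v ⟨L, f, hf, h⟩
      refine ⟨2 :: L, f, hf, fun ρ => ?_⟩
      rw [tri3_inv, h]; rfl)
    (by
      rintro u v ⟨L, f, hf, h⟩
      refine ⟨2 :: L.map tyz, syz ∘ f, hf.syz, fun ρ => ?_⟩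
      rw [tri3_mul, h, word_comm syz tyz syz_vv]; rfl)
    (by
      rintro u v q ⟨L, f, hf, h⟩
      refine ⟨L, f, hf, fun ρ => ?_⟩
      rw [← h, tri3_conj])
    _ _ (gen_of_aut φ)
  obtain ⟨L, f, hf, h⟩ := this
  exact ⟨L, f, hf, fun ρ => by rw [character_comp]; exact h ρ⟩

end traces

lemma vv_component (i : Fin 3) (p : C3) (hp : p ∈ component) : vv i p ∈ component := by
  obtain ⟨h1, h2, h3⟩ := hp
  rcases three i with rfl | rfl | rfl <;> simp [vv, component, h1, h2, h3]

/-- Normal form of an element of the group. -/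
theorem normal_form {o : Prop} {g : Equiv.Perm C3} (hg : g ∈ modGroup o) :
    ∃ L : List (Fin 3), L.IsChain (· ≠ ·) ∧
      ((∀ p, g p = word vv L p) ∨ (∀ p, g p = word vv L (sxz p))) := by
  obtain ⟨hc, φ, -, hφ⟩ := hg
  obtain ⟨L0, f, hf, h⟩ := normal_form_aut φ
  obtain ⟨L, hL, hL'⟩ := exists_reduced vv_vv L0
  have hgf : ∀ p, g p = word vv L (f p) := by
    intro p
    obtain ⟨ρ, rfl⟩ := character_surjective p
    rw [hφ, h, hL']
  have hp : f (0, 1, 0) ∈ component := by
    have h1 : g (0, 1, 0) ∈ component := by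
      rw [← hc]; exact mem_image_of_mem _ (by simp [component])
    rw [hgf] at h1
    have := word_mem vv_component L.reverse h1
    rwa [word_reverse vv_vv] at this
  refine ⟨L, hL, ?_⟩
  rcases hf with rfl | rfl | rfl | rfl | rfl | rfl
  · exact Or.inl hgf
  · exact Or.inr hgf
  all_goals simp [component, sxy, syz, cy1, cy2] at hp

/-- The Vieta involutions as permutations. -/
def vP (i : Fin 3) : Equiv.Perm C3 := Function.Involutive.toPerm (vv i) (vv_vv i)

def wP (L : List (Fin 3)) : Equiv.Perm C3 := (L.map vP).prod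

lemma wP_apply (L : List (Fin 3)) (p : C3) : wP L p = word vv L p := by
  induction L with
  | nil => rfl
  | cons i L ih =>
    simp only [wP, List.map_cons, List.prod_cons, Equiv.Perm.mul_apply, word] at *
    rw [ih]; rfl

/-- Automorphisms inducing the Vieta involutions. -/
def fv : Fin 3 → (F2 →* F2)
  | 0 => lift ![of 0 * of 1 * of 1, (of 1)⁻¹]
  | 1 => lift ![(of 0)⁻¹, of 0 * of 0 * of 1]
  | 2 => lift ![(of 0)⁻¹, of 1]

lemma fv_fv (i : Fin 3) : (fv i).comp (fv i) = MonoidHom.id _ := by
  rcases three i with rfl | rfl | rfl <;> ext j <;> fin_cases j <;> simp [fv, mul_assoc]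

def av (i : Fin 3) : MulAut F2 := MonoidHom.toMulEquiv (fv i) (fv i) (fv_fv i) (fv_fv i)

lemma av_periph (i : Fin 3) : IsConj (av i periph) periph⁻¹ := by
  rcases three i with rfl | rfl | rfl
  · refine isConj_iff.2 ⟨of 1, ?_⟩
    simp [av, fv, periph]; group
  · refine isConj_iff.2 ⟨(of 0)⁻¹, ?_⟩
    simp [av, fv, periph]; group
  · refine isConj_iff.2 ⟨of 0, ?_⟩
    simp [av, fv, periph]; group

lemma av_character (i : Fin 3) (ρ : F2 →* SL2) :
    vv i (character ρ) = character (ρ.comp (av i).toMonoidHom) := by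
  rw [character_comp]
  rcases three i with rfl | rfl | rfl
  · have h1 := tr_mul_mul (ρ (of 1)) (ρ (of 0))
    have h2 := tr_comm (ρ (of 1)) (ρ (of 0) * ρ (of 1))
    have h3 := tr_comm (ρ (of 1)) (ρ (of 0))
    have h4 := tr_comm (ρ (of 1)) (ρ (of 1) * ρ (of 0))
    have h5 := tr_comm (ρ (of 1) * ρ (of 1)) (ρ (of 0))
    simp only [av, fv, tri3, vv, character, MulEquiv.toMonoidHom_eq_coe, MonoidHom.coe_coe,
      MonoidHom.toMulEquiv_apply, lift_apply_of, cons_val_zero, cons_val_one,
      mul_inv_cancel_right, _root_.map_mul, _root_.map_inv, tr_inv]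
    rw [mul_assoc] at h5
    rw [mul_assoc, ← h5, h1, h3]
  · have h1 := tr_mul_mul (ρ (of 0)) (ρ (of 1))
    simp only [av, fv, tri3, vv, character, MulEquiv.toMonoidHom_eq_coe, MonoidHom.coe_coe,
      MonoidHom.toMulEquiv_apply, lift_apply_of, cons_val_zero, cons_val_one, mul_assoc,
      inv_mul_cancel_left, _root_.map_mul, _root_.map_inv, tr_inv, h1]
  · simp only [av, fv, tri3, vv, character, MulEquiv.toMonoidHom_eq_coe, MonoidHom.coe_coe,
      MonoidHom.toMulEquiv_apply, lift_apply_of, cons_val_zero, cons_val_one,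
      _root_.map_mul, _root_.map_inv, tr_inv, tr_inv_mul]

lemma vP_image (i : Fin 3) : vP i '' component = component := by
  apply Subset.antisymm
  · rintro _ ⟨p, hp, rfl⟩
    exact vv_component i p hp
  · intro p hp
    exact ⟨vv i p, vv_component i p hp, vv_vv i p⟩

lemma pair_mem (o : Prop) (i j : Fin 3) : vP i * vP j ∈ modGroup o := by
  refine ⟨by rw [Equiv.Perm.coe_mul, image_comp, vP_image, vP_image], av j * av i,
    fun _ => ?_, fun ρ => ?_⟩
  · have h1 := (av j).toMonoidHom.map_isConj (av_periph i)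
    have h2 : IsConj (av j periph)⁻¹ periph := by
      obtain ⟨c, hc⟩ := isConj_iff.1 (av_periph j)
      refine isConj_iff.2 ⟨c, ?_⟩
      calc c * (av j periph)⁻¹ * c⁻¹ = (c * av j periph * c⁻¹)⁻¹ := by group
        _ = periph := by rw [hc, inv_inv]
    rw [_root_.map_inv] at h1
    exact h1.trans h2
  · show vv i (vv j (character ρ)) = _
    rw [av_character, av_character]; rfl

lemma wP_mem (o : Prop) : ∀ L : List (Fin 3), Even L.length → wP L ∈ modGroup o
  | [], _ => one_mem _
  | [_], h => by simp at h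
  | i :: j :: L, h => by
    have h' : Even L.length := by
      simp only [List.length_cons, Nat.even_add_one, not_not] at h
      exact h
    have : wP (i :: j :: L) = vP i * vP j * wP L := by simp [wP, mul_assoc]
    rw [this]
    exact mul_mem (pair_mem o i j) (wP_mem o L h')

lemma continuous_vv (i : Fin 3) : Continuous (vv i) := by
  rcases three i with rfl | rfl | rfl
  · show Continuous fun p : C3 => (p.2.1 * p.2.2 - p.1, p.2.1, p.2.2)
    fun_prop
  · show Continuous fun p : C3 => (p.1, p.1 * p.2.2 - p.2.1, p.2.2)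
    fun_prop
  · show Continuous fun p : C3 => (p.1, p.2.1, p.1 * p.2.1 - p.2.2)
    fun_prop

lemma continuous_sxz : Continuous sxz := by unfold sxz; fun_prop

lemma continuous_of_mem {o : Prop} {g : Equiv.Perm C3} (hg : g ∈ modGroup o) : Continuous g := by
  obtain ⟨L, -, h | h⟩ := normal_form hg
  · rw [funext h]; exact continuous_word continuous_vv L
  · rw [funext h]; exact (continuous_word continuous_vv L).comp continuous_sxz

/-- A point with a vanishing imaginary trace in its orbit has infinite stabilizer. -/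
lemma infinite_stabilizer (o : Prop) (L : List (Fin 3)) (p : C3)
    (h : (word vv L p).1 = 0 ∨ (word vv L p).2.2 = 0) :
    {g | g ∈ modGroup o ∧ g p = p}.Infinite := by
  have main : ∀ (T : List (Fin 3)) (c : ℕ → C3), T.length = 4 →
      word vv T (word vv L p) = word vv L p → Function.Injective c →
      (∀ n, word vv T (c n) = c (n + 1)) → {g | g ∈ modGroup o ∧ g p = p}.Infinite := by
    intro T c hT hfix hc hstep
    set h : Equiv.Perm C3 := wP (L.reverse ++ T ++ L) with hh
    have hmem : h ∈ modGroup o := wP_mem o _ (by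
      simp only [List.length_append, List.length_reverse, hT]
      exact ⟨L.length + 2, by ring⟩)
    have happ : ∀ q, h q = word vv L.reverse (word vv T (word vv L q)) := by
      intro q; rw [hh, wP_apply, word_append, word_append]
    have hp : h p = p := by rw [happ, hfix, word_reverse vv_vv]
    have hpow : ∀ n : ℕ, (h ^ n) (word vv L.reverse (c 0)) = word vv L.reverse (c n) := by
      intro n
      induction n with
      | zero => rfl
      | succ n ih => rw [pow_succ', Equiv.Perm.mul_apply, ih, happ, word_reverse' vv_vv, hstep]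
    refine infinite_of_injective_forall_mem (f := fun n : ℕ => h ^ n) ?_ ?_
    · intro m n hmn
      have h1 := hpow m
      simp only at hmn
      rw [hmn, hpow n] at h1
      have h2 := congrArg (word vv L) h1
      rw [word_reverse' vv_vv, word_reverse' vv_vv] at h2
      exact (hc h2).symm
    · intro n
      exact ⟨pow_mem hmem n, Equiv.Perm.pow_apply_eq_self_of_apply_eq_self hp n⟩
  rcases h with h | h
  · refine main [1, 2, 1, 2] (fun n => (2, -4 * n, -4 * n + 1)) rfl ?_ ?_ ?_
    · generalize word vv L p = q at h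
      obtain ⟨x, y, z⟩ := q
      simp only at h
      simp [word, vv, h]
    · intro m n hmn
      simpa using hmn
    · intro n
      simp only [word, vv, Prod.mk.injEq, true_and]
      push_cast
      constructor <;> ring
  · refine main [1, 0, 1, 0] (fun n => (-4 * n + 1, -4 * n, 2)) rfl ?_ ?_ ?_
    · generalize word vv L p = q at h
      obtain ⟨x, y, z⟩ := q
      simp only at h
      simp [word, vv, h]
    · intro m n hmn
      simpa using hmn
    · intro n
      simp only [word, vv, Prod.mk.injEq, and_true]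
      push_cast
      constructor <;> ring

end Pool.Agent.Lib.MP_3dc428_gt
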