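import Pool.Agent.Lib.MP_3dc428_gt.Real

/-!
The main statements.
-/

namespace Pool.Agent.Lib.MP_3dc428_gt

open Set MeasureTheory Complex
open scoped ENNReal

noncomputable def emb (r : R3) : C3 := (r.1 * I, r.2.1, r.2.2 * I)

def prj (p : C3) : R3 := (p.1.im, p.2.1.re, p.2.2.im)

lemma prj_emb (r : R3) : prj (emb r) = r := by simp [prj, emb]

lemma emb_injective : Function.Injective emb := Function.LeftInverse.injective prj_emb

lemma emb_prj {p : C3} (hp : p ∈ component) : emb (prj p) = p := by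
  obtain ⟨h1, h2, h3⟩ := hp
  obtain ⟨x, y, z⟩ := p
  simp only at h1 h2 h3
  simp only [emb, prj, Prod.mk.injEq]
  refine ⟨?_, ?_, ?_⟩ <;> apply Complex.ext <;> simp [h1, h2, h3]

lemma continuous_emb : Continuous emb := by unfold emb; fun_prop

lemma continuous_prj : Continuous prj := by unfold prj; fun_prop

lemma emb_component (r : R3) : emb r ∈ component := by simp [emb, component]

lemma emb_rv (i : Fin 3) (r : R3) : emb (rv i r) = vv (id i) (emb r) := by
  rcases three i with rfl | rfl | rfl <;> simp only [emb, rv, vv, id, Prod.mk.injEq, true_and,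
    and_true] <;> push_cast
  · ring
  · linear_combination (-(r.1 : ℂ) * r.2.2) * I_mul_I
  · ring

lemma emb_word (L : List (Fin 3)) (r : R3) : emb (word rv L r) = word vv L (emb r) := by
  simpa using word_comm emb id emb_rv L r

lemma emb_rsw (r : R3) : emb (rsw r) = sxz (emb r) := rfl

section
variable {t l : ℝ} (hl : 2 < l) (hlt : l ^ 2 = t + 2) {o : Prop}
include hlt

lemma emb_mem_level (r : R3) : emb r ∈ level t ↔ r ∈ Surf l := by
  have : kappa (emb r) = ((r.2.1 ^ 2 + r.1 * r.2.2 * r.2.1 - r.1 ^ 2 - r.2.2 ^ 2 - 2 : ℝ) : ℂ) := by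
    simp only [kappa, emb]
    push_cast
    linear_combination ((r.1 : ℂ) ^ 2 + (r.2.2 : ℂ) ^ 2 - r.1 * r.2.1 * r.2.2) * I_mul_I
  simp only [level, mem_ofPred_eq, emb_component, true_and, this, ofReal_inj, Surf]
  constructor <;> intro h <;> linarith

lemma exists_emb {p : C3} (hp : p ∈ level t) : ∃ r ∈ Surf l, emb r = p :=
  ⟨prj p, (emb_mem_level hlt _).1 (by rw [emb_prj hp.1]; exact hp), emb_prj hp.1⟩

lemma emb_mem_fricke (r : R3) : emb r ∈ fricke t ↔ r ∈ Surf l ∧ r.2.1 ^ 2 < l ^ 2 := by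
  simp only [fricke, mem_ofPred_eq, emb_mem_level hlt, hlt]
  simp [emb]

omit hlt in
lemma real_form {g : Equiv.Perm C3} (hg : g ∈ modGroup o) :
    ∃ (L : List (Fin 3)) (s : R3 → R3), L.IsChain (· ≠ ·) ∧ (s = id ∨ s = rsw) ∧
      ∀ r, g (emb r) = emb (word rv L (s r)) := by
  obtain ⟨L, hL, h | h⟩ := normal_form hg
  · exact ⟨L, id, hL, Or.inl rfl, fun r => by rw [h, emb_word]; rfl⟩
  · exact ⟨L, rsw, hL, Or.inr rfl, fun r => by rw [h, emb_word, emb_rsw]⟩

lemma map_level {g : Equiv.Perm C3} (hg : g ∈ modGroup o) {p : C3} (hp : p ∈ level t) :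
    g p ∈ level t := by
  obtain ⟨r, hr, rfl⟩ := exists_emb hlt hp
  obtain ⟨L, s, -, hs, h⟩ := real_form hg
  rw [h, emb_mem_level hlt]
  apply word_mem rv_surf
  rcases hs with rfl | rfl
  · exact hr
  · exact rsw_surf _ hr

lemma image_level {g : Equiv.Perm C3} (hg : g ∈ modGroup o) : g '' level t = level t := by
  apply Subset.antisymm
  · rintro _ ⟨p, hp, rfl⟩; exact map_level hlt hg hp
  · intro p hp
    exact ⟨g⁻¹ p, map_level hlt (inv_mem hg) hp, by simp⟩

include hl

lemma dichotomy {g : Equiv.Perm C3} (hg : g ∈ modGroup o) :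
    (∀ p ∈ level t, (g p).2.1 = p.2.1) ∨ (∀ p ∈ fricke t, g p ∉ fricke t) := by
  obtain ⟨L, s, hL, hs, h⟩ := real_form hg
  by_cases h1 : (1 : Fin 3) ∈ L
  · right
    intro p hp hgp
    obtain ⟨r, hr, rfl⟩ := exists_emb hlt hp.1
    rw [h, emb_mem_fricke hlt] at hgp
    rw [emb_mem_fricke hlt] at hp
    have : l ^ 2 < (word rv L (s r)).2.1 ^ 2 := by
      rcases hs with rfl | rfl
      · exact word_not_W hl hr hp.2 hL h1
      · exact word_not_W hl (rsw_surf _ hr) hp.2 hL h1
    linarith [hgp.2]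
  · left
    intro p hp
    obtain ⟨r, hr, rfl⟩ := exists_emb hlt hp
    rw [h]
    simp only [emb, word_y h1]
    rcases hs with rfl | rfl <;> rfl

omit hlt in
lemma exists_point {c : ℝ} (h1 : 2 < c) (h2 : c < l) : ∃ r ∈ Surf l, r.2.1 = c := by
  have h3 : 0 ≤ (l ^ 2 - c ^ 2) / (c - 2) := by
    apply div_nonneg <;> nlinarith
  refine ⟨(√((l ^ 2 - c ^ 2) / (c - 2)), c, √((l ^ 2 - c ^ 2) / (c - 2))), ?_, rfl⟩
  have h4 := Real.sq_sqrt h3
  have h5 : (l ^ 2 - c ^ 2) / (c - 2) * (c - 2) = l ^ 2 - c ^ 2 :=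
    div_mul_cancel₀ _ (by linarith)
  simp only [Surf, mem_ofPred_eq]
  linear_combination (c - 2) * h4 + h5

theorem wandering_fricke : IsWanderingDomain (modGroup o) t (fricke t) := by
  refine ⟨?_, ⟨{p | p.2.1.re ^ 2 < t + 2}, isOpen_lt (by fun_prop) continuous_const, ?_⟩, ?_, ?_⟩
  · obtain ⟨r, hr, hr'⟩ := exists_point hl (c := (2 + l) / 2) (by linarith) (by linarith)
    exact ⟨emb r, (emb_mem_fricke hlt r).2 ⟨hr, by rw [hr']; nlinarith⟩⟩
  · ext p; simp [fricke, and_comm]
  · intro g hg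
    rcases dichotomy hl hlt hg with h | h
    · left
      apply Subset.antisymm
      · rintro _ ⟨p, hp, rfl⟩
        exact ⟨map_level hlt hg hp.1, by rw [h p hp.1]; exact hp.2⟩
      · intro p hp
        have h1 := map_level hlt (inv_mem hg) hp.1
        refine ⟨g⁻¹ p, ⟨h1, ?_⟩, by simp⟩
        rw [← h _ h1]
        simpa using hp.2
    · right
      rw [disjoint_left]
      rintro _ ⟨p, hp, rfl⟩
      exact h p hp
  · intro K hK hKc
    rcases K.eq_empty_or_nonempty with rfl | hne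
    · simp
    obtain ⟨p0, hp0, hmin⟩ := hKc.exists_isMinOn hne
      (f := fun p => l ^ 2 - (prj p).2.1 ^ 2) (by have := continuous_prj; fun_prop)
    obtain ⟨p1, hp1, hmax⟩ := hKc.exists_isMaxOn hne
      (f := fun p => (prj p).1 ^ 2 + (prj p).2.2 ^ 2) (by have := continuous_prj; fun_prop)
    set m := l ^ 2 - (prj p0).2.1 ^ 2 with hm
    set B := (prj p1).1 ^ 2 + (prj p1).2.2 ^ 2 with hB
    have hm0 : 0 < m := by
      have := (hK hp0).2
      rw [hm, hlt]
      simp only [prj]; linarith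
    obtain ⟨n, hn⟩ := exists_nat_ge (B / m)
    have hfin : ((fun L => word vv L) '' {L : List (Fin 3) | L.length ≤ n} ∪
        (fun L => word vv L ∘ sxz) '' {L : List (Fin 3) | L.length ≤ n}).Finite :=
      ((List.finite_length_le _ n).image _).union ((List.finite_length_le _ n).image _)
    refine (hfin.preimage (f := fun g : Equiv.Perm C3 => (g : C3 → C3))
      DFunLike.coe_injective.injOn).subset ?_
    rintro g ⟨hg, -, _, ⟨p, hp, rfl⟩, hgp⟩
    obtain ⟨r, hr, rfl⟩ := exists_emb hlt (hK hp).1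
    have hrW := ((emb_mem_fricke hlt r).1 (hK hp)).2
    have a1 : m ≤ l ^ 2 - r.2.1 ^ 2 := by
      have : m ≤ l ^ 2 - (prj (emb r)).2.1 ^ 2 := hmin hp
      rwa [prj_emb] at this
    have a2 : r.1 ^ 2 + r.2.2 ^ 2 ≤ B := by simpa [prj_emb] using hmax hp
    have main : ∀ (L : List (Fin 3)) (r' : R3), L.IsChain (· ≠ ·) → r' ∈ Surf l →
        r'.2.1 = r.2.1 → r'.1 ^ 2 + r'.2.2 ^ 2 ≤ B → emb (word rv L r') ∈ K → L.length ≤ n := by
      intro L r' hL hr' hy hB' hmem
      have b1 := ((emb_mem_fricke hlt _).1 (hK hmem)).2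
      have b2 : (1 : Fin 3) ∉ L := fun h1 => by
        have := word_not_W hl hr' (hy ▸ hrW) hL h1
        linarith
      have b3 := length_bound hr' hL b2
      have b4 : (word rv L r').1 ^ 2 + (word rv L r').2.2 ^ 2 ≤ B := by
        simpa [prj_emb] using hmax hmem
      rw [hy] at b3
      have b5 : m * (L.length : ℝ) ≤ B := by
        nlinarith [mul_le_mul_of_nonneg_right a1 (Nat.cast_nonneg (α := ℝ) L.length)]
      rw [div_le_iff₀ hm0] at hn
      have b6 : m * (L.length : ℝ) ≤ m * n := by linarith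
      exact_mod_cast le_of_mul_le_mul_left b6 hm0
    obtain ⟨L, hL, h | h⟩ := normal_form hg
    · left
      refine ⟨L, main L r hL hr rfl a2 ?_, (funext h).symm⟩
      rw [emb_word, ← h]; exact hgp
    · right
      refine ⟨L, main L (rsw r) hL (rsw_surf _ hr) rfl (by simpa [rsw, add_comm] using a2) ?_,
        (funext h).symm⟩
      rw [emb_word, emb_rsw, ← h]; exact hgp

omit hl in
lemma wandering_image {U : Set C3} (hU : IsWanderingDomain (modGroup o) t U)
    {g : Equiv.Perm C3} (hg : g ∈ modGroup o) : IsWanderingDomain (modGroup o) t (g '' U) := by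
  obtain ⟨h1, ⟨O, hO, hOU⟩, h3, h4⟩ := hU
  have himg : ∀ (a b : Equiv.Perm C3) (S : Set C3), (a * b) '' S = a '' (b '' S) := by
    intro a b S; rw [Equiv.Perm.coe_mul, image_comp]
  have hone : ∀ S : Set C3, (1 : Equiv.Perm C3) '' S = S := by intro S; simp
  refine ⟨h1.image _, ⟨⇑(g⁻¹) ⁻¹' O, hO.preimage (continuous_of_mem (inv_mem hg)), ?_⟩, ?_, ?_⟩
  · rw [hOU, image_inter g.injective, image_level hlt hg]
    congr 1
    exact Equiv.image_eq_preimage_symm g O
  · intro h hh
    have e : h '' (g '' U) = g '' ((g⁻¹ * h * g) '' U) := by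
      rw [← himg, ← himg]; congr 2; group
    rcases h3 _ (mul_mem (mul_mem (inv_mem hg) hh) hg) with h' | h'
    · left; rw [e, h']
    · right; rw [e]; exact (disjoint_image_iff g.injective).2 h'
  · intro K hK hKc
    have hK' : ⇑(g⁻¹) '' K ⊆ U := by
      rintro _ ⟨p, hp, rfl⟩
      obtain ⟨u, hu, rfl⟩ := hK hp
      simpa using hu
    have := h4 _ hK' (hKc.image (continuous_of_mem (inv_mem hg)))
    refine (this.image fun h => g * h * g⁻¹).subset ?_
    rintro h ⟨hh, hU, _, ⟨p, hp, rfl⟩, hp'⟩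
    refine ⟨g⁻¹ * h * g, ⟨mul_mem (mul_mem (inv_mem hg) hh) hg, ?_, g⁻¹ (h p), ?_, ?_⟩, by group⟩
    · rw [himg, himg, hU, ← himg, inv_mul_cancel, hone]
    · exact ⟨g⁻¹ p, mem_image_of_mem _ hp, by simp⟩
    · exact mem_image_of_mem _ hp'

omit hl in
lemma omega_iff {r : R3} (hr : r ∈ Surf l) :
    emb r ∈ ⋃ g ∈ modGroup o, g '' fricke t ↔ r ∉ NR l := by
  simp only [mem_iUnion, exists_prop]
  constructor
  · rintro ⟨g, hg, w, hw, hgw⟩ hN
    obtain ⟨L, s, -, hs, h⟩ := real_form (inv_mem hg)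
    have h1 : w = emb (word rv L (s r)) := by rw [← h, ← hgw]; simp
    rw [h1, emb_mem_fricke hlt] at hw
    have h2 : s r ∈ NR l := by
      rcases hs with rfl | rfl
      · exact hN
      · exact NR_rsw hN
    linarith [h2 L, hw.2]
  · intro hN
    simp only [NR, mem_ofPred_eq, not_forall, not_le] at hN
    obtain ⟨L, hL⟩ := hN
    have main : ∀ L : List (Fin 3), Even L.length → (word rv L r).2.1 ^ 2 < l ^ 2 →
        ∃ g ∈ modGroup o, emb r ∈ g '' fricke t := by
      intro L he hL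
      refine ⟨(wP L)⁻¹, inv_mem (wP_mem o L he), emb (word rv L r),
        (emb_mem_fricke hlt _).2 ⟨word_mem rv_surf L hr, hL⟩, ?_⟩
      rw [emb_word, ← wP_apply]; simp
    rcases Nat.even_or_odd L.length with he | he
    · exact main L he hL
    · exact main (0 :: L) (by simpa using he.add_one) hL

theorem wandering_subset {U : Set C3} (hU : IsWanderingDomain (modGroup o) t U) :
    U ⊆ ⋃ g ∈ modGroup o, g '' fricke t := by
  have hl0 : 0 < l := by linarith
  obtain ⟨-, ⟨O, hO, hOU⟩, h3, h4⟩ := hU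
  intro p hp
  have hp' := hp
  rw [hOU] at hp'
  obtain ⟨r0, hr0, rfl⟩ := exists_emb hlt hp'.2
  rw [omega_iff hlt hr0]
  intro hN
  obtain ⟨σ, hσ, hy⟩ := exists_sign hl hr0
  have e0 := eq_gr hl0 hσ hr0 hy
  set q0 : ℝ × ℝ := (r0.1, r0.2.2) with hq0
  have hopen : IsOpen ((emb ∘ gr l σ) ⁻¹' O) :=
    hO.preimage (continuous_emb.comp (continuous_gr σ))
  obtain ⟨ε, hε, hball⟩ := Metric.isOpen_iff.1 hopen q0 (by
    show emb (gr l σ q0) ∈ O
    rw [← e0]; exact hp'.1)
  set B := Metric.ball q0 ε with hB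
  have hBU : ∀ q ∈ B, emb (gr l σ q) ∈ U := fun q hq => by
    rw [hOU]; exact ⟨hball hq, (emb_mem_level hlt _).2 (gr_surf hl0 hσ q)⟩
  have hne : ∀ (L : List (Fin 3)), ∀ q ∈ B, pr (word rv L (gr l σ q)) ≠ 0 := by
    intro L q hq h0
    have hfin : {g | g ∈ modGroup o ∧ g (emb (gr l σ q)) = emb (gr l σ q)}.Finite := by
      refine (h4 {emb (gr l σ q)} (singleton_subset_iff.2 (hBU q hq)) isCompact_singleton).subset ?_
      rintro g ⟨hg, hfix⟩
      refine ⟨hg, ?_, emb (gr l σ q), ⟨_, rfl, hfix⟩, rfl⟩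
      rcases h3 g hg with h | h
      · exact h
      · exact absurd (hBU q hq) (disjoint_left.1 h ⟨_, hBU q hq, hfix⟩)
    refine infinite_stabilizer o L _ ?_ hfin
    rw [← emb_word]
    have h4 := surf_four hl (word_mem rv_surf L (gr_surf hl0 hσ q))
    simp only [pr, mul_eq_zero] at h0
    rcases h0 with (h0 | h0) | h0
    · left; simp [emb, h0]
    · rw [h0] at h4; norm_num at h4
    · right; simp [emb, h0]
  have hall : ∀ q ∈ B, gr l σ q ∈ NR l := by
    intro q1 hq1
    by_contra hc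
    simp only [NR, mem_ofPred_eq, not_forall, not_le] at hc
    obtain ⟨L0, hL0⟩ := hc
    have hle : ∀ q ∈ B, (word rv L0 (gr l σ q)).2.1 ^ 2 ≤ l ^ 2 := by
      intro q hq
      apply always_pos (word_mem rv_surf L0 (gr_surf hl0 hσ q))
      intro A hA
      rw [← word_append]
      have hcont : Continuous fun q => pr (word rv (A ++ L0) (gr l σ q)) := by
        have h1 := (continuous_word continuous_rv (A ++ L0)).comp (continuous_gr (l := l) σ)
        unfold pr
        exact (h1.fst.mul h1.snd.fst).mul h1.snd.snd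
      refine (convex_ball q0 ε).isPreconnected.lt_of_ne hcont.continuousOn (hne _)
        ⟨q1, hq1, ?_⟩ hq
      apply pr_pos_of_W (word_mem rv_surf _ (gr_surf hl0 hσ q1))
      rw [word_append, word_y hA]; exact hL0
    have heq : (word rv L0 r0).2.1 ^ 2 = l ^ 2 := by
      apply le_antisymm _ (hN L0)
      rw [e0]; exact hle q0 (Metric.mem_ball_self hε)
    have hO' : IsOpen (word rv L0.reverse ⁻¹' {r : R3 | (r.1, r.2.2) ∈ B ∧ 0 < σ * r.2.1}) := by
      refine IsOpen.preimage (continuous_word continuous_rv _) (IsOpen.inter ?_ ?_)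
      · exact Metric.isOpen_ball.preimage (by fun_prop : Continuous fun r : R3 => (r.1, r.2.2))
      · exact isOpen_lt continuous_const (by fun_prop : Continuous fun r : R3 => σ * r.2.1)
    obtain ⟨r', hr1, hr2, hr3⟩ := perturb hl (word_mem rv_surf L0 hr0) heq hO' (by
      show word rv L0.reverse (word rv L0 r0) ∈ {r : R3 | (r.1, r.2.2) ∈ B ∧ 0 < σ * r.2.1}
      rw [word_reverse rv_rv]; exact ⟨Metric.mem_ball_self hε, hy⟩)
    have e1 := eq_gr hl0 hσ (word_mem rv_surf L0.reverse hr2) hr1.2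
    have := hle _ hr1.1
    rw [← e1, word_reverse' rv_rv] at this
    linarith
  have hsub : B ⊆ MM l := by
    intro q hq
    rcases NR_subset hl ⟨gr_surf hl0 hσ q, hall q hq⟩ with ⟨q', hq', h⟩ | ⟨q', hq', h⟩ <;>
    · have : q' = q := Prod.ext (congrArg (·.1) h) (congrArg (·.2.2) h)
      rwa [← this]
  exact (Metric.measure_ball_pos volume q0 hε).ne' (measure_mono_null hsub (volume_MM hl))

theorem sUnion_wandering :
    ⋃₀ {U | IsWanderingDomain (modGroup o) t U} = ⋃ g ∈ modGroup o, g '' fricke t := by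
  apply Subset.antisymm
  · exact sUnion_subset fun U hU => wandering_subset hl hlt hU
  · exact iUnion₂_subset fun g hg =>
      subset_sUnion_of_mem (wandering_image hlt (wandering_fricke hl hlt) hg)

theorem wandering_orbit :
    IsWanderingDomain (modGroup o) t (⋃ g ∈ modGroup o, g '' fricke t) := by
  obtain ⟨h1, -, h3, h4⟩ := wandering_fricke (o := o) hl hlt
  have himg : ∀ (a b : Equiv.Perm C3) (S : Set C3), (a * b) '' S = a '' (b '' S) := by
    intro a b S; rw [Equiv.Perm.coe_mul, image_comp]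
  have hy : Continuous fun p : C3 => p.2.1.re ^ 2 := by fun_prop
  set O : Equiv.Perm C3 → Set C3 := fun g => ⇑(g⁻¹) ⁻¹' {p : C3 | p.2.1.re ^ 2 < t + 2} with hO
  have hOo : ∀ g ∈ modGroup o, IsOpen (O g) := fun g hg =>
    (isOpen_lt hy continuous_const).preimage (continuous_of_mem (inv_mem hg))
  have hOW : ∀ g ∈ modGroup o, g '' fricke t = O g ∩ level t := by
    intro g hg
    ext p
    constructor
    · rintro ⟨w, hw, rfl⟩
      exact ⟨by simpa [hO] using hw.2, map_level hlt hg hw.1⟩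
    · rintro ⟨hp, hp'⟩
      exact ⟨g⁻¹ p, ⟨map_level hlt (inv_mem hg) hp', hp⟩, by simp⟩
  have hinv : ∀ h ∈ modGroup o, h '' (⋃ g ∈ modGroup o, g '' fricke t)
      ⊆ ⋃ g ∈ modGroup o, g '' fricke t := by
    intro h hh
    rw [image_iUnion₂]
    refine iUnion₂_subset fun g hg => ?_
    rw [← himg]
    exact subset_iUnion₂ (s := fun (g : Equiv.Perm C3) (_ : g ∈ modGroup o) => g '' fricke t)
      (h * g) (mul_mem hh hg)
  have hsub : ∀ g ∈ modGroup o, g '' fricke t ⊆ ⋃ g ∈ modGroup o, g '' fricke t := fun g hg =>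
    subset_iUnion₂ (s := fun (g : Equiv.Perm C3) (_ : g ∈ modGroup o) => g '' fricke t) g hg
  refine ⟨(h1.image _).mono (hsub 1 (one_mem _)), ⟨⋃ g ∈ modGroup o, O g, isOpen_biUnion hOo, ?_⟩,
    fun h hh => Or.inl ?_, ?_⟩
  · rw [iUnion₂_inter]
    exact iUnion₂_congr hOW
  · refine Subset.antisymm (hinv h hh) fun p hp => ⟨h⁻¹ p, hinv _ (inv_mem hh) ⟨p, hp, rfl⟩, by simp⟩
  · intro K hK hKc
    obtain ⟨T, hTG, hTf, hTK⟩ := hKc.elim_finite_subcover_image (b := (modGroup o : Set _))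
      (c := O) hOo (hK.trans (iUnion₂_mono fun g hg => by
        rw [hOW g hg]; exact inter_subset_left))
    have hlev : K ⊆ level t := hK.trans (iUnion₂_subset fun g hg => by
      rw [hOW g hg]; exact inter_subset_right)
    have hcomp : ∀ g ∈ modGroup o, IsCompact (K ∩ g '' fricke t) := by
      intro g hg
      have : K ∩ g '' fricke t = K \ ⋃ g' ∈ {g' | g' ∈ modGroup o ∧
          Disjoint (g' '' fricke t) (g '' fricke t)}, O g' := by
        ext p
        simp only [mem_inter_iff, mem_sdiff, mem_iUnion, exists_prop, mem_ofPred_eq, not_exists,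
          not_and, and_congr_right_iff]
        intro hp
        constructor
        · rintro hpg g' ⟨hg', hd⟩ hp'
          exact disjoint_left.1 hd (by rw [hOW g' hg']; exact ⟨hp', hlev hp⟩) hpg
        · intro hn
          obtain ⟨g', hg', hp'⟩ := mem_iUnion₂.1 (hK hp)
          have e : g' '' fricke t = g '' ((g⁻¹ * g') '' fricke t) := by
            rw [← himg]; congr 2; group
          rcases h3 _ (mul_mem (inv_mem hg) hg') with h' | h'
          · rwa [e, h'] at hp'
          · refine absurd ?_ (hn g' ⟨hg', ?_⟩)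
            · rw [hOW g' hg'] at hp'; exact hp'.1
            · rw [e]; exact (disjoint_image_iff g.injective).2 h'
      rw [this]
      exact hKc.diff (isOpen_biUnion fun g' hg' => hOo g' hg'.1)
    set K' : Set C3 := ⋃ g ∈ T, ⇑(g⁻¹) '' (K ∩ g '' fricke t) with hK'
    have hK'c : IsCompact K' := hTf.isCompact_biUnion fun g hg =>
      (hcomp g (hTG hg)).image (continuous_of_mem (inv_mem (hTG hg)))
    have hK'W : K' ⊆ fricke t := iUnion₂_subset fun g hg => by
      rintro _ ⟨_, ⟨-, w, hw, rfl⟩, rfl⟩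
      simpa using hw
    have hF := h4 K' hK'W hK'c
    refine ((hTf.prod (hF.prod hTf)).image fun x => x.1 * x.2.1 * x.2.2⁻¹).subset ?_
    rintro h ⟨hh, -, _, ⟨p, hp, rfl⟩, hp'⟩
    obtain ⟨a, ha, hpa⟩ := mem_iUnion₂.1 (hTK hp)
    obtain ⟨b, hb, hpb⟩ := mem_iUnion₂.1 (hTK hp')
    have m1 : a⁻¹ p ∈ K' := mem_iUnion₂.2 ⟨a, ha, p, ⟨hp, by
      rw [hOW a (hTG ha)]; exact ⟨hpa, hlev hp⟩⟩, rfl⟩
    have m2 : b⁻¹ (h p) ∈ K' := mem_iUnion₂.2 ⟨b, hb, h p, ⟨hp', by
      rw [hOW b (hTG hb)]; exact ⟨hpb, hlev hp'⟩⟩, rfl⟩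
    have m3 : b⁻¹ * h * a ∈ modGroup o := mul_mem (mul_mem (inv_mem (hTG hb)) hh) (hTG ha)
    have m4 : (b⁻¹ * h * a) (a⁻¹ p) = b⁻¹ (h p) := by simp
    refine ⟨(b, b⁻¹ * h * a, a), ⟨hb, ⟨m3, ?_, _, ⟨_, m1, m4⟩, m2⟩, ha⟩, by group⟩
    rcases h3 _ m3 with h' | h'
    · exact h'
    · exact absurd (hK'W m2) (disjoint_left.1 h' ⟨_, hK'W m1, m4⟩)

omit hlt in
lemma null_image (σ : ℝ) : μH[2] ((emb ∘ gr l σ) '' MM l) = 0 := by
  have hl0 : 0 < l := by linarith
  have hc : ContDiff ℝ 1 (emb ∘ gr l σ) := by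
    have h1 : ContDiff ℝ 1 fun q : ℝ × ℝ => DD l (σ * q.1) q.2 := by
      unfold DD
      apply ContDiff.sqrt (by fun_prop)
      intro q
      exact (DD_arg_pos hl0 _ _).ne'
    have h2 : ContDiff ℝ 1 (gr l σ) := by
      unfold gr YY
      fun_prop
    have h3 : ContDiff ℝ 1 emb := by
      have h4 : ContDiff ℝ 1 (fun x : ℝ => (x : ℂ)) := ofRealCLM.contDiff
      unfold emb
      fun_prop
    exact h3.comp h2
  have hcov : MM l = ⋃ n : ℕ, MM l ∩ Metric.closedBall 0 n := by
    rw [← inter_iUnion, Metric.iUnion_closedBall_nat, inter_univ]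
  rw [hcov, image_iUnion]
  refine measure_iUnion_null fun n => ?_
  obtain ⟨K, hK⟩ := LocallyLipschitzOn.exists_lipschitzOnWith_of_compact
    (isCompact_closedBall (0 : ℝ × ℝ) n) hc.locallyLipschitz.locallyLipschitzOn
  have := (hK.mono (inter_subset_right (s := MM l))).hausdorffMeasure_image_le
    (d := 2) (by norm_num)
  rw [hausdorffMeasure_prod_real, measure_mono_null inter_subset_left (volume_MM hl),
    mul_zero] at this
  exact nonpos_iff_eq_zero.1 this

theorem null_complement : μH[2] (level t \ ⋃ g ∈ modGroup o, g '' fricke t) = 0 := by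
  refine measure_mono_null ?_ (measure_union_null (null_image hl 1) (null_image hl (-1)))
  rintro p ⟨hp, hp'⟩
  obtain ⟨r, hr, rfl⟩ := exists_emb hlt hp
  rw [omega_iff hlt hr, not_not] at hp'
  rcases NR_subset hl ⟨hr, hp'⟩ with ⟨q, hq, rfl⟩ | ⟨q, hq, rfl⟩
  · left; exact ⟨q, hq, rfl⟩
  · right; exact ⟨q, hq, rfl⟩

lemma pos_of_open {O : Set C3} (hO : IsOpen O) (hne : (O ∩ level t).Nonempty) :
    μH[2] (O ∩ level t) ≠ 0 := by
  have hl0 : 0 < l := by linarith
  obtain ⟨p, hpO, hp⟩ := hne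
  obtain ⟨r0, hr0, rfl⟩ := exists_emb hlt hp
  obtain ⟨σ, hσ, hy⟩ := exists_sign hl hr0
  have e0 := eq_gr hl0 hσ hr0 hy
  have hopen : IsOpen ((emb ∘ gr l σ) ⁻¹' O) :=
    hO.preimage (continuous_emb.comp (continuous_gr σ))
  have hpos := hopen.measure_pos volume ⟨(r0.1, r0.2.2), by
    show emb (gr l σ _) ∈ O
    rw [← e0]; exact hpO⟩
  have hlip : LipschitzWith 1 fun p : C3 => (p.1.im, p.2.2.im) := by
    refine LipschitzWith.of_dist_le_mul fun p q => ?_
    simp only [Prod.dist_eq, NNReal.coe_one, one_mul, Real.dist_eq, Complex.dist_eq, ← sub_im]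
    exact max_le ((abs_im_le_norm _).trans (le_max_left _ _))
      ((abs_im_le_norm _).trans ((le_max_right _ _).trans (le_max_right _ _)))
  intro h0
  have := hlip.hausdorffMeasure_image_le (d := 2) (by norm_num) (O ∩ level t)
  rw [h0, mul_zero, hausdorffMeasure_prod_real] at this
  refine hpos.ne' (measure_mono_null ?_ (nonpos_iff_eq_zero.1 this))
  intro q hq
  refine ⟨emb (gr l σ q), ⟨hq, (emb_mem_level hlt _).2 (gr_surf hl0 hσ q)⟩, ?_⟩
  simp [emb, gr]

omit hl hlt in
lemma isClosed_level : IsClosed (level t) := by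
  refine IsClosed.inter (IsClosed.inter ?_ (IsClosed.inter ?_ ?_)) ?_
  · exact isClosed_eq (by fun_prop) continuous_const
  · exact isClosed_eq (by fun_prop) continuous_const
  · exact isClosed_eq (by fun_prop) continuous_const
  · exact isClosed_eq (by unfold kappa; fun_prop) continuous_const

theorem not_ergodic : ¬ IsErgodicOn (modGroup o) (level t) := by
  intro h
  set s := (2 + l) / 2 with hs
  have hs1 : 2 < s := by linarith
  have hs2 : s < l := by linarith
  set O : Set C3 := ⋃ g ∈ modGroup o, ⇑(g⁻¹) ⁻¹' {p : C3 | p.2.1.re ^ 2 < s ^ 2} with hO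
  have hy : Continuous fun p : C3 => p.2.1.re ^ 2 := by fun_prop
  have hOo : IsOpen O := isOpen_biUnion fun g hg =>
    (isOpen_lt hy continuous_const).preimage (continuous_of_mem (inv_mem hg))
  have hmap : ∀ g ∈ modGroup o, ∀ p ∈ O ∩ level t, g p ∈ O ∩ level t := by
    rintro g hg p ⟨hp, hp'⟩
    refine ⟨?_, map_level hlt hg hp'⟩
    simp only [hO, mem_iUnion, exists_prop] at hp ⊢
    obtain ⟨h, hh, hp⟩ := hp
    exact ⟨g * h, mul_mem hg hh, by simpa using hp⟩
  rcases h (O ∩ level t) inter_subset_right (hOo.measurableSet.inter isClosed_level.measurableSet)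
    (fun g hg => Subset.antisymm (by rintro _ ⟨p, hp, rfl⟩; exact hmap g hg p hp)
      fun p hp => ⟨g⁻¹ p, hmap _ (inv_mem hg) p hp, by simp⟩) with h0 | h0
  · refine pos_of_open hl hlt hOo ?_ h0
    obtain ⟨r, hr, hr'⟩ := exists_point hl (c := (2 + s) / 2) (by linarith) (by linarith)
    refine ⟨emb r, ?_, (emb_mem_level hlt r).2 hr⟩
    simp only [hO, mem_iUnion, exists_prop]
    refine ⟨1, one_mem _, ?_⟩
    show (emb r).2.1.re ^ 2 < s ^ 2
    simp only [emb, ofReal_re, hr']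
    nlinarith
  · refine pos_of_open hl hlt (O := {p : C3 | s ^ 2 < p.2.1.re ^ 2 ∧ p.2.1.re ^ 2 < t + 2})
      ((isOpen_lt continuous_const hy).and (isOpen_lt hy continuous_const))
      ?_ (measure_mono_null ?_ h0)
    · obtain ⟨r, hr, hr'⟩ := exists_point hl (c := (s + l) / 2) (by linarith) (by linarith)
      refine ⟨emb r, ?_, (emb_mem_level hlt r).2 hr⟩
      show s ^ 2 < (emb r).2.1.re ^ 2 ∧ (emb r).2.1.re ^ 2 < t + 2
      simp only [emb, ofReal_re, hr', ← hlt]
      constructor <;> nlinarith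
    · rintro p ⟨⟨h1, h2⟩, hp⟩
      refine ⟨hp, fun hc => ?_⟩
      have hc1 := hc.1
      simp only [hO, mem_iUnion, exists_prop] at hc1
      obtain ⟨g, hg, hgp⟩ := hc1
      have hgp' : (g⁻¹ p).2.1.re ^ 2 < s ^ 2 := hgp
      rcases dichotomy hl hlt (inv_mem hg) with h' | h'
      · rw [h' p hp] at hgp'; linarith
      · exact h' p ⟨hp, h2⟩ ⟨map_level hlt (inv_mem hg) hp, by nlinarith⟩

end

end Pool.Agent.Lib.MP_3dc428_gt
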