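import Pool.Agent.Lib.MP_3dc428_gt.Group
import Pool.Agent.Lib.MP_3dc428_gt.Core

/-!
Dynamics of the Vieta involutions in real coordinates.
-/

namespace Pool.Agent.Lib.MP_3dc428_gt

open Set MeasureTheory

abbrev R3 := ℝ × ℝ × ℝ

/-- The Vieta involutions in the real coordinates of the component. -/
def rv : Fin 3 → R3 → R3
  | 0, r => (r.2.1 * r.2.2 - r.1, r.2.1, r.2.2)
  | 1, r => (r.1, -(r.1 * r.2.2) - r.2.1, r.2.2)
  | 2, r => (r.1, r.2.1, r.1 * r.2.1 - r.2.2)

lemma rv_rv (i : Fin 3) (r : R3) : rv i (rv i r) = r := by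
  rcases three i with rfl | rfl | rfl <;> simp [rv]

lemma continuous_rv (i : Fin 3) : Continuous (rv i) := by
  rcases three i with rfl | rfl | rfl
  · show Continuous fun r : R3 => (r.2.1 * r.2.2 - r.1, r.2.1, r.2.2)
    fun_prop
  · show Continuous fun r : R3 => (r.1, -(r.1 * r.2.2) - r.2.1, r.2.2)
    fun_prop
  · show Continuous fun r : R3 => (r.1, r.2.1, r.1 * r.2.1 - r.2.2)
    fun_prop

def rsw (r : R3) : R3 := (r.2.2, r.2.1, r.1)

def sgn (r : R3) : R3 := (-r.1, -r.2.1, r.2.2)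

lemma rsw_rv (i : Fin 3) (r : R3) : rsw (rv i r) = rv (txz i) (rsw r) := by
  rcases three i with rfl | rfl | rfl <;> simp [rv, rsw, txz, mul_comm]

lemma sgn_rv (i : Fin 3) (r : R3) : sgn (rv i r) = rv (id i) (sgn r) := by
  rcases three i with rfl | rfl | rfl <;> simp [rv, sgn] <;> ring

def Surf (l : ℝ) : Set R3 :=
  {r | r.2.1 ^ 2 + r.1 * r.2.2 * r.2.1 - r.1 ^ 2 - r.2.2 ^ 2 = l ^ 2}

variable {l : ℝ}

lemma rv_surf (i : Fin 3) (r : R3) (h : r ∈ Surf l) : rv i r ∈ Surf l := by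
  obtain ⟨x, y, z⟩ := r
  simp only [Surf, mem_ofPred_eq] at h
  rcases three i with rfl | rfl | rfl <;> simp only [Surf, rv, mem_ofPred_eq] <;>
    linear_combination h

lemma rsw_surf (r : R3) (h : r ∈ Surf l) : rsw r ∈ Surf l := by
  obtain ⟨x, y, z⟩ := r
  simp only [Surf, mem_ofPred_eq, rsw] at h ⊢
  linear_combination h

lemma surf_four (hl : 2 < l) {r : R3} (h : r ∈ Surf l) : 4 < r.2.1 ^ 2 := by
  obtain ⟨x, y, z⟩ := r
  simp only [Surf, mem_ofPred_eq] at h ⊢
  by_contra hc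
  push Not at hc
  nlinarith [sq_nonneg (2 * x - y * z), mul_nonneg (sub_nonneg.2 hc) (sq_nonneg z)]

/-- Product of the three coordinates. -/
def pr (r : R3) : ℝ := r.1 * r.2.1 * r.2.2

lemma pr_pos_of_W {r : R3} (h : r ∈ Surf l) (hW : r.2.1 ^ 2 < l ^ 2) : 0 < pr r := by
  obtain ⟨x, y, z⟩ := r
  simp only [Surf, mem_ofPred_eq, pr] at h hW ⊢
  nlinarith [sq_nonneg x, sq_nonneg z]

/-- Ascending states. -/
def Asc (l : ℝ) (i : Fin 3) (r : R3) : Prop :=
  l ^ 2 < r.2.1 ^ 2 ∧ (i = 1 → pr r < 0) ∧ (i = 0 → 0 < pr r ∧ r.2.2 ^ 2 < r.1 ^ 2) ∧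
    (i = 2 → 0 < pr r ∧ r.1 ^ 2 < r.2.2 ^ 2)

lemma asc_start (hl : 2 < l) {r : R3} (h : r ∈ Surf l) (hW : r.2.1 ^ 2 < l ^ 2) :
    Asc l 1 (rv 1 r) := by
  have hp := pr_pos_of_W h hW
  have h4 := surf_four hl h
  obtain ⟨x, y, z⟩ := r
  simp only [Surf, mem_ofPred_eq, pr] at h hW hp h4
  refine ⟨?_, fun _ => ?_, fun h => absurd h (by decide), fun h => absurd h (by decide)⟩
  · simp only [rv]
    have h1 : (-(x * z) - y) * y = -(x ^ 2 + z ^ 2 + l ^ 2) := by linear_combination -h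
    have h2 : (-(x * z) - y) ^ 2 * y ^ 2 = (x ^ 2 + z ^ 2 + l ^ 2) ^ 2 := by
      rw [← mul_pow, h1]; ring
    by_contra hc
    push Not at hc
    have h3 : (-(x * z) - y) ^ 2 * y ^ 2 ≤ l ^ 2 * y ^ 2 :=
      mul_le_mul_of_nonneg_right hc (sq_nonneg y)
    have h5 : l ^ 2 * y ^ 2 < l ^ 2 * l ^ 2 := mul_lt_mul_of_pos_left hW (by positivity)
    nlinarith [sq_nonneg x, sq_nonneg z, sq_nonneg (x ^ 2 + z ^ 2), sq_nonneg l,
      mul_nonneg (add_nonneg (sq_nonneg x) (sq_nonneg z)) (sq_nonneg l)]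
  · simp only [rv, pr]
    nlinarith [sq_nonneg (x * z)]

lemma grow {x y z : ℝ} (hy : 4 < y ^ 2) (hp : 0 < x * y * z) (hxz : z ^ 2 < x ^ 2) :
    0 < x * y * (x * y - z) ∧ x ^ 2 < (x * y - z) ^ 2 := by
  have h1 : x * y * z = |x| * |y| * |z| := by rw [← abs_mul, ← abs_mul, abs_of_pos hp]
  have h2 : 2 < |y| := by
    apply lt_of_pow_lt_pow_left₀ 2 (abs_nonneg y)
    rw [sq_abs]; linarith
  have h3 : |z| < |x| := sq_lt_sq.1 hxz
  have h4 := abs_nonneg z
  have e1 : x * y * (x * y - z) = |x| * |y| * (|x| * |y| - |z|) := by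
    have : x * y * (x * y) = |x| * |y| * (|x| * |y|) := by
      rw [← abs_mul, abs_mul_abs_self]
    linear_combination this - h1
  have e2 : (x * y - z) ^ 2 = (|x| * |y| - |z|) ^ 2 := by
    have : (x * y) ^ 2 = (|x| * |y|) ^ 2 := by rw [← abs_mul, sq_abs]
    have h5 : z ^ 2 = |z| ^ 2 := (sq_abs z).symm
    linear_combination this - 2 * h1 + h5
  have h6 : |x| < |x| * |y| - |z| := by nlinarith
  have h7 : 0 < |x| := by linarith
  rw [e1, e2, ← sq_abs x]
  constructor
  · apply mul_pos (by positivity); linarith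
  · exact pow_lt_pow_left₀ h6 h7.le two_ne_zero

lemma asc_step (hl : 2 < l) {i j : Fin 3} (hij : j ≠ i) {r : R3} (h : Asc l i r) :
    Asc l j (rv j r) := by
  obtain ⟨x, y, z⟩ := r
  obtain ⟨h0, h1, h2, h3⟩ := h
  simp only [pr] at h0 h1 h2 h3
  have hy : 4 < y ^ 2 := by nlinarith
  rcases three i with rfl | rfl | rfl <;> rcases three j with rfl | rfl | rfl <;>
    simp only [ne_eq, not_true_eq_false] at hij
  · have := h2 rfl
    refine ⟨?_, fun _ => ?_, fun h => absurd h (by decide), fun h => absurd h (by decide)⟩ <;>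
      simp only [rv, pr] <;> nlinarith [sq_nonneg (x * z)]
  · have := h2 rfl
    refine ⟨h0, fun h => absurd h (by decide), fun h => absurd h (by decide), fun _ => ?_⟩
    exact grow hy this.1 this.2
  · have := h1 rfl
    refine ⟨h0, fun h => absurd h (by decide), fun _ => ?_, fun h => absurd h (by decide)⟩
    simp only [rv, pr]
    constructor <;> nlinarith [sq_nonneg (y * z), sq_nonneg x, sq_nonneg z,
      mul_nonneg (sub_nonneg.2 hy.le) (sq_nonneg z)]
  · have := h1 rfl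
    refine ⟨h0, fun h => absurd h (by decide), fun h => absurd h (by decide), fun _ => ?_⟩
    simp only [rv, pr]
    constructor <;> nlinarith [sq_nonneg (y * x), sq_nonneg x, sq_nonneg z,
      mul_nonneg (sub_nonneg.2 hy.le) (sq_nonneg x)]
  · have := h3 rfl
    refine ⟨h0, fun h => absurd h (by decide), fun _ => ?_, fun h => absurd h (by decide)⟩
    have h5 := grow (x := z) (z := x) hy (by linarith [this.1]) this.2
    simp only [rv, pr]
    constructor <;> nlinarith [h5.1, h5.2]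
  · have := h3 rfl
    refine ⟨?_, fun _ => ?_, fun h => absurd h (by decide), fun h => absurd h (by decide)⟩ <;>
      simp only [rv, pr] <;> nlinarith [sq_nonneg (x * z)]

lemma word_y {L : List (Fin 3)} (hL : (1 : Fin 3) ∉ L) (r : R3) : (word rv L r).2.1 = r.2.1 := by
  induction L with
  | nil => rfl
  | cons i L ih =>
    simp only [List.mem_cons, not_or] at hL
    rw [← ih hL.2]
    rcases three i with rfl | rfl | rfl
    · rfl
    · exact absurd rfl hL.1
    · rfl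

lemma asc_word (hl : 2 < l) {r : R3} (h : r ∈ Surf l) (hW : r.2.1 ^ 2 < l ^ 2) :
    ∀ (i : Fin 3) (L : List (Fin 3)), (i :: L).IsChain (· ≠ ·) → (1 : Fin 3) ∈ i :: L →
      Asc l i (word rv (i :: L) r) := by
  intro i L
  induction L generalizing i with
  | nil =>
    intro _ h1
    rw [← List.mem_singleton.1 h1]
    exact asc_start hl h hW
  | cons j L ih =>
    intro hc h1
    obtain ⟨hij, hc'⟩ := List.isChain_cons_cons.1 hc
    by_cases h2 : (1 : Fin 3) ∈ j :: L
    · exact asc_step hl hij (ih j hc' h2)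
    · have : i = 1 := by
        rcases List.mem_cons.1 h1 with h | h
        · exact h.symm
        · exact absurd h h2
      subst this
      apply asc_start hl (word_mem rv_surf _ h)
      rw [word_y h2]; exact hW

lemma word_not_W (hl : 2 < l) {r : R3} (h : r ∈ Surf l) (hW : r.2.1 ^ 2 < l ^ 2)
    {L : List (Fin 3)} (hc : L.IsChain (· ≠ ·)) (h1 : (1 : Fin 3) ∈ L) :
    l ^ 2 < (word rv L r).2.1 ^ 2 := by
  cases L with
  | nil => simp at h1
  | cons i L => exact (asc_word hl h hW i L hc h1).1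

/-- Difference of squares of the newer and the older imaginary trace. -/
def dl (i : Fin 3) (r : R3) : ℝ := if i = 0 then r.1 ^ 2 - r.2.2 ^ 2 else r.2.2 ^ 2 - r.1 ^ 2

lemma dl_step0 {r : R3} (h : r ∈ Surf l) :
    dl 2 r + 2 * (l ^ 2 - r.2.1 ^ 2) ≤ dl 0 (rv 0 r) := by
  obtain ⟨x, y, z⟩ := r
  simp only [Surf, mem_ofPred_eq] at h
  simp only [dl, rv, if_true, show (2 : Fin 3) ≠ 0 by decide, if_false]
  nlinarith [sq_nonneg (2 * x - y * z)]

lemma dl_step2 {r : R3} (h : r ∈ Surf l) :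
    dl 0 r + 2 * (l ^ 2 - r.2.1 ^ 2) ≤ dl 2 (rv 2 r) := by
  obtain ⟨x, y, z⟩ := r
  simp only [Surf, mem_ofPred_eq] at h
  simp only [dl, rv, if_true, show (2 : Fin 3) ≠ 0 by decide, if_false]
  nlinarith [sq_nonneg (2 * z - y * x)]

lemma dl_word {r : R3} (h : r ∈ Surf l) :
    ∀ (i : Fin 3) (L : List (Fin 3)), (i :: L).IsChain (· ≠ ·) → (1 : Fin 3) ∉ i :: L →
      2 * (l ^ 2 - r.2.1 ^ 2) * ((i :: L).length : ℝ) - (r.1 ^ 2 + r.2.2 ^ 2)
        ≤ dl i (word rv (i :: L) r) := by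
  intro i L
  induction L generalizing i with
  | nil =>
    intro _ h1
    rcases three i with rfl | rfl | rfl
    · have := dl_step0 h
      simp only [dl, show (2 : Fin 3) ≠ 0 by decide, if_false] at this
      simp only [word, List.length_singleton, Nat.cast_one, dl]
      nlinarith [sq_nonneg r.2.2]
    · simp at h1
    · have := dl_step2 h
      simp only [dl, if_true] at this
      simp only [word, List.length_singleton, Nat.cast_one, dl]
      nlinarith [sq_nonneg r.1]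
  | cons j L ih =>
    intro hc h1
    obtain ⟨hij, hc'⟩ := List.isChain_cons_cons.1 hc
    have h2 : (1 : Fin 3) ∉ j :: L := fun h => h1 (List.mem_cons_of_mem _ h)
    have h3 := ih j hc' h2
    have h4 : word rv (j :: L) r ∈ Surf l := word_mem rv_surf _ h
    have h5 := word_y h2 r
    have e : (((i :: j :: L).length : ℕ) : ℝ) = ((j :: L).length : ℝ) + 1 := by
      simp
    rw [e]
    show _ ≤ dl i (rv i (word rv (j :: L) r))
    rcases three i with rfl | rfl | rfl <;> rcases three j with rfl | rfl | rfl <;>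
      simp only [ne_eq, not_true_eq_false, List.mem_cons, true_or, or_true] at hij h1 h2
    · have := dl_step0 h4
      rw [h5] at this
      linarith
    · have := dl_step2 h4
      rw [h5] at this
      linarith

lemma length_bound {r : R3} (h : r ∈ Surf l) {L : List (Fin 3)} (hc : L.IsChain (· ≠ ·))
    (h1 : (1 : Fin 3) ∉ L) :
    2 * (l ^ 2 - r.2.1 ^ 2) * (L.length : ℝ)
      ≤ (r.1 ^ 2 + r.2.2 ^ 2) + ((word rv L r).1 ^ 2 + (word rv L r).2.2 ^ 2) := by
  cases L with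
  | nil => simp; positivity
  | cons i L =>
    have := dl_word h i L hc h1
    unfold dl at this
    split_ifs at this <;> nlinarith [sq_nonneg (word rv (i :: L) r).1,
      sq_nonneg (word rv (i :: L) r).2.2]

lemma shrink {x y z m : ℝ} (hm : 0 < m) (h : x ^ 2 + z ^ 2 - x * y * z = m) (hp : 0 < x * y * z)
    (hp' : 0 < (y * z - x) * y * z) (hxz : z ^ 2 ≤ x ^ 2) : (y * z - x) ^ 2 ≤ x ^ 2 - m := by
  have h1 : x * (y * z - x) = z ^ 2 - m := by linear_combination -h
  have hyz : 0 < (y * z) ^ 2 := by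
    have : y * z ≠ 0 := by
      intro h0
      rw [mul_assoc, h0, mul_zero] at hp
      exact lt_irrefl _ hp
    positivity
  have h2 : 0 < x * (y * z - x) := by
    have : 0 < x * (y * z - x) * (y * z) ^ 2 := by nlinarith [mul_pos hp hp']
    exact (pos_iff_pos_of_mul_pos this).2 hyz
  have hx : 0 < x ^ 2 := by nlinarith
  have h3 : x ^ 2 * (y * z - x) ^ 2 = (z ^ 2 - m) ^ 2 := by rw [← mul_pow, h1]
  have h4 : (z ^ 2 - m) ^ 2 ≤ x ^ 2 * (x ^ 2 - m) := by nlinarith
  exact le_of_mul_le_mul_left (h3 ▸ h4) hx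

/-- If the product stays positive along all alternating words then the real trace is small. -/
lemma always_pos {r : R3} (h : r ∈ Surf l)
    (hp : ∀ A : List (Fin 3), (1 : Fin 3) ∉ A → 0 < pr (word rv A r)) : r.2.1 ^ 2 ≤ l ^ 2 := by
  by_contra hc
  push Not at hc
  set m := r.2.1 ^ 2 - l ^ 2 with hm
  have hm0 : 0 < m := by linarith
  have key : ∀ n : ℕ, ∀ q : R3, q ∈ Surf l → q.2.1 = r.2.1 →
      (∀ A : List (Fin 3), (1 : Fin 3) ∉ A → 0 < pr (word rv A q)) →
      n * m ≤ q.1 ^ 2 + q.2.2 ^ 2 := by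
    intro n
    induction n with
    | zero => intro q _ _ _; simp; positivity
    | succ n ih =>
      intro q hq hy hA
      have hA' : ∀ i : Fin 3, i ≠ 1 → ∀ A : List (Fin 3), (1 : Fin 3) ∉ A →
          0 < pr (word rv A (rv i q)) := by
        intro i hi A h1
        have := hA (A ++ [i]) (by simp [h1, hi.symm])
        rwa [word_append] at this
      have p0 := hA [] (by simp)
      have p1 := hA [0] (by simp)
      have p2 := hA [2] (by simp)
      have i0 := ih (rv 0 q) (rv_surf _ _ hq) hy (hA' 0 (by decide))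
      have i2 := ih (rv 2 q) (rv_surf _ _ hq) hy (hA' 2 (by decide))
      obtain ⟨x, y, z⟩ := q
      simp only [Surf, mem_ofPred_eq] at hq
      simp only [word, rv, pr] at p0 p1 p2 i0 i2 hy
      have he : x ^ 2 + z ^ 2 - x * y * z = m := by rw [hm, ← hy]; linear_combination -hq
      push_cast
      rcases le_total (z ^ 2) (x ^ 2) with hxz | hxz
      · have := shrink hm0 he p0 p1 hxz
        linarith
      · have := shrink (x := z) (z := x) (y := y) hm0 (by linarith) (by linarith) (by linarith) hxz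
        have e : (x * y - z) ^ 2 = (y * x - z) ^ 2 := by ring
        linarith
  obtain ⟨n, hn⟩ := exists_nat_gt ((r.1 ^ 2 + r.2.2 ^ 2) / m)
  have := key n r h rfl hp
  rw [div_lt_iff₀ hm0] at hn
  linarith

/-- Points with `y² = l²` are limits of points of the surface with `y² > l²`. -/
lemma perturb (hl : 2 < l) {r : R3} (h : r ∈ Surf l) (hy : r.2.1 ^ 2 = l ^ 2) {O : Set R3}
    (hO : IsOpen O) (hr : r ∈ O) : ∃ r' ∈ O, r' ∈ Surf l ∧ l ^ 2 < r'.2.1 ^ 2 := by
  obtain ⟨x, y, z⟩ := r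
  simp only [Surf, mem_ofPred_eq] at h hy
  have hl4 : 4 < l ^ 2 := by nlinarith
  let D : ℝ → ℝ := fun s => ((s * y) ^ 2 - 4) * z ^ 2 + 4 * ((s * y) ^ 2 - l ^ 2)
  have hD1 : D 1 = (2 * x - y * z) ^ 2 := by
    simp only [D]; linear_combination 4 * h
  obtain ⟨σ, hσ, hσ'⟩ : ∃ σ : ℝ, σ ^ 2 = 1 ∧ σ * Real.sqrt (D 1) = 2 * x - y * z := by
    rw [hD1, Real.sqrt_sq_eq_abs]
    rcases le_total 0 (2 * x - y * z) with h' | h'
    · exact ⟨1, by norm_num, by rw [abs_of_nonneg h', one_mul]⟩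
    · exact ⟨-1, by norm_num, by rw [abs_of_nonpos h']; ring⟩
  let c : ℝ → R3 := fun s => ((s * y * z + σ * Real.sqrt (D s)) / 2, s * y, z)
  have hc : Continuous c := by simp only [c, D]; fun_prop
  have hc1 : c 1 = (x, y, z) := by
    simp only [c, hσ', one_mul]
    congr 1; ring
  have h1 : c ⁻¹' O ∈ nhdsWithin (1 : ℝ) (Ioi 1) :=
    mem_nhdsWithin_of_mem_nhds (hc.continuousAt.preimage_mem_nhds (hO.mem_nhds (hc1 ▸ hr)))
  obtain ⟨s, hs, hs'⟩ := (Filter.inter_mem h1 self_mem_nhdsWithin |> Filter.nonempty_of_mem)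
  have hs1 : (1 : ℝ) < s := hs'
  have h2 : l ^ 2 < (s * y) ^ 2 := by
    rw [mul_pow, hy]
    have : 1 < s ^ 2 := by nlinarith
    nlinarith
  refine ⟨c s, hs, ?_, h2⟩
  have h3 : 0 ≤ D s := by
    simp only [D]
    nlinarith [sq_nonneg z]
  have h4 := Real.sq_sqrt h3
  simp only [Surf, mem_ofPred_eq, c]
  simp only [D] at h4 ⊢
  linear_combination (-1 / 4 : ℝ) * h4 - (1 / 4) * (Real.sqrt (((s * y) ^ 2 - 4) * z ^ 2
    + 4 * ((s * y) ^ 2 - l ^ 2))) ^ 2 * hσ

/-- The two sheets of the surface as graphs. -/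
noncomputable def gr (l σ : ℝ) (q : ℝ × ℝ) : R3 := (q.1, σ * YY l (σ * q.1) q.2, q.2)

lemma continuous_gr (σ : ℝ) : Continuous (gr l σ) := by
  unfold gr YY DD; fun_prop

lemma gr_surf (hl : 0 < l) {σ : ℝ} (hσ : σ = 1 ∨ σ = -1) (q : ℝ × ℝ) : gr l σ q ∈ Surf l := by
  have := YY_eq hl (σ * q.1) q.2
  simp only [Surf, gr, mem_ofPred_eq]
  rcases hσ with rfl | rfl <;> linear_combination this

lemma eq_gr (hl : 0 < l) {σ : ℝ} (hσ : σ = 1 ∨ σ = -1) {r : R3} (h : r ∈ Surf l)
    (hy : 0 < σ * r.2.1) : r = gr l σ (r.1, r.2.2) := by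
  obtain ⟨x, y, z⟩ := r
  simp only [Surf, mem_ofPred_eq] at h
  have := YY_unique hl (x := σ * x) (z := z) hy
    (by rcases hσ with rfl | rfl <;> linear_combination h)
  simp only [gr, ← this]
  rcases hσ with rfl | rfl <;> simp

lemma exists_sign (hl : 2 < l) {r : R3} (h : r ∈ Surf l) :
    ∃ σ : ℝ, (σ = 1 ∨ σ = -1) ∧ 0 < σ * r.2.1 := by
  have := surf_four hl h
  rcases lt_trichotomy r.2.1 0 with h' | h' | h'
  · exact ⟨-1, Or.inr rfl, by linarith⟩
  · rw [h'] at this; norm_num at this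
  · exact ⟨1, Or.inl rfl, by linarith⟩

/-- Points whose orbit never meets the domain. -/
def NR (l : ℝ) : Set R3 := {r | ∀ L : List (Fin 3), l ^ 2 ≤ (word rv L r).2.1 ^ 2}

def MM (l : ℝ) : Set (ℝ × ℝ) := gr l 1 ⁻¹' NR l

lemma isClosed_NR : IsClosed (NR l) := by
  have : NR l = ⋂ L : List (Fin 3), {r | l ^ 2 ≤ (word rv L r).2.1 ^ 2} := by
    ext r; simp [NR]
  rw [this]
  refine isClosed_iInter fun L => isClosed_le continuous_const ?_
  have := continuous_word continuous_rv L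
  fun_prop

lemma NR_rv (i : Fin 3) {r : R3} (h : r ∈ NR l) : rv i r ∈ NR l := by
  intro L
  have := h (L ++ [i])
  rwa [word_append] at this

lemma NR_rsw {r : R3} (h : r ∈ NR l) : rsw r ∈ NR l := by
  intro L
  have h1 := word_comm rsw txz rsw_rv L (rsw r)
  have h2 := h (L.map txz)
  have h3 : rsw (rsw r) = r := rfl
  rw [h3] at h1
  rw [← h1] at h2
  exact h2

lemma NR_sgn {r : R3} (h : r ∈ NR l) : sgn r ∈ NR l := by
  intro L
  have h1 := word_comm sgn id sgn_rv L r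
  rw [List.map_id] at h1
  rw [← h1]
  simpa [sgn] using h L

lemma inv_MM (hl : 2 < l) : Inv l (MM l) := by
  have hl0 : 0 < l := by linarith
  refine ⟨(isClosed_NR.preimage (continuous_gr 1)).measurableSet, ?_, ?_, ?_, ?_⟩
  · intro p hp
    have : gr l 1 (QQ l p) = rv 0 (gr l 1 p) := by simp [gr, QQ, rv, YY_vieta hl0]
    show gr l 1 (QQ l p) ∈ NR l
    rw [this]; exact NR_rv 0 hp
  · intro p hp
    have : gr l 1 (Prod.swap p) = rsw (gr l 1 p) := by simp [gr, rsw, YY_swap p.1 p.2]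
    show gr l 1 (Prod.swap p) ∈ NR l
    rw [this]; exact NR_rsw hp
  · intro p hp
    have : gr l 1 (neg1 p) = sgn (rv 1 (gr l 1 p)) := by
      simp [gr, sgn, rv, neg1, YY_neg]
    show gr l 1 (neg1 p) ∈ NR l
    rw [this]; exact NR_sgn (NR_rv 1 hp)
  · intro p hp
    have h1 : l ^ 2 ≤ (1 * YY l (1 * p.1) p.2) ^ 2 := hp []
    rw [one_mul, one_mul] at h1
    exact le_of_sq_le_sq h1 (YY_pos hl0 _ _).le

lemma volume_MM (hl : 2 < l) : volume (MM l) = 0 := core hl (inv_MM hl)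

lemma NR_subset (hl : 2 < l) : Surf l ∩ NR l ⊆ gr l 1 '' MM l ∪ gr l (-1) '' MM l := by
  have hl0 : 0 < l := by linarith
  rintro r ⟨h, hN⟩
  obtain ⟨σ, hσ, hy⟩ := exists_sign hl h
  have e := eq_gr hl0 hσ h hy
  rcases hσ with rfl | rfl
  · left
    refine ⟨_, ?_, e.symm⟩
    show gr l 1 _ ∈ NR l
    rw [← e]; exact hN
  · right
    refine ⟨_, ?_, e.symm⟩
    have h1 : neg1 (r.1, r.2.2) ∈ MM l := by
      show gr l 1 _ ∈ NR l
      have : gr l 1 (neg1 (r.1, r.2.2)) = sgn (gr l (-1) (r.1, r.2.2)) := by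
        simp [gr, neg1, sgn]
      rw [this, ← e]; exact NR_sgn hN
    have := (inv_MM hl).hneg _ h1
    rwa [neg1_neg1] at this

end Pool.Agent.Lib.MP_3dc428_gt
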